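import Pool.Agent.helper26.Env.Classical

/-!
# Greatest lower bounds of signed Radon measures
-/

set_option autoImplicit false
set_option linter.unusedSectionVars false

namespace Pool.Agent.helper26.Env

open MeasureTheory Filter Topology Set InnerProductSpace
open scoped ENNReal NNReal RealInnerProductSpace ContDiff

variable {E : Type*} [NormedAddCommGroup E] [InnerProductSpace ℝ E] [FiniteDimensional ℝ E]
  [MeasurableSpace E] [BorelSpace E]

theorem RadonOn.of_le {Ω : Set E} {a b : Measure E} (hb : RadonOn Ω b) (h : a ≤ b) :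
    RadonOn Ω a := fun K hK hKc => (h K).trans_lt (hb K hK hKc)

theorem RadonOn.restrict {Ω : Set E} {a : Measure E} (ha : RadonOn Ω a) (s : Set E) :
    RadonOn Ω (a.restrict s) := ha.of_le Measure.restrict_le_self

theorem SignedLE.trans {Ω : Set E} (hΩ : IsOpen Ω) {a b I J P N : Measure E} (hI : RadonOn Ω I)
    (hJ : RadonOn Ω J) (h1 : SignedLE Ω a b I J) (h2 : SignedLE Ω I J P N) :
    SignedLE Ω a b P N := by
  refine SignedLE.of_compact hΩ fun K hKΩ hK B hB hBK => ?_
  have e1 := h1 B hB (hBK.trans hKΩ)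
  have e2 := h2 B hB (hBK.trans hKΩ)
  have hfin : I B + J B ≠ ⊤ := (ENNReal.add_lt_top.2
    ⟨(measure_mono hBK).trans_lt (hI K hKΩ hK), (measure_mono hBK).trans_lt (hJ K hKΩ hK)⟩).ne
  have e3 : (a B + N B) + (I B + J B) ≤ (P B + b B) + (I B + J B) := by
    calc (a B + N B) + (I B + J B) = (a B + J B) + (I B + N B) := by ring
      _ ≤ (I B + b B) + (P B + J B) := add_le_add e1 e2
      _ = (P B + b B) + (I B + J B) := by ring
  exact (ENNReal.add_le_add_iff_right hfin).1 e3

theorem SignedLE.refl (Ω : Set E) (a b : Measure E) : SignedLE Ω a b a b :=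
  fun _ _ _ => le_rfl

/-- A measure below two sums is below the infimum plus the common summand. -/
theorem le_inf_add {α X Y b : Measure E} (h1 : α ≤ X + b) (h2 : α ≤ Y + b) :
    α ≤ (X ⊓ Y) + b := by
  rw [Measure.le_iff]
  intro B hB
  rw [Measure.add_apply, Measure.inf_apply hB, ← tsub_le_iff_right]
  refine le_sInf ?_
  rintro m ⟨t, rfl⟩
  rw [tsub_le_iff_right]
  obtain ⟨T, hT⟩ : ∃ T : Set E, T = toMeasurable X (t ∩ B) := ⟨_, rfl⟩
  have hTm : MeasurableSet T := by rw [hT]; exact measurableSet_toMeasurable _ _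
  have hTs : t ∩ B ⊆ T := by rw [hT]; exact subset_toMeasurable _ _
  have hTX : X T = X (t ∩ B) := by rw [hT]; exact measure_toMeasurable _
  have e1 : α (B ∩ T) ≤ X (t ∩ B) + b (B ∩ T) := by
    refine (h1 _).trans ?_
    rw [Measure.add_apply, ← hTX]
    exact add_le_add (measure_mono inter_subset_right) le_rfl
  have e2 : α (B \ T) ≤ Y (tᶜ ∩ B) + b (B \ T) := by
    refine (h2 _).trans ?_
    rw [Measure.add_apply]
    gcongr
    intro x hx
    exact ⟨fun hxt => hx.2 (hTs ⟨hxt, hx.1⟩), hx.1⟩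
  calc α B = α (B ∩ T) + α (B \ T) := (measure_inter_add_sdiff B hTm).symm
    _ ≤ (X (t ∩ B) + b (B ∩ T)) + (Y (tᶜ ∩ B) + b (B \ T)) := add_le_add e1 e2
    _ = X (t ∩ B) + Y (tᶜ ∩ B) + (b (B ∩ T) + b (B \ T)) := by ring
    _ = X (t ∩ B) + Y (tᶜ ∩ B) + b B := by rw [measure_inter_add_sdiff B hTm]

theorem glb_two {Ω : Set E} (hΩ : IsOpen Ω) {P N P' N' : Measure E} (hP : RadonOn Ω P)
    (hN : RadonOn Ω N) (_hP' : RadonOn Ω P') (hN' : RadonOn Ω N') :
    ∃ I J, RadonOn Ω I ∧ RadonOn Ω J ∧ SignedLE Ω I J P N ∧ SignedLE Ω I J P' N' ∧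
      ∀ a b, RadonOn Ω a → RadonOn Ω b → SignedLE Ω a b P N → SignedLE Ω a b P' N' →
        SignedLE Ω a b I J := by
  refine ⟨(P + N').restrict Ω ⊓ (P' + N).restrict Ω, N + N',
    ((hP.add hN').restrict Ω).of_le inf_le_left, hN.add hN', ?_, ?_, ?_⟩
  · intro B hB hBΩ
    have h1 : ((P + N').restrict Ω ⊓ (P' + N).restrict Ω) B ≤ P B + N' B := by
      refine ((inf_le_left : (P + N').restrict Ω ⊓ (P' + N).restrict Ω ≤ _) B).trans ?_
      rw [Measure.restrict_apply hB, inter_eq_left.2 hBΩ, Measure.add_apply]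
    rw [Measure.add_apply]
    calc _ ≤ (P B + N' B) + N B := by gcongr
      _ = _ := by ring
  · intro B hB hBΩ
    have h1 : ((P + N').restrict Ω ⊓ (P' + N).restrict Ω) B ≤ P' B + N B := by
      refine ((inf_le_right : (P + N').restrict Ω ⊓ (P' + N).restrict Ω ≤ _) B).trans ?_
      rw [Measure.restrict_apply hB, inter_eq_left.2 hBΩ, Measure.add_apply]
    rw [Measure.add_apply]
    calc _ ≤ (P' B + N B) + N' B := by gcongr
      _ = _ := by ring
  · intro a b _ _ h1 h2 B hB hBΩ
    have e1 : (a + (N + N')).restrict Ω ≤ (P + N').restrict Ω + b.restrict Ω := by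
      rw [Measure.le_iff]
      intro D hD
      rw [Measure.add_apply, Measure.restrict_apply hD, Measure.restrict_apply hD,
        Measure.restrict_apply hD, Measure.add_apply, Measure.add_apply, Measure.add_apply]
      have := h1 (D ∩ Ω) (hD.inter hΩ.measurableSet) inter_subset_right
      calc a (D ∩ Ω) + (N (D ∩ Ω) + N' (D ∩ Ω)) = (a (D ∩ Ω) + N (D ∩ Ω)) + N' (D ∩ Ω) := by ring
        _ ≤ (P (D ∩ Ω) + b (D ∩ Ω)) + N' (D ∩ Ω) := by gcongr
        _ = _ := by ring
    have e2 : (a + (N + N')).restrict Ω ≤ (P' + N).restrict Ω + b.restrict Ω := by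
      rw [Measure.le_iff]
      intro D hD
      rw [Measure.add_apply, Measure.restrict_apply hD, Measure.restrict_apply hD,
        Measure.restrict_apply hD, Measure.add_apply, Measure.add_apply, Measure.add_apply]
      have := h2 (D ∩ Ω) (hD.inter hΩ.measurableSet) inter_subset_right
      calc a (D ∩ Ω) + (N (D ∩ Ω) + N' (D ∩ Ω)) = (a (D ∩ Ω) + N' (D ∩ Ω)) + N (D ∩ Ω) := by ring
        _ ≤ (P' (D ∩ Ω) + b (D ∩ Ω)) + N (D ∩ Ω) := by gcongr
        _ = _ := by ring
    have e3 := le_inf_add e1 e2 B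
    rwa [Measure.add_apply, Measure.restrict_apply hB, Measure.restrict_apply hB,
      inter_eq_left.2 hBΩ, Measure.add_apply] at e3

/-- Finite families of signed Radon measures have greatest lower bounds. -/
theorem glb_fin {κ : Type*} {Ω : Set E} (hΩ : IsOpen Ω) (s : Finset κ) (hs : s.Nonempty)
    (P N : κ → Measure E) (hP : ∀ k ∈ s, RadonOn Ω (P k)) (hN : ∀ k ∈ s, RadonOn Ω (N k)) :
    ∃ I J, RadonOn Ω I ∧ RadonOn Ω J ∧ (∀ k ∈ s, SignedLE Ω I J (P k) (N k)) ∧
      ∀ a b, RadonOn Ω a → RadonOn Ω b → (∀ k ∈ s, SignedLE Ω a b (P k) (N k)) →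
        SignedLE Ω a b I J := by
  classical
  induction hs using Finset.Nonempty.cons_induction with
  | singleton k =>
    exact ⟨P k, N k, hP k (Finset.mem_singleton_self k), hN k (Finset.mem_singleton_self k),
      fun j hj => by
        rw [Finset.mem_singleton.1 hj]
        exact SignedLE.refl _ _ _,
      fun a b _ _ h => h k (Finset.mem_singleton_self k)⟩
  | cons k s hk hs ih =>
    obtain ⟨I, J, hI, hJ, h1, h2⟩ := ih (fun j hj => hP j (Finset.mem_cons_of_mem hj))
      (fun j hj => hN j (Finset.mem_cons_of_mem hj))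
    have hPk := hP k (Finset.mem_cons_self k s)
    have hNk := hN k (Finset.mem_cons_self k s)
    obtain ⟨I', J', hI', hJ', g1, g2, g3⟩ := glb_two hΩ hPk hNk hI hJ
    refine ⟨I', J', hI', hJ', fun j hj => ?_, fun a b ha hb h => ?_⟩
    · rcases Finset.mem_cons.1 hj with rfl | hj
      · exact g1
      · exact g2.trans hΩ hI hJ (h1 j hj)
    · exact g3 a b ha hb (h k (Finset.mem_cons_self k s))
        (h2 a b ha hb fun j hj => h j (Finset.mem_cons_of_mem hj))

/-- The order in terms of real values on relatively compact Borel sets. -/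
theorem signedLE_real {Ω : Set E} (hΩ : IsOpen Ω) {a b P N : Measure E} (ha : RadonOn Ω a)
    (hb : RadonOn Ω b) (hP : RadonOn Ω P) (hN : RadonOn Ω N) :
    SignedLE Ω a b P N ↔ ∀ K ⊆ Ω, IsCompact K → ∀ B ⊆ K, MeasurableSet B →
      a.real B - b.real B ≤ P.real B - N.real B := by
  have key : ∀ K ⊆ Ω, IsCompact K → ∀ B ⊆ K, (a B + N B ≤ P B + b B ↔
      a.real B - b.real B ≤ P.real B - N.real B) := by
    intro K hKΩ hK B hBK
    have f : ∀ μ : Measure E, RadonOn Ω μ → μ B ≠ ⊤ := fun μ hμ =>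
      ((measure_mono hBK).trans_lt (hμ K hKΩ hK)).ne
    rw [← ENNReal.toReal_le_toReal (ENNReal.add_ne_top.2 ⟨f a ha, f N hN⟩)
      (ENNReal.add_ne_top.2 ⟨f P hP, f b hb⟩), ENNReal.toReal_add (f a ha) (f N hN),
      ENNReal.toReal_add (f P hP) (f b hb)]
    unfold Measure.real
    constructor <;> intro h <;> linarith
  constructor
  · intro h K hKΩ hK B hBK hB
    exact (key K hKΩ hK B hBK).1 (h B hB (hBK.trans hKΩ))
  · intro h
    exact SignedLE.of_compact hΩ fun K hKΩ hK B hB hBK =>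
      (key K hKΩ hK B hBK).2 (h K hKΩ hK B hBK hB)

end Pool.Agent.helper26.Env
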