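import Pool.Agent.helper26.Env.Growth

/-!
# The absolutely continuous part

If `u ≥ 0` vanishes on a compact set `K` of positive Lebesgue measure, then the positive part of
`Δ u` cannot dominate a positive multiple of Lebesgue measure on `K`.
-/

set_option autoImplicit false
set_option linter.unusedSectionVars false

namespace Pool.Agent.helper26.Env

open MeasureTheory Filter Topology Set InnerProductSpace
open scoped ENNReal

variable {E : Type*} [NormedAddCommGroup E] [InnerProductSpace ℝ E] [FiniteDimensional ℝ E]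
  [MeasurableSpace E] [BorelSpace E]

/-- Volume of the unit ball. -/
noncomputable def om (E : Type*) [NormedAddCommGroup E] [InnerProductSpace ℝ E]
    [FiniteDimensional ℝ E] [MeasurableSpace E] [BorelSpace E] : ℝ :=
  (volume : Measure E).real (Metric.closedBall 0 1)

theorem om_pos : 0 < om E := by
  unfold om Measure.real
  exact ENNReal.toReal_pos (Metric.measure_closedBall_pos volume 0 one_pos).ne'
    (isCompact_closedBall 0 1).measure_ne_top

theorem vol_ball (x : E) {r : ℝ} (hr : 0 ≤ r) :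
    (volume : Measure E).real (Metric.closedBall x r) = r ^ (Module.finrank ℝ E) * om E := by
  unfold om
  exact Measure.addHaar_real_closedBall' volume x hr

theorem tendsto_ratio {Q : Measure E} [IsFiniteMeasure Q] {x : E} {L : ℝ≥0∞} (hL : L ≠ ∞)
    (h : Tendsto (fun r => Q (Metric.closedBall x r) / volume (Metric.closedBall x r)) (𝓝[>] 0)
      (𝓝 L)) :
    Tendsto (fun r : ℝ => (r ^ (Module.finrank ℝ E))⁻¹ * Q.real (Metric.closedBall x r)) (𝓝[>] 0)
      (𝓝 (om E * L.toReal)) := by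
  have h1 := ((ENNReal.tendsto_toReal hL).comp h).const_mul (om E)
  refine h1.congr' ?_
  filter_upwards [self_mem_nhdsWithin] with r hr
  have hr0 : (0 : ℝ) < r := hr
  simp only [Function.comp, ENNReal.toReal_div]
  have h2 := vol_ball x hr0.le
  unfold Measure.real at h2 ⊢
  rw [h2]
  have := om_pos (E := E)
  field_simp

/-- The measure with density `u`. -/
noncomputable def mu (u : E → ℝ) : Measure E := volume.withDensity (fun y => ENNReal.ofReal (u y))

theorem mu_finite {u : E → ℝ} (hu : Integrable u) : IsFiniteMeasure (mu u) :=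
  isFiniteMeasure_withDensity_ofReal hu.2

theorem mu_real {u : E → ℝ} (hu : Integrable u) (hu0 : ∀ x, 0 ≤ u x) {S : Set E}
    (hS : MeasurableSet S) : (mu u).real S = ∫ y in S, u y := by
  unfold mu Measure.real
  rw [withDensity_apply _ hS, integral_eq_lintegral_of_nonneg_ae
    (by filter_upwards with y using hu0 y) hu.aestronglyMeasurable.restrict]

theorem av_upper {u : E → ℝ} (hu : Integrable u) (hu0 : ∀ x, 0 ≤ u x) :
    ∃ S : ℝ, 0 < S ∧ ∀ (x : E) (ρ : ℝ), 0 < ρ →
      av u x ρ ≤ S * ((ρ ^ (Module.finrank ℝ E))⁻¹ * (mu u).real (Metric.closedBall x ρ)) := by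
  obtain ⟨S, hS0, hS⟩ := pr1_bound
  refine ⟨2 * S, by positivity, fun x ρ hρ => ?_⟩
  rw [mu_real hu hu0 Metric.isClosed_closedBall.measurableSet, ← integral_indicator
    Metric.isClosed_closedBall.measurableSet, ← mul_assoc, ← integral_const_mul]
  unfold av
  refine integral_mono (integrable_mul_et hu hρ x)
    ((hu.indicator Metric.isClosed_closedBall.measurableSet).const_mul _) fun y => ?_
  simp only
  by_cases hy : y ∈ Metric.closedBall x ρ
  · rw [indicator_of_mem hy]
    have h1 := hS ((ρ ^ 2)⁻¹ * ‖y - x‖ ^ 2) (by positivity)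
    have h2 : et ρ x y ≤ 2 * S * (ρ ^ (Module.finrank ℝ E))⁻¹ := by
      unfold et rad
      have h3 : 0 ≤ (ρ ^ (Module.finrank ℝ E))⁻¹ := by positivity
      nlinarith
    have := mul_le_mul_of_nonneg_left h2 (hu0 y)
    linarith
  · rw [indicator_of_notMem hy]
    unfold et rad
    rw [pr1_zero (outside hρ hy).le]
    simp

theorem av_lower {u : E → ℝ} (hu : Integrable u) (hu0 : ∀ x, 0 ≤ u x) (x : E) {ρ : ℝ}
    (hρ : 0 < ρ) : 2 * b0 * ((ρ ^ (Module.finrank ℝ E))⁻¹ *
      (mu u).real (Metric.closedBall x (ρ / 2))) ≤ av u x ρ := by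
  rw [mu_real hu hu0 Metric.isClosed_closedBall.measurableSet, ← integral_indicator
    Metric.isClosed_closedBall.measurableSet, ← mul_assoc, ← integral_const_mul]
  unfold av
  refine integral_mono ((hu.indicator Metric.isClosed_closedBall.measurableSet).const_mul _)
    (integrable_mul_et hu hρ x) fun y => ?_
  simp only
  by_cases hy : y ∈ Metric.closedBall x (ρ / 2)
  · rw [indicator_of_mem hy]
    have h1 := pr1_ge (by positivity) (inside hρ hy)
    have h2 : 2 * b0 * (ρ ^ (Module.finrank ℝ E))⁻¹ ≤ et ρ x y := by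
      unfold et rad
      have h3 : 0 ≤ (ρ ^ (Module.finrank ℝ E))⁻¹ := by positivity
      nlinarith
    have := mul_le_mul_of_nonneg_left h2 (hu0 y)
    linarith
  · rw [indicator_of_notMem hy, mul_zero]
    exact mul_nonneg (hu0 y) (et_nonneg hρ x y)

/-- The double counting estimate. -/
theorem double_count (Q : Measure E) [IsFiniteMeasure Q] (x : E) {ρ δ M : ℝ} (hρ : 0 < ρ)
    (hδ : 0 < δ) (hδ1 : δ ≤ 1) (hM : 0 ≤ M)
    (h : ∀ y ∈ Metric.closedBall x (2 * ρ), Q.real (Metric.closedBall y (δ * ρ)) ≤ M) :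
    (δ * ρ) ^ (Module.finrank ℝ E) * Q.real (Metric.closedBall x ρ) ≤
      (2 * ρ) ^ (Module.finrank ℝ E) * M := by
  have hω := om_pos (E := E)
  have hδρ : 0 < δ * ρ := by positivity
  set S : Set (E × E) := {p | p.1 ∈ Metric.closedBall x (2 * ρ) ∧ dist p.2 p.1 ≤ δ * ρ} with hS
  have hSm : MeasurableSet S := by
    apply IsClosed.measurableSet
    apply IsClosed.inter
    · exact Metric.isClosed_closedBall.preimage continuous_fst
    · exact isClosed_le (continuous_snd.dist continuous_fst) continuous_const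
  have h1 : (volume.prod Q) S ≤ volume (Metric.closedBall x (2 * ρ)) * ENNReal.ofReal M := by
    rw [Measure.prod_apply hSm]
    have : ∀ y : E, Q (Prod.mk y ⁻¹' S) ≤
        (Metric.closedBall x (2 * ρ)).indicator (fun _ => ENNReal.ofReal M) y := by
      intro y
      by_cases hy : y ∈ Metric.closedBall x (2 * ρ)
      · rw [indicator_of_mem hy]
        have e1 : Prod.mk y ⁻¹' S ⊆ Metric.closedBall y (δ * ρ) := fun z hz => hz.2
        refine (measure_mono e1).trans ?_
        rw [ENNReal.le_ofReal_iff_toReal_le (measure_ne_top _ _) hM]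
        exact h y hy
      · rw [indicator_of_notMem hy]
        have e1 : Prod.mk y ⁻¹' S = ∅ := by
          ext z
          simp only [hS, mem_preimage, mem_ofPred_eq, mem_empty_iff_false, iff_false, not_and]
          intro h2
          exact absurd h2 hy
        rw [e1]
        simp
    refine (lintegral_mono this).trans ?_
    rw [lintegral_indicator Metric.isClosed_closedBall.measurableSet, setLIntegral_const, mul_comm]
  have h2 : ENNReal.ofReal ((δ * ρ) ^ (Module.finrank ℝ E) * om E) *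
      Q (Metric.closedBall x ρ) ≤ (volume.prod Q) S := by
    rw [Measure.prod_apply_symm hSm]
    have : ∀ z : E, (Metric.closedBall x ρ).indicator
        (fun _ => ENNReal.ofReal ((δ * ρ) ^ (Module.finrank ℝ E) * om E)) z ≤
        volume ((fun y => (y, z)) ⁻¹' S) := by
      intro z
      by_cases hz : z ∈ Metric.closedBall x ρ
      · rw [indicator_of_mem hz, ← vol_ball z hδρ.le]
        unfold Measure.real
        rw [ENNReal.ofReal_toReal (isCompact_closedBall _ _).measure_ne_top]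
        apply measure_mono
        intro y hy
        rw [Metric.mem_closedBall] at hy hz
        refine ⟨?_, ?_⟩
        · rw [Metric.mem_closedBall]
          have := dist_triangle y z x
          have : δ * ρ ≤ ρ := by nlinarith
          linarith
        · rw [dist_comm]
          exact hy
      · rw [indicator_of_notMem hz]
        exact zero_le
    refine le_trans (le_of_eq ?_) (lintegral_mono this)
    rw [lintegral_indicator Metric.isClosed_closedBall.measurableSet, setLIntegral_const]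
  have h3 := h2.trans h1
  have h4 := ENNReal.toReal_mono (ENNReal.mul_ne_top (isCompact_closedBall _ _).measure_ne_top
    ENNReal.ofReal_ne_top) h3
  rw [ENNReal.toReal_mul, ENNReal.toReal_mul, ENNReal.toReal_ofReal (by positivity),
    ENNReal.toReal_ofReal hM] at h4
  have h5 := vol_ball x (r := 2 * ρ) (by positivity)
  unfold Measure.real at h5 ⊢
  rw [h5] at h4
  have h6 : om E * ((δ * ρ) ^ (Module.finrank ℝ E) * (Q (Metric.closedBall x ρ)).toReal) ≤
      om E * ((2 * ρ) ^ (Module.finrank ℝ E) * M) := by linarith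
  exact le_of_mul_le_mul_left h6 hω

/-- Near a density point of `S`, every ball of comparable radius meets `S`. -/
theorem meets_of_density {S : Set E} {x : E} {δ : ℝ} (hδ : 0 < δ) (hδ1 : δ ≤ 1)
    (h : Tendsto (fun r => volume (S ∩ Metric.closedBall x r) / volume (Metric.closedBall x r))
      (𝓝[>] 0) (𝓝 1)) :
    ∀ᶠ ρ in 𝓝[>] (0 : ℝ), ∀ y ∈ Metric.closedBall x (2 * ρ),
      (Metric.closedBall y (δ * ρ) ∩ S).Nonempty := by
  have h3 : Tendsto (fun ρ : ℝ => 3 * ρ) (𝓝[>] 0) (𝓝[>] 0) := by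
    apply tendsto_nhdsWithin_of_tendsto_nhds_of_eventually_within
    · have : Tendsto (fun ρ : ℝ => 3 * ρ) (𝓝 0) (𝓝 (3 * 0)) :=
        (continuous_const.mul continuous_id).tendsto 0
      rw [mul_zero] at this
      exact this.mono_left nhdsWithin_le_nhds
    · filter_upwards [self_mem_nhdsWithin] with ρ hρ
      have : (0 : ℝ) < ρ := hρ
      show (0 : ℝ) < 3 * ρ
      positivity
  have h4 := h.comp h3
  have h5 : ENNReal.ofReal (1 - (δ / 3) ^ (Module.finrank ℝ E)) < 1 := by
    rw [ENNReal.ofReal_lt_one]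
    have : 0 < (δ / 3) ^ (Module.finrank ℝ E) := by positivity
    linarith
  filter_upwards [h4.eventually (lt_mem_nhds h5), self_mem_nhdsWithin] with ρ hρ1 hρ y hy
  have hρ0 : (0 : ℝ) < ρ := hρ
  by_contra hne
  rw [not_nonempty_iff_eq_empty] at hne
  have hsub : Metric.closedBall y (δ * ρ) ⊆ Metric.closedBall x (3 * ρ) := by
    apply Metric.closedBall_subset_closedBall'
    rw [Metric.mem_closedBall] at hy
    nlinarith
  have h6 : S ∩ Metric.closedBall x (3 * ρ) ⊆
      Metric.closedBall x (3 * ρ) \ Metric.closedBall y (δ * ρ) := by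
    intro z hz
    refine ⟨hz.2, fun h7 => ?_⟩
    have : z ∈ Metric.closedBall y (δ * ρ) ∩ S := ⟨h7, hz.1⟩
    rw [hne] at this
    exact this
  have h7 : (volume : Measure E) (S ∩ Metric.closedBall x (3 * ρ)) ≤
      ENNReal.ofReal (((3 * ρ) ^ (Module.finrank ℝ E) - (δ * ρ) ^ (Module.finrank ℝ E)) * om E) := by
    refine (measure_mono h6).trans ?_
    rw [ENNReal.le_ofReal_iff_toReal_le]
    · have h8 := measureReal_sdiff (μ := (volume : Measure E)) hsub
        Metric.isClosed_closedBall.measurableSet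
        (isCompact_closedBall (x := x) (r := 3 * ρ)).measure_ne_top
      rw [vol_ball x (by positivity), vol_ball y (by positivity)] at h8
      unfold Measure.real at h8
      rw [h8]
      linarith
    · exact ((measure_mono Set.sdiff_subset).trans_lt
        (isCompact_closedBall (x := x) (r := 3 * ρ)).measure_lt_top).ne
    · have : (δ * ρ) ^ (Module.finrank ℝ E) ≤ (3 * ρ) ^ (Module.finrank ℝ E) := by
        gcongr
        linarith
      have := om_pos (E := E)
      nlinarith
  have h9 : (volume : Measure E) (Metric.closedBall x (3 * ρ)) =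
      ENNReal.ofReal ((3 * ρ) ^ (Module.finrank ℝ E) * om E) := by
    rw [← vol_ball x (by positivity)]
    unfold Measure.real
    rw [ENNReal.ofReal_toReal (isCompact_closedBall _ _).measure_ne_top]
  simp only [Function.comp] at hρ1
  rw [h9] at hρ1
  have hpos : 0 < (3 * ρ) ^ (Module.finrank ℝ E) * om E := by
    have := om_pos (E := E)
    positivity
  have h10 : (volume : Measure E) (S ∩ Metric.closedBall x (3 * ρ)) /
      ENNReal.ofReal ((3 * ρ) ^ (Module.finrank ℝ E) * om E) ≤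
      ENNReal.ofReal (1 - (δ / 3) ^ (Module.finrank ℝ E)) := by
    rw [ENNReal.div_le_iff (by simpa using hpos) ENNReal.ofReal_ne_top]
    refine h7.trans ?_
    rw [← ENNReal.ofReal_mul]
    · apply ENNReal.ofReal_le_ofReal
      apply le_of_eq
      have : (δ * ρ) ^ (Module.finrank ℝ E) = (δ / 3) ^ (Module.finrank ℝ E) *
          (3 * ρ) ^ (Module.finrank ℝ E) := by
        rw [← mul_pow]
        congr 1
        ring
      rw [this]
      ring
    · have : (δ / 3) ^ (Module.finrank ℝ E) ≤ 1 := pow_le_one₀ (by positivity) (by linarith)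
      linarith
  exact absurd hρ1 (not_lt.2 h10)

/-- **The absolutely continuous part.** -/
theorem core_ac {G : Set E} (hG : IsOpen G) {K : Set E} (hK : IsCompact K) (hKG : K ⊆ G)
    (hKpos : volume K ≠ 0) {u : E → ℝ} (hu : Integrable u) (hu0 : ∀ x, 0 ≤ u x)
    (huK : ∀ x ∈ K, u x = 0) {P N : Measure E} [IsFiniteMeasure P] [IsFiniteMeasure N]
    (hlap : HasLap G u P N) (hNK : N K = 0) {c : ℝ} (hc : 0 < c)
    (hPK : ∀ A, MeasurableSet A → A ⊆ K → ENNReal.ofReal c * volume A ≤ P A) : False := by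
  have hω := om_pos (E := E)
  have hb := b0_pos
  have := mu_finite hu
  obtain ⟨n, hn⟩ : ∃ n, n = Module.finrank ℝ E := ⟨_, rfl⟩
  obtain ⟨S, hS0, hS⟩ := av_upper hu hu0
  -- vanishing of the densities on K
  have hzero : ∀ Q : Measure E, IsFiniteMeasure Q → Q K = 0 →
      ∀ᵐ x, x ∈ K → Q.rnDeriv volume x = 0 := by
    intro Q hQ hQK
    have h1 : ∫⁻ x in K, Q.rnDeriv volume x ≤ Q K := Measure.setLIntegral_rnDeriv_le K
    rw [hQK] at h1
    have h2 : ∫⁻ x in K, Q.rnDeriv volume x = 0 := le_antisymm h1 zero_le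
    rw [lintegral_eq_zero_iff (Measure.measurable_rnDeriv _ _)] at h2
    exact (ae_restrict_iff' hK.measurableSet).1 h2
  have hmuK : (mu u) K = 0 := by
    unfold mu
    rw [withDensity_apply _ hK.measurableSet]
    have : ∫⁻ a in K, ENNReal.ofReal (u a) = ∫⁻ a in K, 0 := by
      apply setLIntegral_congr_fun hK.measurableSet
      intro x hx
      simp [huK x hx]
    rw [this]
    simp
  -- the exceptional sets
  obtain ⟨Ek, hEk⟩ : ∃ Ek : ℕ → Set E, Ek = fun (k : ℕ) => {x | x ∈ K ∧ ∀ r : ℝ, 0 < r →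
      r ≤ 1 / ((k : ℝ) + 1) →
      (mu u).real (Metric.closedBall x r) ≤ ((k : ℝ) + 1) * r ^ (n + 2)} := ⟨_, rfl⟩
  have ae1 : ∀ᵐ x : E, ∀ k, x ∈ Ek k →
      Tendsto (fun r => volume (Ek k ∩ Metric.closedBall x r) / volume (Metric.closedBall x r))
        (𝓝[>] 0) (𝓝 1) := by
    rw [ae_all_iff]
    intro k
    have h1 := Besicovitch.ae_tendsto_measure_inter_div (volume : Measure E) (Ek k)
    exact ae_imp_of_ae_restrict h1
  have ae2 := Besicovitch.ae_tendsto_rnDeriv P (volume : Measure E)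
  have ae3 := Besicovitch.ae_tendsto_rnDeriv N (volume : Measure E)
  have ae4 := Besicovitch.ae_tendsto_rnDeriv (mu u) (volume : Measure E)
  have ae5 := Besicovitch.ae_tendsto_measure_inter_div_of_measurableSet (volume : Measure E)
    hK.measurableSet
  have ae6 := hzero N inferInstance hNK
  have ae7 := hzero (mu u) inferInstance hmuK
  have ae8 := Measure.rnDeriv_lt_top P (volume : Measure E)
  obtain ⟨x, hxK, hx1, hx2, hx3, hx4, hx5, hx6, hx7, hx8⟩ : ∃ x ∈ K,
      (∀ k, x ∈ Ek k →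
      Tendsto (fun r => volume (Ek k ∩ Metric.closedBall x r) / volume (Metric.closedBall x r))
        (𝓝[>] 0) (𝓝 1)) ∧
      Tendsto (fun r => P (Metric.closedBall x r) / volume (Metric.closedBall x r)) (𝓝[>] 0)
        (𝓝 (P.rnDeriv volume x)) ∧
      Tendsto (fun r => N (Metric.closedBall x r) / volume (Metric.closedBall x r)) (𝓝[>] 0)
        (𝓝 (N.rnDeriv volume x)) ∧
      Tendsto (fun r => (mu u) (Metric.closedBall x r) / volume (Metric.closedBall x r)) (𝓝[>] 0)
        (𝓝 ((mu u).rnDeriv volume x)) ∧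
      Tendsto (fun r => volume (K ∩ Metric.closedBall x r) / volume (Metric.closedBall x r))
        (𝓝[>] 0) (𝓝 (K.indicator 1 x)) ∧
      (x ∈ K → N.rnDeriv volume x = 0) ∧ (x ∈ K → (mu u).rnDeriv volume x = 0) ∧
      P.rnDeriv volume x < ∞ := by
    by_contra hcon
    apply hKpos
    have hall := ae1.and (ae2.and (ae3.and (ae4.and (ae5.and (ae6.and (ae7.and ae8))))))
    rw [Filter.Eventually, mem_ae_iff] at hall
    refine measure_mono_null ?_ hall
    intro y hy hy2
    exact hcon ⟨y, hy, hy2⟩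
  -- ratios
  rw [hx6 hxK] at hx3
  rw [hx7 hxK] at hx4
  rw [indicator_of_mem hxK] at hx5
  have rP := tendsto_ratio (hx8.ne) hx2
  have rN := tendsto_ratio ENNReal.zero_ne_top hx3
  have rU := tendsto_ratio ENNReal.zero_ne_top hx4
  simp only [ENNReal.toReal_zero, mul_zero] at rN rU
  rw [← hn] at rP rN rU
  -- lower bound for P
  have lowP : ∀ᶠ r in 𝓝[>] (0 : ℝ), c * om E / 2 ≤ (r ^ n)⁻¹ * P.real (Metric.closedBall x r) := by
    have h1 : (1 / 2 : ℝ≥0∞) < (1 : E → ℝ≥0∞) x := by
      simp only [Pi.one_apply, one_div]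
      exact ENNReal.inv_lt_one.2 (by norm_num)
    filter_upwards [hx5.eventually (lt_mem_nhds h1), self_mem_nhdsWithin] with r hr hr0
    have hr0' : (0 : ℝ) < r := hr0
    have hvol := vol_ball x hr0'.le
    have hvol0 : (volume : Measure E) (Metric.closedBall x r) ≠ 0 :=
      (Metric.measure_closedBall_pos volume x hr0').ne'
    have hvolt : (volume : Measure E) (Metric.closedBall x r) ≠ ∞ :=
      (isCompact_closedBall x r).measure_ne_top
    have h2 : 1 / 2 * volume (Metric.closedBall x r) ≤ volume (K ∩ Metric.closedBall x r) := by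
      rw [ENNReal.lt_div_iff_mul_lt (Or.inl hvol0) (Or.inl hvolt)] at hr
      exact hr.le
    have h3 : ENNReal.ofReal c * (1 / 2 * volume (Metric.closedBall x r)) ≤
        P (Metric.closedBall x r) :=
      calc ENNReal.ofReal c * (1 / 2 * volume (Metric.closedBall x r))
          ≤ ENNReal.ofReal c * volume (K ∩ Metric.closedBall x r) := by gcongr
        _ ≤ P (K ∩ Metric.closedBall x r) :=
            hPK _ (hK.measurableSet.inter Metric.isClosed_closedBall.measurableSet) inter_subset_left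
        _ ≤ P (Metric.closedBall x r) := measure_mono inter_subset_right
    have h4 := ENNReal.toReal_mono (measure_ne_top P _) h3
    rw [ENNReal.toReal_mul, ENNReal.toReal_mul, ENNReal.toReal_ofReal hc.le] at h4
    simp only [one_div, ENNReal.toReal_inv, ENNReal.toReal_ofNat] at h4
    unfold Measure.real at hvol ⊢
    rw [hvol, ← hn] at h4
    rw [le_inv_mul_iff₀ (by positivity)]
    calc r ^ n * (c * om E / 2) = c * (2⁻¹ * (r ^ n * om E)) := by ring
      _ ≤ _ := h4
  -- constants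
  obtain ⟨c₁, hc₁⟩ : ∃ c₁, c₁ = ((2 : ℝ) ^ n)⁻¹ * b0 * (c * om E / 2) / 2 := ⟨_, rfl⟩
  have hc₁pos : 0 < c₁ := by rw [hc₁]; positivity
  obtain ⟨C, hC⟩ : ∃ C, C = om E * (P.rnDeriv volume x).toReal + 1 := ⟨_, rfl⟩
  have hhalf : Tendsto (fun r : ℝ => r / 2) (𝓝[>] 0) (𝓝[>] 0) := by
    apply tendsto_nhdsWithin_of_tendsto_nhds_of_eventually_within
    · have : Tendsto (fun ρ : ℝ => ρ / 2) (𝓝 0) (𝓝 (0 / 2)) :=
        (continuous_id.div_const _).tendsto 0
      rw [zero_div] at this
      exact this.mono_left nhdsWithin_le_nhds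
    · filter_upwards [self_mem_nhdsWithin] with ρ hρ
      have : (0 : ℝ) < ρ := hρ
      show (0 : ℝ) < ρ / 2
      positivity
  have evall : ∀ᶠ r in 𝓝[>] (0 : ℝ), Metric.closedBall x r ⊆ G ∧
      (r ^ n)⁻¹ * P.real (Metric.closedBall x r) ≤ C ∧
      c₁ ≤ (r ^ n)⁻¹ * b0 * P.real (Metric.closedBall x (r / 2)) -
        (r ^ n)⁻¹ * N.real (Metric.closedBall x r) := by
    have e1 : ∀ᶠ r in 𝓝[>] (0 : ℝ), Metric.closedBall x r ⊆ G := by
      obtain ⟨r₀, hr₀, hr₀G⟩ := Metric.nhds_basis_closedBall.mem_iff.1 (hG.mem_nhds (hKG hxK))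
      filter_upwards [Ioc_mem_nhdsGT hr₀] with r hr
      exact (Metric.closedBall_subset_closedBall hr.2).trans hr₀G
    have e2 := rP.eventually (gt_mem_nhds (show om E * (P.rnDeriv volume x).toReal < C by
      rw [hC]; linarith))
    have e3 := rN.eventually (gt_mem_nhds hc₁pos)
    have e4 := hhalf.eventually lowP
    filter_upwards [e1, e2, e3, e4, self_mem_nhdsWithin] with r h1 h2 h3 h4 h5
    have hr0 : (0 : ℝ) < r := h5
    refine ⟨h1, h2.le, ?_⟩
    have h6 : ((2 : ℝ) ^ n)⁻¹ * b0 * (c * om E / 2) ≤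
        (r ^ n)⁻¹ * b0 * P.real (Metric.closedBall x (r / 2)) := by
      have h7 : (r ^ n)⁻¹ * b0 * P.real (Metric.closedBall x (r / 2)) =
          ((2 : ℝ) ^ n)⁻¹ * b0 * (((r / 2) ^ n)⁻¹ * P.real (Metric.closedBall x (r / 2))) := by
        rw [div_pow]
        field_simp
      rw [h7]
      exact mul_le_mul_of_nonneg_left h4 (by positivity)
    rw [hc₁] at h3 ⊢
    linarith
  obtain ⟨ρ₀, hρ₀, hρ₀'⟩ := mem_nhdsGT_iff_exists_Ioc_subset.1 evall
  have hρ₀pos : (0 : ℝ) < ρ₀ := hρ₀
  have hgood : ∀ r, 0 < r → r ≤ ρ₀ → Metric.closedBall x r ⊆ G ∧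
      (r ^ n)⁻¹ * P.real (Metric.closedBall x r) ≤ C ∧
      c₁ ≤ (r ^ n)⁻¹ * b0 * P.real (Metric.closedBall x (r / 2)) -
        (r ^ n)⁻¹ * N.real (Metric.closedBall x r) := fun r h1 h2 => hρ₀' ⟨h1, h2⟩
  -- the average tends to zero
  have hav0 : Tendsto (av u x) (𝓝[>] 0) (𝓝 0) := by
    have h1 := rU.const_mul S
    rw [mul_zero] at h1
    refine tendsto_of_tendsto_of_tendsto_of_le_of_le' tendsto_const_nhds h1 ?_ ?_
    · filter_upwards [self_mem_nhdsWithin] with r hr
      exact integral_nonneg fun y => mul_nonneg (hu0 y) (et_nonneg hr x y)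
    · filter_upwards [self_mem_nhdsWithin] with r hr
      have := hS x r hr
      rw [← hn] at this
      exact this
  -- growth
  have hlow : ∀ r, 0 < r → r ≤ ρ₀ → c₁ / (2 * S) * r ^ (n + 2) ≤
      (mu u).real (Metric.closedBall x r) := by
    intro r hr hrρ
    have h1 := lower_growth hu hu0 hlap (x := x) (ρ₀ := ρ₀) (c := c₁)
      (fun ρ h1 h2 => (hgood ρ h1 h2).1) (fun ρ h1 h2 => by
        have := (hgood ρ h1 h2).2.2
        rwa [hn] at this) hr hrρ
    have h2 := hS x r hr
    rw [← hn] at h2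
    have h3 : c₁ * r ^ 2 / 2 ≤ S * ((r ^ n)⁻¹ * (mu u).real (Metric.closedBall x r)) := h1.trans h2
    have h4 : 0 < r ^ n := by positivity
    have h5 : c₁ * r ^ 2 / 2 * r ^ n ≤ S * (mu u).real (Metric.closedBall x r) := by
      have := mul_le_mul_of_nonneg_right h3 h4.le
      calc c₁ * r ^ 2 / 2 * r ^ n ≤ S * ((r ^ n)⁻¹ * (mu u).real (Metric.closedBall x r)) * r ^ n :=
            this
        _ = S * (mu u).real (Metric.closedBall x r) := by field_simp
    rw [div_mul_eq_mul_div, div_le_iff₀ (by positivity)]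
    rw [pow_add]
    linarith
  have hupp : ∀ r, 0 < r → r ≤ ρ₀ / 2 →
      (mu u).real (Metric.closedBall x r) ≤ (2 ^ n * C / b0) * r ^ (n + 2) := by
    intro r hr hrρ
    have h1 := upper_growth hu hlap (x := x) (ρ₀ := ρ₀) (C := C)
      (fun ρ h1 h2 => (hgood ρ h1 h2).1) (fun ρ h1 h2 => by
        have := (hgood ρ h1 h2).2.1
        rwa [hn] at this) hav0 (ρ := 2 * r) (by positivity) (by linarith)
    have h2 := av_lower hu hu0 x (ρ := 2 * r) (by positivity)
    rw [← hn, show 2 * r / 2 = r by ring] at h2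
    have h3 := h2.trans h1
    have h4 : 0 < (2 * r) ^ n := by positivity
    have h5 := mul_le_mul_of_nonneg_right h3 h4.le
    have h6 : 2 * b0 * (((2 * r) ^ n)⁻¹ * (mu u).real (Metric.closedBall x r)) * (2 * r) ^ n =
        2 * b0 * (mu u).real (Metric.closedBall x r) := by
      field_simp
    rw [h6] at h5
    rw [div_mul_eq_mul_div, le_div_iff₀ hb]
    have h7 : C * (2 * r) ^ 2 / 2 * (2 * r) ^ n = 2 * (2 ^ n * C * r ^ (n + 2)) := by
      rw [mul_pow 2 r n, pow_add]
      ring
    rw [h7] at h5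
    linarith
  -- x belongs to some Ek
  obtain ⟨k, hk⟩ : ∃ k : ℕ, x ∈ Ek k := by
    obtain ⟨k, hk⟩ := exists_nat_ge (max (2 ^ n * C / b0) (2 / ρ₀))
    refine ⟨k, ?_⟩
    rw [hEk]
    refine ⟨hxK, fun r hr hrk => ?_⟩
    have h1 : 2 / ρ₀ ≤ k + 1 := by linarith [(le_max_right _ _).trans hk]
    have h2 : r ≤ ρ₀ / 2 := by
      refine hrk.trans ?_
      rw [div_le_div_iff₀ (by positivity) (by norm_num)]
      rw [div_le_iff₀ hρ₀pos] at h1
      linarith
    refine (hupp r hr h2).trans ?_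
    have h3 : 2 ^ n * C / b0 ≤ k + 1 := by linarith [(le_max_left _ _).trans hk]
    gcongr
  -- choice of δ
  obtain ⟨δ, hδ, hδ1, hδ2⟩ : ∃ δ : ℝ, 0 < δ ∧ δ ≤ 1 ∧
      2 ^ n * ((k + 1) * 2 ^ (n + 2)) * δ ^ 2 < c₁ / (2 * S) := by
    have hA : 0 < (2 : ℝ) ^ n * ((k + 1) * 2 ^ (n + 2)) := by positivity
    have hcS : 0 < c₁ / (2 * S) := by positivity
    have hlim : Tendsto (fun δ : ℝ => (2 : ℝ) ^ n * ((k + 1) * 2 ^ (n + 2)) * δ ^ 2) (𝓝[>] 0)
        (𝓝 ((2 : ℝ) ^ n * ((k + 1) * 2 ^ (n + 2)) * 0 ^ 2)) := by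
      have : Tendsto (fun δ : ℝ => (2 : ℝ) ^ n * ((k + 1) * 2 ^ (n + 2)) * δ ^ 2) (𝓝 0)
        (𝓝 ((2 : ℝ) ^ n * ((k + 1) * 2 ^ (n + 2)) * 0 ^ 2)) := by
        apply Continuous.tendsto
        fun_prop
      exact this.mono_left nhdsWithin_le_nhds
    simp only [ne_eq, OfNat.ofNat_ne_zero, not_false_eq_true, zero_pow, mul_zero] at hlim
    obtain ⟨δ, h1, h2⟩ := ((hlim.eventually (gt_mem_nhds hcS)).and
      (Ioc_mem_nhdsGT (zero_lt_one (α := ℝ)))).exists
    exact ⟨δ, h2.1, h2.2, h1⟩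
  -- conclusion
  have hmeet := meets_of_density hδ hδ1 (hx1 k hk)
  have hρsmall : ∀ᶠ ρ in 𝓝[>] (0 : ℝ), ρ ≤ ρ₀ ∧ 2 * (δ * ρ) ≤ 1 / (k + 1) ∧ 0 < ρ := by
    have h1 : 0 < min ρ₀ (1 / (2 * (k + 1) : ℝ)) := by positivity
    filter_upwards [Ioc_mem_nhdsGT h1] with ρ hρ
    refine ⟨hρ.2.trans (min_le_left _ _), ?_, hρ.1⟩
    have h2 : ρ ≤ 1 / (2 * (k + 1) : ℝ) := hρ.2.trans (min_le_right _ _)
    have h3 : 2 * (δ * ρ) ≤ 2 * ρ := by
      have := hρ.1
      nlinarith
    refine h3.trans ?_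
    calc 2 * ρ ≤ 2 * (1 / (2 * (k + 1) : ℝ)) := by linarith
      _ = 1 / (k + 1) := by field_simp
  obtain ⟨ρ, hρm, hρ1, hρ2, hρ3⟩ := (hmeet.and hρsmall).exists
  have hδρ : 0 < δ * ρ := by positivity
  have hbound : ∀ y ∈ Metric.closedBall x (2 * ρ),
      (mu u).real (Metric.closedBall y (δ * ρ)) ≤ (k + 1) * (2 * (δ * ρ)) ^ (n + 2) := by
    intro y hy
    obtain ⟨y', hy'1, hy'2⟩ := hρm y hy
    rw [hEk] at hy'2
    have h1 := hy'2.2 (2 * (δ * ρ)) (by positivity) hρ2
    refine le_trans (measureReal_mono ?_) h1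
    apply Metric.closedBall_subset_closedBall'
    rw [Metric.mem_closedBall, dist_comm] at hy'1
    linarith
  have hdc := double_count (mu u) x hρ3 hδ hδ1 (by positivity) hbound
  rw [← hn] at hdc
  have hl := hlow ρ hρ3 hρ1
  have h1 : (δ * ρ) ^ n * (c₁ / (2 * S) * ρ ^ (n + 2)) ≤
      (2 * ρ) ^ n * ((k + 1) * (2 * (δ * ρ)) ^ (n + 2)) :=
    (mul_le_mul_of_nonneg_left hl (by positivity)).trans hdc
  have h2 : (2 * ρ) ^ n * ((k + 1) * (2 * (δ * ρ)) ^ (n + 2)) =
      (2 ^ n * ((k + 1) * 2 ^ (n + 2)) * δ ^ 2) * ((δ * ρ) ^ n * ρ ^ (n + 2)) := by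
    simp only [mul_pow, pow_add]
    ring
  rw [h2] at h1
  have h3 : 0 < (δ * ρ) ^ n * ρ ^ (n + 2) := by positivity
  have h4 : (c₁ / (2 * S)) * ((δ * ρ) ^ n * ρ ^ (n + 2)) ≤
      (2 ^ n * ((k + 1) * 2 ^ (n + 2)) * δ ^ 2) * ((δ * ρ) ^ n * ρ ^ (n + 2)) := by
    linarith
  have h5 := le_of_mul_le_mul_right h4 h3
  linarith

end Pool.Agent.helper26.Env
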