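import Mathlib

/-!
# Test functions, second differences, continuity of translations in L¹
-/

set_option autoImplicit false

namespace Pool.Agent.helper26.Env

open MeasureTheory Filter Topology Set InnerProductSpace
open scoped ContDiff

variable {E : Type*} [NormedAddCommGroup E] [InnerProductSpace ℝ E] [FiniteDimensional ℝ E]
  [MeasurableSpace E] [BorelSpace E]

/-- Continuity of translations in `L¹`. -/
theorem tendsto_translate (f : E → ℝ) (hf : Integrable f) :
    Tendsto (fun h : E => ∫ x, |f (x + h) - f x|) (𝓝 0) (𝓝 0) := by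
  have hmp : ∀ h : E, MeasurePreserving (fun x : E => x + h) volume volume :=
    fun h => measurePreserving_add_right volume h
  let g : E → C(E, E) := fun h => ⟨fun x => x + h, by fun_prop⟩
  have hg : Continuous g := by
    have h1 : Continuous (ContinuousMap.mk (fun p : E × E => p.2 + p.1) (by fun_prop)).curry :=
      ContinuousMap.continuous _
    exact h1
  have h2 : Continuous (fun h : E => Lp.compMeasurePreserving (g h) (hmp h) (hf.toL1 f)) :=
    Continuous.compMeasurePreservingLp (continuous_const) hg hmp (by simp)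
  have h3 : Continuous (fun h : E => ‖Lp.compMeasurePreserving (g h) (hmp h) (hf.toL1 f) -
      hf.toL1 f‖) := (h2.sub continuous_const).norm
  have h4 : ∀ h : E, ‖Lp.compMeasurePreserving (g h) (hmp h) (hf.toL1 f) - hf.toL1 f‖ =
      ∫ x, |f (x + h) - f x| := by
    intro h
    rw [L1.norm_eq_integral_norm]
    apply integral_congr_ae
    have e1 := Lp.coeFn_sub (Lp.compMeasurePreserving (g h) (hmp h) (hf.toL1 f)) (hf.toL1 f)
    have e2 := Lp.coeFn_compMeasurePreserving (hf.toL1 f) (hmp h)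
    have e3 := Integrable.coeFn_toL1 hf
    have e4 : (fun x => (hf.toL1 f : E → ℝ) (x + h)) =ᵐ[volume] fun x => f (x + h) :=
      (hmp h).quasiMeasurePreserving.ae_eq_comp e3
    filter_upwards [e1, e2, e3, e4] with x h1 h2 h3 h4
    rw [h1, Pi.sub_apply]
    have h5 : (Lp.compMeasurePreserving (g h) (hmp h) (hf.toL1 f) : E → ℝ) x = f (x + h) := by
      rw [← h4]
      exact h2
    rw [h5, h3, Real.norm_eq_abs]
  have h5 := h3.tendsto 0
  simp only [h4] at h5
  simpa using h5

/-- Symmetric second difference. -/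
def sd (f : E → ℝ) (v x : E) : ℝ := f (x + v) + f (x - v) - 2 * f x

/-- Discrete Laplacian. -/
noncomputable def dlap (t : ℝ) (f : E → ℝ) (x : E) : ℝ :=
  ∑ i, sd f (t • stdOrthonormalBasis ℝ E i) x

/-- The Laplacian as a sum of second derivatives. -/
theorem lap_eq (f : E → ℝ) (x : E) : Laplacian.laplacian f x =
    ∑ i, fderiv ℝ (fderiv ℝ f) x (stdOrthonormalBasis ℝ E i) (stdOrthonormalBasis ℝ E i) := by
  rw [laplacian_eq_iteratedFDeriv_stdOrthonormalBasis]
  simp only [iteratedFDeriv_two_apply]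
  rfl

theorem uc_of_compact {F : Type*} [NormedAddCommGroup F] {f : E → F} (hf : Continuous f)
    (hc : HasCompactSupport f) : UniformContinuous f :=
  hf.uniformContinuous_of_tendsto_cocompact (x := 0) (by
    simpa using hc.is_zero_at_infty)

/-- Second order Taylor estimate, in one direction. -/
theorem sd_estimate {f : E → ℝ} (hf : ContDiff ℝ 2 f) (x e : E) {t w : ℝ} (ht : 0 ≤ t)
    (hw : ∀ s ∈ Icc (-t) t,
      |fderiv ℝ (fderiv ℝ f) (x + s • e) e e - fderiv ℝ (fderiv ℝ f) x e e| ≤ w) :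
    |sd f (t • e) x - t ^ 2 * fderiv ℝ (fderiv ℝ f) x e e| ≤ 2 * w * t ^ 2 := by
  have hd1 : Differentiable ℝ f := hf.differentiable (by norm_num)
  have hd2 : Differentiable ℝ (fderiv ℝ f) := (hf.fderiv_right (m := 1) (by norm_num)).differentiable (by norm_num)
  have hw0 : 0 ≤ w := (abs_nonneg _).trans (hw 0 ⟨by linarith, ht⟩)
  have hline : ∀ s : ℝ, HasDerivAt (fun s : ℝ => x + s • e) e s := by
    intro s
    simpa using ((hasDerivAt_id s).smul_const e).const_add x
  have hf1 : ∀ s : ℝ, HasDerivAt (fun s : ℝ => f (x + s • e)) (fderiv ℝ f (x + s • e) e) s := by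
    intro s
    exact (hd1 (x + s • e)).hasFDerivAt.comp_hasDerivAt s (hline s)
  have hf2 : ∀ s : ℝ, HasDerivAt (fun s : ℝ => fderiv ℝ f (x + s • e) e)
      (fderiv ℝ (fderiv ℝ f) (x + s • e) e e) s := by
    intro s
    have h1 : HasDerivAt (fun s : ℝ => fderiv ℝ f (x + s • e))
      (fderiv ℝ (fderiv ℝ f) (x + s • e) e) s :=
      (hd2 (x + s • e)).hasFDerivAt.comp_hasDerivAt s (hline s)
    exact h1.clm_apply (hasDerivAt_const s e) |>.congr_deriv (by simp)
  set D := fderiv ℝ (fderiv ℝ f) x e e with hD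
  -- first derivative of the error
  have hG : ∀ s : ℝ, HasDerivAt (fun s : ℝ => f (x + s • e) + f (x - s • e) - 2 * f x - s ^ 2 * D)
      (fderiv ℝ f (x + s • e) e - fderiv ℝ f (x + (-s) • e) e - 2 * s * D) s := by
    intro s
    have h1 := hf1 s
    have h2 : HasDerivAt (fun s : ℝ => f (x - s • e)) (-(fderiv ℝ f (x + (-s) • e) e)) s := by
      have h3 := (hf1 (-s)).scomp s (hasDerivAt_neg s)
      simp only [Function.comp_def, neg_smul, ← sub_eq_add_neg] at h3
      refine h3.congr_deriv ?_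
      simp [sub_eq_add_neg]
    have h4 : HasDerivAt (fun s : ℝ => s ^ 2 * D) (2 * s * D) s := by
      simpa using (hasDerivAt_pow 2 s).mul_const D
    refine (((h1.add h2).sub_const (2 * f x)).sub h4).congr_deriv ?_
    ring
  have hG' : ∀ s : ℝ, HasDerivAt (fun s : ℝ => fderiv ℝ f (x + s • e) e -
      fderiv ℝ f (x + (-s) • e) e - 2 * s * D)
      (fderiv ℝ (fderiv ℝ f) (x + s • e) e e + fderiv ℝ (fderiv ℝ f) (x + (-s) • e) e e - 2 * D) s := by
    intro s
    have h1 := hf2 s
    have h2 : HasDerivAt (fun s : ℝ => fderiv ℝ f (x + (-s) • e) e)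
        (-(fderiv ℝ (fderiv ℝ f) (x + (-s) • e) e e)) s := by
      have h3 := (hf2 (-s)).scomp s (hasDerivAt_neg s)
      simp only [Function.comp_def] at h3
      refine h3.congr_deriv ?_
      simp
    have h4 : HasDerivAt (fun s : ℝ => 2 * s * D) (2 * D) s := by
      simpa using ((hasDerivAt_id s).const_mul 2).mul_const D
    refine ((h1.sub h2).sub h4).congr_deriv ?_
    ring
  -- bound on the first derivative
  have hb1 : ∀ s ∈ Icc (0 : ℝ) t, |fderiv ℝ f (x + s • e) e -
      fderiv ℝ f (x + (-s) • e) e - 2 * s * D| ≤ 2 * w * t := by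
    intro s hs
    have h1 := norm_image_sub_le_of_norm_deriv_le_segment' (a := 0) (b := t) (C := 2 * w)
      (f := fun s : ℝ => fderiv ℝ f (x + s • e) e - fderiv ℝ f (x + (-s) • e) e - 2 * s * D)
      (fun s _ => (hG' s).hasDerivWithinAt) (by
        intro s hs
        rw [Real.norm_eq_abs]
        have h2 := hw s ⟨by linarith [hs.1], hs.2.le⟩
        have h3 := hw (-s) ⟨by linarith [hs.2], by linarith [hs.1]⟩
        have h4 : fderiv ℝ (fderiv ℝ f) (x + s • e) e e + fderiv ℝ (fderiv ℝ f) (x + (-s) • e) e e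
          - 2 * D = (fderiv ℝ (fderiv ℝ f) (x + s • e) e e - D) +
            (fderiv ℝ (fderiv ℝ f) (x + (-s) • e) e e - D) := by ring
        rw [h4]
        exact (abs_add_le _ _).trans (by linarith)) s hs
    simp only [zero_smul, neg_zero, add_zero, mul_zero, zero_mul, sub_self, sub_zero] at h1
    rw [Real.norm_eq_abs] at h1
    refine h1.trans ?_
    have := hs.2
    have : 2 * w * s ≤ 2 * w * t := by gcongr
    exact this
  have h1 := norm_image_sub_le_of_norm_deriv_le_segment' (a := 0) (b := t) (C := 2 * w * t)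
      (f := fun s : ℝ => f (x + s • e) + f (x - s • e) - 2 * f x - s ^ 2 * D)
      (fun s _ => (hG s).hasDerivWithinAt) (by
        intro s hs
        rw [Real.norm_eq_abs]
        exact hb1 s ⟨hs.1, hs.2.le⟩) t ⟨ht, le_rfl⟩
  simp only [zero_smul, add_zero, sub_zero, ne_eq, OfNat.ofNat_ne_zero, not_false_eq_true, zero_pow,
    zero_mul] at h1
  rw [Real.norm_eq_abs] at h1
  have h2 : f x + f x - 2 * f x = 0 := by ring
  rw [h2, sub_zero] at h1
  unfold sd
  refine h1.trans (le_of_eq ?_)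
  ring

/-- Second order Taylor estimate, uniform in the point. -/
theorem sd_uniform {f : E → ℝ} (hf : ContDiff ℝ 2 f) (hc : HasCompactSupport f) (e : E) {ε : ℝ}
    (hε : 0 < ε) : ∀ᶠ t in 𝓝[>] (0 : ℝ), ∀ x : E,
      |sd f (t • e) x - t ^ 2 * fderiv ℝ (fderiv ℝ f) x e e| ≤ ε * t ^ 2 := by
  have hcont : Continuous (fun x => fderiv ℝ (fderiv ℝ f) x e e) := by
    have h1 : Continuous (fderiv ℝ (fderiv ℝ f)) :=
      ((hf.fderiv_right (m := 1) (by norm_num)).continuous_fderiv (by norm_num))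
    exact (h1.clm_apply continuous_const).clm_apply continuous_const
  have hc2 : HasCompactSupport (fun x => fderiv ℝ (fderiv ℝ f) x e e) :=
    ((hc.fderiv ℝ).fderiv ℝ).comp_left (g := fun T : E →L[ℝ] E →L[ℝ] ℝ => T e e) rfl
  have huc : UniformContinuous (fun x => fderiv ℝ (fderiv ℝ f) x e e) :=
    uc_of_compact hcont hc2
  obtain ⟨δ, hδ, hδ2⟩ := Metric.uniformContinuous_iff.1 huc (ε / 2) (by positivity)
  have h1 : ∀ᶠ t in 𝓝[>] (0 : ℝ), t * (‖e‖ + 1) < δ := by
    have h2 : Tendsto (fun t : ℝ => t * (‖e‖ + 1)) (𝓝[>] 0) (𝓝 0) := by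
      have h3 : Tendsto (fun t : ℝ => t * (‖e‖ + 1)) (𝓝 0) (𝓝 (0 * (‖e‖ + 1))) :=
        (continuous_id.mul continuous_const).tendsto 0
      rw [zero_mul] at h3
      exact h3.mono_left nhdsWithin_le_nhds
    exact h2.eventually (gt_mem_nhds hδ)
  filter_upwards [h1, self_mem_nhdsWithin] with t ht1 ht0 x
  have ht0' : (0 : ℝ) < t := ht0
  have h2 := sd_estimate hf x e (t := t) (w := ε / 2) ht0'.le (by
    intro s hs
    have hd : dist (x + s • e) x < δ := by
      rw [dist_eq_norm, add_sub_cancel_left, norm_smul, Real.norm_eq_abs]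
      have h3 : |s| ≤ t := abs_le.2 hs
      have h4 : |s| * ‖e‖ ≤ t * (‖e‖ + 1) := by
        have := norm_nonneg e
        nlinarith [abs_nonneg s]
      linarith
    have h5 := (hδ2 hd).le
    rwa [Real.dist_eq] at h5)
  refine h2.trans (le_of_eq ?_)
  ring

/-- The discrete Laplacian approximates the Laplacian uniformly. -/
theorem dlap_estimate {f : E → ℝ} (hf : ContDiff ℝ 2 f) (hc : HasCompactSupport f) {ε : ℝ}
    (hε : 0 < ε) : ∀ᶠ t in 𝓝[>] (0 : ℝ), ∀ x : E,
      |dlap t f x - t ^ 2 * Laplacian.laplacian f x| ≤ ε * t ^ 2 := by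
  obtain ⟨N, hN⟩ : ∃ N : ℝ, N = (Module.finrank ℝ E : ℝ) := ⟨_, rfl⟩
  have hN0 : 0 ≤ N := by rw [hN]; positivity
  have h1 : ∀ᶠ t in 𝓝[>] (0 : ℝ), ∀ i : Fin (Module.finrank ℝ E), ∀ x : E,
      |sd f (t • stdOrthonormalBasis ℝ E i) x - t ^ 2 *
        fderiv ℝ (fderiv ℝ f) x (stdOrthonormalBasis ℝ E i) (stdOrthonormalBasis ℝ E i)| ≤
      (ε / (N + 1)) * t ^ 2 :=
    eventually_all.2 fun i => sd_uniform hf hc _ (by positivity)
  filter_upwards [h1] with t ht x
  rw [lap_eq, dlap, Finset.mul_sum, ← Finset.sum_sub_distrib]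
  refine (Finset.abs_sum_le_sum_abs _ _).trans ?_
  refine (Finset.sum_le_sum fun i _ => ht i x).trans ?_
  rw [Finset.sum_const, Finset.card_univ, Fintype.card_fin, nsmul_eq_mul, ← hN]
  have h2 : N * (ε / (N + 1) * t ^ 2) = ε * t ^ 2 * (N / (N + 1)) := by
    field_simp
  rw [h2]
  have h3 : N / (N + 1) ≤ 1 := by
    rw [div_le_one (by positivity)]
    linarith
  have h4 : 0 ≤ ε * t ^ 2 := by positivity
  nlinarith

end Pool.Agent.helper26.Env
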