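import Pool.Agent.helper26.Env.Mean2

/-!
# Subharmonic functions in the classical sense
-/

set_option autoImplicit false
set_option linter.unusedSectionVars false

namespace Pool.Agent.helper26.Env

open MeasureTheory Filter Topology Set InnerProductSpace
open scoped ENNReal NNReal RealInnerProductSpace ContDiff

variable {E : Type*} [NormedAddCommGroup E] [InnerProductSpace ℝ E] [FiniteDimensional ℝ E]
  [MeasurableSpace E] [BorelSpace E]

/-- `u : Ω → [-∞, ∞)` is subharmonic and not identically `-∞`: it is upper semicontinuous and at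
every point its value is at most its mean over every closed ball contained in `Ω`.  The mean value
inequality `u x * |B| ≤ ∫_B u` is written as `∫_B (M - u) ≤ (M - u x) * |B|` for all real upper
bounds `M` of `u` on the ball `B`, so that only nonnegative functions are integrated. -/
structure Subharmonic (Ω : Set E) (u : E → EReal) : Prop where
  usc : UpperSemicontinuousOn u Ω
  lt_top : ∀ x ∈ Ω, u x < ⊤
  mean : ∀ x r, 0 < r → Metric.closedBall x r ⊆ Ω → ∀ M : ℝ,
    (∀ y ∈ Metric.closedBall x r, u y ≤ M) →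
    ∫⁻ y in Metric.closedBall x r, ((M : EReal) - u y).toENNReal ≤
      ((M : EReal) - u x).toENNReal * volume (Metric.closedBall x r)
  ne_bot : ∃ x ∈ Ω, u x ≠ ⊥

/-- The set `Z` is polar in `Ω`. -/
def IsPolar (Ω Z : Set E) : Prop := ∃ s : E → EReal, Subharmonic Ω s ∧ ∀ x ∈ Z ∩ Ω, s x = ⊥

/-- `w` is `δ`-subharmonic: it is a difference of two subharmonic functions outside a polar set. -/
def DeltaSubharmonic (Ω : Set E) (w : E → ℝ) : Prop :=
  ∃ u v : E → EReal, Subharmonic Ω u ∧ Subharmonic Ω v ∧ ∃ Z, IsPolar Ω Z ∧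
    ∀ x ∈ Ω \ Z, (w x : EReal) = u x - v x

theorem usc_measurable {Ω : Set E} (hΩ : IsOpen Ω) {u : E → EReal}
    (hu : UpperSemicontinuousOn u Ω) : ∃ g : E → EReal, Measurable g ∧ ∀ x ∈ Ω, g x = u x := by
  classical
  refine ⟨fun x => if x ∈ Ω then u x else ⊤, ?_, fun x hx => by simp [hx]⟩
  refine measurable_of_Iio fun c => ?_
  have h1 : (fun x => if x ∈ Ω then u x else ⊤) ⁻¹' Iio c = {x | x ∈ Ω ∧ u x < c} := by
    ext x
    simp only [mem_preimage, mem_Iio, mem_ofPred_eq]
    constructor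
    · intro h
      by_cases hx : x ∈ Ω
      · rw [if_pos hx] at h
        exact ⟨hx, h⟩
      · rw [if_neg hx] at h
        exact absurd h not_top_lt
    · rintro ⟨hx, h⟩
      rwa [if_pos hx]
  rw [h1]
  have h2 : IsOpen {x | x ∈ Ω ∧ u x < c} := by
    rw [isOpen_iff_mem_nhds]
    rintro x ⟨hx, hxc⟩
    have h3 := hu x hx c hxc
    rw [hΩ.nhdsWithin_eq hx] at h3
    filter_upwards [h3, hΩ.mem_nhds hx] with y hy hyΩ using ⟨hyΩ, hy⟩
  exact h2.measurableSet

theorem Subharmonic.exists_bound {Ω : Set E} {u : E → EReal} (hu : Subharmonic Ω u) {K : Set E}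
    (hK : IsCompact K) (hKΩ : K ⊆ Ω) : ∃ M : ℝ, ∀ y ∈ K, u y ≤ M := by
  rcases K.eq_empty_or_nonempty with rfl | hne
  · exact ⟨0, by simp⟩
  · obtain ⟨a, ha, hmax⟩ := (hu.usc.mono hKΩ).exists_isMaxOn hne hK
    obtain ⟨M, hM⟩ := EReal.lt_iff_exists_real_btwn.1 (hu.lt_top a (hKΩ ha))
    exact ⟨M, fun y hy => (hmax hy).trans hM.1.le⟩

/-- At a point where `u` is finite, `u` is integrable over balls around this point. -/
theorem Subharmonic.integrableOn {Ω : Set E} (hΩ : IsOpen Ω) {u : E → EReal}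
    (hu : Subharmonic Ω u) {x : E} {r : ℝ} (hr : 0 < r) (hball : Metric.closedBall x r ⊆ Ω)
    (hx : u x ≠ ⊥) : (∀ᵐ y, y ∈ Metric.closedBall x r → u y ≠ ⊥) ∧
      IntegrableOn (fun y => (u y).toReal) (Metric.closedBall x r) ∧
      (u x).toReal * volume.real (Metric.closedBall x r) ≤
        ∫ y in Metric.closedBall x r, (u y).toReal := by
  obtain ⟨B, hB⟩ : ∃ B : Set E, B = Metric.closedBall x r := ⟨_, rfl⟩
  have hBc : IsCompact B := by rw [hB]; exact isCompact_closedBall _ _
  have hBm : MeasurableSet B := hBc.measurableSet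
  have hxB : x ∈ B := by rw [hB]; exact Metric.mem_closedBall_self hr.le
  have hBfin : volume B ≠ ⊤ := hBc.measure_ne_top
  rw [← hB] at hball ⊢
  obtain ⟨M, hM⟩ := hu.exists_bound hBc hball
  have hmean := hu.mean x r hr (by rwa [← hB]) M (by rwa [← hB])
  rw [← hB] at hmean
  obtain ⟨g, hgm, hg⟩ := usc_measurable hΩ hu.usc
  -- the nonnegative function
  have hxtop : u x ≠ ⊤ := (hu.lt_top x (hball hxB)).ne
  have hMx : ((M : EReal) - u x).toENNReal = ENNReal.ofReal (M - (u x).toReal) := by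
    conv_lhs => rw [← EReal.coe_toReal hxtop hx]
    rw [← EReal.coe_sub, EReal.toENNReal_of_ne_top (EReal.coe_ne_top _), EReal.toReal_coe]
  rw [hMx] at hmean
  have hlin : ∫⁻ y in B, ((M : EReal) - u y).toENNReal ≤
      ENNReal.ofReal (M - (u x).toReal) * volume B := hmean
  have hfin : ∫⁻ y in B, ((M : EReal) - u y).toENNReal ≠ ⊤ :=
    (hlin.trans_lt (ENNReal.mul_lt_top ENNReal.ofReal_lt_top hBfin.lt_top)).ne
  have hcongr : ∀ y ∈ B, ((M : EReal) - u y).toENNReal = ((M : EReal) - g y).toENNReal := by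
    intro y hy
    rw [hg y (hball hy)]
  have hgmeas : Measurable fun y => ((M : EReal) - g y).toENNReal := by
    fun_prop
  have hlin_eq : ∫⁻ y in B, ((M : EReal) - u y).toENNReal =
      ∫⁻ y in B, ((M : EReal) - g y).toENNReal := setLIntegral_congr_fun hBm hcongr
  rw [hlin_eq] at hfin hlin
  have hae : ∀ᵐ y ∂(volume.restrict B), ((M : EReal) - g y).toENNReal < ⊤ :=
    ae_lt_top hgmeas hfin
  have hne : ∀ᵐ y, y ∈ B → u y ≠ ⊥ := by
    rw [ae_restrict_iff' hBm] at hae
    filter_upwards [hae] with y hy hyB hbot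
    have h1 := hy hyB
    rw [hg y (hball hyB), hbot] at h1
    simp at h1
  have hval : ∀ᵐ y ∂(volume.restrict B), (u y).toReal =
      M - (((M : EReal) - g y).toENNReal).toReal := by
    rw [ae_restrict_iff' hBm]
    filter_upwards [hne] with y hy hyB
    have h1 : u y ≠ ⊤ := (hu.lt_top y (hball hyB)).ne
    have h2 := hM y hyB
    rw [hg y (hball hyB)]
    have h3 : ((M : EReal) - u y) = ((M - (u y).toReal : ℝ) : EReal) := by
      conv_lhs => rw [← EReal.coe_toReal h1 (hy hyB)]
      rw [← EReal.coe_sub]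
    have h4 : (u y).toReal ≤ M := by
      have := EReal.toReal_le_toReal h2 (hy hyB) (EReal.coe_ne_top M)
      simpa using this
    rw [h3, EReal.toENNReal_of_ne_top (EReal.coe_ne_top _), EReal.toReal_coe,
      ENNReal.toReal_ofReal (by linarith)]
    ring
  have hint1 : Integrable (fun y => (((M : EReal) - g y).toENNReal).toReal)
      (volume.restrict B) :=
    integrable_toReal_of_lintegral_ne_top hgmeas.aemeasurable hfin
  have hint : IntegrableOn (fun y => (u y).toReal) B := by
    have h1 : Integrable (fun y => M - (((M : EReal) - g y).toENNReal).toReal)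
      (volume.restrict B) := (integrableOn_const hBfin).sub hint1
    refine h1.congr ?_
    filter_upwards [hval] with y hy using hy.symm
  refine ⟨hne, hint, ?_⟩
  have hconst : Integrable (fun _ : E => M) (volume.restrict B) := integrableOn_const hBfin
  have h1 : ∫ y in B, (u y).toReal =
      volume.real B * M - ∫ y in B, (((M : EReal) - g y).toENNReal).toReal := by
    rw [integral_congr_ae hval, integral_sub hconst hint1, setIntegral_const, smul_eq_mul]
  have h2 : ∫ y in B, (((M : EReal) - g y).toENNReal).toReal ≤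
      (M - (u x).toReal) * volume.real B := by
    rw [integral_toReal hgmeas.aemeasurable hae]
    have h4 : (u x).toReal ≤ M := by
      have := EReal.toReal_le_toReal (hM x hxB) hx (EReal.coe_ne_top M)
      simpa using this
    have h3 := ENNReal.toReal_mono (ENNReal.mul_lt_top ENNReal.ofReal_lt_top hBfin.lt_top).ne hlin
    rw [ENNReal.toReal_mul, ENNReal.toReal_ofReal (by linarith)] at h3
    exact h3
  rw [h1]
  linarith

/-- Local integrability and finiteness almost everywhere. -/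
theorem Subharmonic.locInt {Ω : Set E} (hΩ : IsOpen Ω) (hc : IsPreconnected Ω) {u : E → EReal}
    (hu : Subharmonic Ω u) : LocallyIntegrableOn (fun y => (u y).toReal) Ω ∧
      ∀ᵐ y, y ∈ Ω → u y ≠ ⊥ := by
  obtain ⟨U, hU⟩ : ∃ U : Set E, U = {x | ∃ r > 0, Metric.closedBall x r ⊆ Ω ∧
    (∀ᵐ y, y ∈ Metric.closedBall x r → u y ≠ ⊥) ∧
    IntegrableOn (fun y => (u y).toReal) (Metric.closedBall x r)} := ⟨_, rfl⟩
  -- points near points of finiteness
  have hnear : ∀ x ∈ Ω, (∀ δ > 0, ∃ z, dist z x < δ ∧ u z ≠ ⊥) → x ∈ U := by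
    intro x hx hz
    obtain ⟨r, hr, hball⟩ := Metric.nhds_basis_closedBall.mem_iff.1 (hΩ.mem_nhds hx)
    obtain ⟨z, hzx, hzu⟩ := hz (r / 4) (by positivity)
    have h1 : Metric.closedBall z (r / 2) ⊆ Metric.closedBall x r := by
      apply Metric.closedBall_subset_closedBall'
      linarith
    have h2 : Metric.closedBall x (r / 4) ⊆ Metric.closedBall z (r / 2) := by
      apply Metric.closedBall_subset_closedBall'
      rw [dist_comm]
      linarith
    obtain ⟨f1, f2, -⟩ := hu.integrableOn hΩ (half_pos hr) (h1.trans hball) hzu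
    rw [hU]
    refine ⟨r / 4, by positivity, h2.trans (h1.trans hball), ?_, f2.mono_set h2⟩
    filter_upwards [f1] with y hy hyB using hy (h2 hyB)
  have hUo : IsOpen U := by
    rw [Metric.isOpen_iff]
    intro x hx
    rw [hU] at hx
    obtain ⟨r, hr, hball, h1, h2⟩ := hx
    refine ⟨r / 2, half_pos hr, fun y hy => ?_⟩
    rw [hU]
    have h3 : Metric.closedBall y (r / 2) ⊆ Metric.closedBall x r := by
      apply Metric.closedBall_subset_closedBall'
      have := Metric.mem_ball.1 hy
      linarith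
    refine ⟨r / 2, half_pos hr, h3.trans hball, ?_, h2.mono_set h3⟩
    filter_upwards [h1] with z hz hzB using hz (h3 hzB)
  have hUne : (Ω ∩ U).Nonempty := by
    obtain ⟨x, hx, hxb⟩ := hu.ne_bot
    exact ⟨x, hx, hnear x hx fun δ hδ => ⟨x, by simpa using hδ, hxb⟩⟩
  have hUcl : closure U ∩ Ω ⊆ U := by
    rintro x ⟨hxU, hx⟩
    refine hnear x hx fun δ hδ => ?_
    obtain ⟨y, hyU, hyx⟩ := Metric.mem_closure_iff.1 hxU (δ / 2) (half_pos hδ)
    rw [hU] at hyU
    obtain ⟨r, hr, hball, h1, -⟩ := hyU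
    obtain ⟨ρ, hρ⟩ : ∃ ρ : ℝ, ρ = min r (δ / 4) := ⟨_, rfl⟩
    have hρ0 : 0 < ρ := by
      rw [hρ]
      exact lt_min hr (by positivity)
    have h3 : volume (Metric.closedBall y ρ) ≠ 0 := (Metric.measure_closedBall_pos _ _ hρ0).ne'
    have h4 : ∃ z ∈ Metric.closedBall y ρ, u z ≠ ⊥ := by
      by_contra hcon
      push Not at hcon
      apply h3
      have h5 : volume {z | ¬ (z ∈ Metric.closedBall y r → u z ≠ ⊥)} = 0 := h1
      refine measure_mono_null (fun z hz => ?_) h5
      simp only [mem_ofPred_eq]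
      intro h6
      exact h6 (Metric.closedBall_subset_closedBall (by rw [hρ]; exact min_le_left _ _) hz)
        (hcon z hz)
    obtain ⟨z, hz, hzu⟩ := h4
    refine ⟨z, ?_, hzu⟩
    have h5 : dist z y ≤ δ / 4 := (Metric.mem_closedBall.1 hz).trans (by rw [hρ]; exact min_le_right _ _)
    have h6 := dist_triangle z y x
    rw [dist_comm] at hyx
    linarith
  have hsub : Ω ⊆ U := hc.subset_of_closure_inter_subset hUo hUne hUcl
  refine ⟨fun x hx => ?_, ?_⟩
  · have hxU := hsub hx
    rw [hU] at hxU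
    obtain ⟨r, hr, hball, -, h2⟩ := hxU
    exact ⟨Metric.closedBall x r, mem_nhdsWithin_of_mem_nhds (Metric.closedBall_mem_nhds x hr), h2⟩
  · have h1 : volume {y | y ∈ Ω ∧ u y = ⊥} = 0 := by
      refine measure_null_of_locally_null _ fun x hx => ?_
      have hxU := hsub hx.1
      rw [hU] at hxU
      obtain ⟨r, hr, hball, h3, -⟩ := hxU
      refine ⟨{y | y ∈ Ω ∧ u y = ⊥} ∩ Metric.closedBall x r,
        inter_mem self_mem_nhdsWithin (mem_nhdsWithin_of_mem_nhds
          (Metric.closedBall_mem_nhds x hr)), ?_⟩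
      have h5 : volume {z | ¬ (z ∈ Metric.closedBall x r → u z ≠ ⊥)} = 0 := h3
      refine measure_mono_null (fun z hz => ?_) h5
      simp only [mem_ofPred_eq]
      intro h6
      exact h6 hz.2 hz.1.2
    have h2 : ∀ᵐ y, y ∉ {y | y ∈ Ω ∧ u y = ⊥} := compl_mem_ae_iff.2 h1
    filter_upwards [h2] with y hy hyΩ hbot
    exact hy ⟨hyΩ, hbot⟩

/-- A subharmonic function has nonnegative distributional Laplacian. -/
theorem Subharmonic.lap_nonneg {Ω : Set E} (hΩ : IsOpen Ω) (hc : IsPreconnected Ω) {u : E → EReal}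
    (hu : Subharmonic Ω u) {φ : E → ℝ} (hφ : Test Ω φ) (h0 : ∀ x, 0 ≤ φ x) :
    0 ≤ ∫ x, (u x).toReal * Laplacian.laplacian φ x := by
  obtain ⟨hloc, hae⟩ := hu.locInt hΩ hc
  obtain ⟨G, S, hG, hS, hKG, hGS, hSΩ⟩ := exists_nhd hΩ hφ.comp hφ.sub
  obtain ⟨v, hvm, hvi, hv⟩ := exists_version hS hSΩ hloc
  have h1 : Test G φ := ⟨hφ.smooth, hφ.comp, hKG⟩
  obtain ⟨δ, hδ, hthick⟩ := hφ.comp.exists_cthickening_subset_open hG hKG
  have key := submean_weak hvi hvm hφ.smooth2 hφ.comp h0 ?_
  · refine key.trans (le_of_eq ?_)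
    apply integral_congr_ae
    filter_upwards [hv] with x hx
    by_cases hxG : x ∈ G
    · rw [hx (hGS hxG)]
    · rw [lap_eq_zero h1 hxG, mul_zero, mul_zero]
  · have hr1 : ∀ᶠ r in 𝓝[>] (0 : ℝ), r < δ :=
      (tendsto_id.mono_left nhdsWithin_le_nhds :
        Tendsto (fun t : ℝ => t) (𝓝[>] 0) (𝓝 0)).eventually (gt_mem_nhds hδ)
    filter_upwards [hr1, self_mem_nhdsWithin] with r hrδ hr0
    have hr0' : (0 : ℝ) < r := hr0
    filter_upwards [hae, hv] with x hx hvx hφx
    have hxs : x ∈ tsupport φ := subset_tsupport _ hφx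
    have hxG : x ∈ G := hKG hxs
    have hball : Metric.closedBall x r ⊆ G := by
      refine Subset.trans ?_ hthick
      exact (Metric.closedBall_subset_cthickening hxs r).trans
        (Metric.cthickening_mono hrδ.le _)
    obtain ⟨-, -, h3⟩ := hu.integrableOn hΩ hr0' (hball.trans (hGS.trans hSΩ))
      (hx (hSΩ (hGS hxG)))
    -- rescaling
    have e1 : ∫ z in Metric.closedBall (0 : E) 1, v (x + r • z) =
        (r ^ Module.finrank ℝ E)⁻¹ * ∫ y in Metric.closedBall x r, (u y).toReal := by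
      have h4 : ∫ y in Metric.closedBall x r, (u y).toReal = ∫ y in Metric.closedBall x r, v y := by
        refine setIntegral_congr_ae measurableSet_closedBall ?_
        filter_upwards [hv] with y hy hyB
        exact (hy (hGS (hball hyB))).symm
      have h5 : ∫ y in Metric.closedBall x r, v y =
          ∫ y in Metric.closedBall (0 : E) r, v (x + y) := by
        have h6 := (measurePreserving_add_left (volume : Measure E) x).setIntegral_preimage_emb
          (measurableEmbedding_addLeft x) v (Metric.closedBall x r)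
        rw [← h6]
        congr 2
        ext z
        simp
      have h7 := Measure.setIntegral_comp_smul_of_pos (volume : Measure E)
        (fun y => v (x + y)) (Metric.closedBall (0 : E) 1) hr0'
      rw [h4, h5, h7, smul_eq_mul, smul_closedBall _ _ zero_le_one, smul_zero, Real.norm_eq_abs,
        abs_of_pos hr0', mul_one]
    have e2 : volume.real (Metric.closedBall x r) =
        r ^ Module.finrank ℝ E * volume.real (Metric.closedBall (0 : E) 1) := by
      unfold Measure.real
      rw [Measure.addHaar_closedBall' _ _ hr0'.le, ENNReal.toReal_mul,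
        ENNReal.toReal_ofReal (by positivity)]
    rw [e2] at h3
    rw [e1, hvx (hGS hxG)]
    have hrn : 0 < r ^ Module.finrank ℝ E := by positivity
    rw [← mul_le_mul_iff_right₀ hrn, ← mul_assoc, ← mul_assoc, mul_inv_cancel₀ hrn.ne', one_mul]
    linarith

/-- A subharmonic function on a domain has a Riesz measure. -/
theorem Subharmonic.exists_riesz {Ω : Set E} (hΩ : IsOpen Ω) (hc : IsPreconnected Ω)
    {u : E → EReal} (hu : Subharmonic Ω u) : ∃ P, IsRiesz Ω (fun x => (u x).toReal) P 0 := by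
  obtain ⟨hloc, -⟩ := hu.locInt hΩ hc
  have hR0 : RadonOn Ω (0 : Measure E) := fun K _ _ => by simp
  have hneg : ∀ φ : E → ℝ, ∫ x, -(u x).toReal * Laplacian.laplacian φ x =
      -∫ x, (u x).toReal * Laplacian.laplacian φ x := by
    intro φ
    rw [← integral_neg]
    congr 1
    funext x
    ring
  obtain ⟨P, hP⟩ := exists_riesz_of_le hΩ (F := fun x => -(u x).toReal) (L := 0) hloc.neg hR0
    (fun φ hφ h0 => by
      rw [hneg, integral_zero_measure]
      have := hu.lap_nonneg hΩ hc hφ h0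
      linarith)
  refine ⟨P, hloc, hP.finN, hR0, fun φ hφ => ?_⟩
  have := hP.lap φ hφ
  rw [hneg] at this
  linarith

theorem IsRiesz.sub {Ω : Set E} (hΩ : IsOpen Ω) {f g : E → ℝ} {P N P' N' : Measure E}
    (hf : IsRiesz Ω f P N) (hg : IsRiesz Ω g P' N') :
    IsRiesz Ω (fun x => f x - g x) (P + N') (N + P') := by
  refine ⟨?_, hf.finP.add hg.finN, hf.finN.add hg.finP, fun φ hφ => ?_⟩
  · exact hf.locInt.sub hg.locInt
  · rw [integral_add_radon hf.finP hg.finN hφ, integral_add_radon hf.finN hg.finP hφ]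
    have e1 : ∫ x, (f x - g x) * Laplacian.laplacian φ x =
        (∫ x, f x * Laplacian.laplacian φ x) - ∫ x, g x * Laplacian.laplacian φ x := by
      rw [← integral_sub (hφ.integrable_mul_lap hΩ hf.locInt)
        (hφ.integrable_mul_lap hΩ hg.locInt)]
      congr 1
      funext x
      ring
    rw [e1, hf.lap φ hφ, hg.lap φ hφ]
    ring

/-- Polar sets are Lebesgue null. -/
theorem IsPolar.ae {Ω Z : Set E} (hΩ : IsOpen Ω) (hc : IsPreconnected Ω) (h : IsPolar Ω Z) :
    ∀ᵐ x, x ∈ Ω → x ∉ Z := by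
  obtain ⟨s, hs, hZ⟩ := h
  obtain ⟨-, hae⟩ := hs.locInt hΩ hc
  filter_upwards [hae] with x hx hxΩ hxZ
  exact hx hxΩ (hZ x ⟨hxZ, hxΩ⟩)

/-- A `δ`-subharmonic function on a domain has a Riesz measure. -/
theorem DeltaSubharmonic.exists_riesz {Ω : Set E} (hΩ : IsOpen Ω) (hc : IsPreconnected Ω)
    {w : E → ℝ} (hw : DeltaSubharmonic Ω w) : ∃ P N, IsRiesz Ω w P N := by
  obtain ⟨u, v, hu, hv, Z, hZ, hwuv⟩ := hw
  obtain ⟨P, hP⟩ := hu.exists_riesz hΩ hc
  obtain ⟨Q, hQ⟩ := hv.exists_riesz hΩ hc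
  refine ⟨_, _, (hP.sub hΩ hQ).congr hΩ ?_⟩
  filter_upwards [hZ.ae hΩ hc, (hu.locInt hΩ hc).2, (hv.locInt hΩ hc).2] with x hxZ hxu hxv hxΩ
  have h1 := hwuv x ⟨hxΩ, hxZ hxΩ⟩
  have h2 : u x ≠ ⊤ := (hu.lt_top x hxΩ).ne
  have h3 : v x ≠ ⊤ := (hv.lt_top x hxΩ).ne
  rw [← EReal.coe_toReal h2 (hxu hxΩ), ← EReal.coe_toReal h3 (hxv hxΩ), ← EReal.coe_sub] at h1
  exact EReal.coe_injective h1

end Pool.Agent.helper26.Env
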