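import Pool.Agent.helper26.Env.PosDist

/-!
# Three nonnegative functions with disjoint supports
-/

set_option autoImplicit false
set_option linter.unusedSectionVars false

namespace Pool.Agent.helper26.Env

open MeasureTheory Filter Topology Set InnerProductSpace
open scoped ENNReal NNReal

variable {E : Type*} [NormedAddCommGroup E] [InnerProductSpace ℝ E] [FiniteDimensional ℝ E]
  [MeasurableSpace E] [BorelSpace E]

theorem HasLap.restrict {G G' : Set E} {u : E → ℝ} {P N : Measure E} (h : HasLap G u P N)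
    (hG' : G' ⊆ G) (hm : MeasurableSet G') : HasLap G' u (P.restrict G') (N.restrict G') := by
  intro ψ hψ
  rw [h ψ (hψ.mono hG')]
  have h0 : ∀ x, x ∉ G' → ψ x = 0 := fun x hx =>
    image_eq_zero_of_notMem_tsupport fun h' => hx (hψ.sub h')
  rw [setIntegral_eq_integral_of_forall_compl_eq_zero h0,
    setIntegral_eq_integral_of_forall_compl_eq_zero h0]

theorem HasLap.smul {G : Set E} {u : E → ℝ} {P N : Measure E} (h : HasLap G u P N) (c : ℝ≥0) :
    HasLap G (fun x => (c : ℝ) * u x) (c • P) (c • N) := by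
  intro ψ hψ
  rw [integral_smul_nnreal_measure, integral_smul_nnreal_measure]
  have h1 := h ψ hψ
  have h2 : ∫ x, (c : ℝ) * u x * Laplacian.laplacian ψ x =
      c * ∫ x, u x * Laplacian.laplacian ψ x := by
    rw [← integral_const_mul]
    congr 1
    funext x
    ring
  rw [h2, h1, NNReal.smul_def, NNReal.smul_def]
  simp only [smul_eq_mul]
  ring

theorem nnsmul_apply (c : ℝ≥0) (μ : Measure E) (s : Set E) :
    (c • μ) s = (c : ℝ≥0∞) * μ s := by
  rw [Measure.smul_apply, ENNReal.smul_def, smul_eq_mul]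

theorem zpow_mul_self' {q : ℝ≥0∞} (h0 : q ≠ 0) (ht : q ≠ ⊤) (k : ℤ) :
    q ^ k * q = q ^ (k + 1) := by
  rw [ENNReal.zpow_add h0 ht, zpow_one]

/-- The singular case. -/
theorem core_sing {G : Set E} (hG : IsOpen G) {A : Set E} (hAG : A ⊆ G)
    (u : Fin 3 → E → ℝ) (hui : ∀ i, Integrable (u i))
    (hu0 : ∀ i x, 0 ≤ u i x) (hdisj : ∀ i j, i ≠ j → ∀ x, u i x = 0 ∨ u j x = 0)
    (P N : Fin 3 → Measure E) [∀ i, IsFiniteMeasure (P i)] [∀ i, IsFiniteMeasure (N i)]
    (hlap : ∀ i, HasLap G (u i) (P i) (N i)) (hNA : ∀ i, N i A = 0)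
    (ν : Measure E) [IsFiniteMeasure ν] (hν : ∀ i, ν ≤ P i)
    {B : Set E} (hB : MeasurableSet B) (hBA : B ⊆ A) (hB0 : volume B = 0) : ν B = 0 := by
  by_contra hne
  -- reference measure
  obtain ⟨σ₀, hσ₀⟩ : ∃ σ₀ : Measure E, σ₀ = (P 0 + P 1 + P 2).restrict B := ⟨_, rfl⟩
  have hfin : IsFiniteMeasure σ₀ := by rw [hσ₀]; infer_instance
  have hPσ : ∀ i, (P i).restrict B ≤ σ₀ := by
    intro i
    rw [hσ₀]
    apply Measure.restrict_mono le_rfl
    fin_cases i
    · exact Measure.le_add_right (Measure.le_add_right le_rfl)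
    · exact Measure.le_add_right (Measure.le_add_left le_rfl)
    · exact Measure.le_add_left le_rfl
  obtain ⟨g, hg⟩ : ∃ g : Fin 3 → E → ℝ≥0∞, g = fun i => ((P i).restrict B).rnDeriv σ₀ := ⟨_, rfl⟩
  have hgm : ∀ i, Measurable (g i) := fun i => by rw [hg]; exact Measure.measurable_rnDeriv _ _
  have hgP : ∀ i, σ₀.withDensity (g i) = (P i).restrict B := fun i => by
    rw [hg]
    exact Measure.withDensity_rnDeriv_eq _ _ (Measure.absolutelyContinuous_of_le (hPσ i))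
  have hgD : ∀ i (D : Set E), MeasurableSet D → D ⊆ B → P i D = ∫⁻ x in D, g i x ∂σ₀ := by
    intro i D hD hDB
    rw [← withDensity_apply _ hD, hgP i, Measure.restrict_apply hD, inter_eq_left.2 hDB]
  -- the pieces
  obtain ⟨q, hq⟩ : ∃ q : ℝ≥0∞, q = ((9 / 8 : ℝ≥0) : ℝ≥0∞) := ⟨_, rfl⟩
  have hq1 : 1 < q := by
    rw [hq, ← ENNReal.coe_one, ENNReal.coe_lt_coe]
    rw [← NNReal.coe_lt_coe]
    norm_num
  have hqt : q ≠ ⊤ := by rw [hq]; exact ENNReal.coe_ne_top
  have hq0 : q ≠ 0 := (zero_lt_one.trans hq1).ne'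
  obtain ⟨Bk, hBk⟩ : ∃ Bk : (Fin 3 → ℤ) → Set E,
      Bk = fun k => {x | x ∈ B ∧ ∀ i, g i x ∈ Ico (q ^ (k i)) (q ^ (k i + 1))} := ⟨_, rfl⟩
  have hBkm : ∀ k, MeasurableSet (Bk k) := by
    intro k
    rw [hBk]
    refine hB.inter ?_
    have h1 : {x | ∀ i, g i x ∈ Ico (q ^ (k i)) (q ^ (k i + 1))} =
        ⋂ i, g i ⁻¹' Ico (q ^ (k i)) (q ^ (k i + 1)) := by
      ext x
      simp only [mem_iInter, mem_preimage]
      rfl
    rw [show (fun x => ∀ i, g i x ∈ Ico (q ^ (k i)) (q ^ (k i + 1))) =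
      {x | ∀ i, g i x ∈ Ico (q ^ (k i)) (q ^ (k i + 1))} from rfl, h1]
    exact MeasurableSet.iInter fun i => (hgm i) measurableSet_Ico
  have hcover : B ⊆ (⋃ k, Bk k) ∪ ((⋃ i, {x | x ∈ B ∧ g i x = 0}) ∪ ⋃ i, {x | x ∈ B ∧ g i x = ⊤}) := by
    intro x hx
    by_cases h1 : ∃ i, g i x = 0
    · obtain ⟨i, hi⟩ := h1
      right; left
      exact mem_iUnion.2 ⟨i, hx, hi⟩
    by_cases h2 : ∃ i, g i x = ⊤
    · obtain ⟨i, hi⟩ := h2
      right; right
      exact mem_iUnion.2 ⟨i, hx, hi⟩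
    left
    push Not at h1 h2
    have h3 : ∀ i, ∃ n : ℤ, g i x ∈ Ico (q ^ n) (q ^ (n + 1)) := fun i =>
      ENNReal.exists_mem_Ico_zpow (h1 i) (h2 i) hq1 hqt
    choose k hk using h3
    refine mem_iUnion.2 ⟨k, ?_⟩
    rw [hBk]
    exact ⟨hx, hk⟩
  have hνzero : ν ((⋃ i, {x | x ∈ B ∧ g i x = 0}) ∪ ⋃ i, {x | x ∈ B ∧ g i x = ⊤}) = 0 := by
    rw [measure_union_null_iff]
    constructor
    · rw [measure_iUnion_null_iff]
      intro i
      have hm : MeasurableSet {x | x ∈ B ∧ g i x = 0} :=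
        hB.inter ((hgm i) (measurableSet_singleton 0))
      refine le_antisymm (((hν i) _).trans ?_) zero_le
      rw [hgD i _ hm (fun x hx => hx.1)]
      rw [setLIntegral_congr_fun (g := fun _ => 0) hm (fun x hx => hx.2)]
      simp
    · rw [measure_iUnion_null_iff]
      intro i
      have hm : MeasurableSet {x | x ∈ B ∧ g i x = ⊤} :=
        hB.inter ((hgm i) (measurableSet_singleton ⊤))
      refine le_antisymm (((hν i) _).trans ?_) zero_le
      have h1 : (P i) {x | x ∈ B ∧ g i x = ⊤} = ((P i).restrict B) {x | x ∈ B ∧ g i x = ⊤} := by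
        rw [Measure.restrict_apply hm, inter_eq_left.2 (fun x hx => hx.1)]
      rw [h1]
      refine ((hPσ i) _).trans ?_
      have h2 : ∀ᵐ x ∂σ₀, g i x < ⊤ := by
        rw [hg]
        exact Measure.rnDeriv_lt_top _ _
      rw [ae_iff] at h2
      refine (measure_mono ?_).trans (le_of_eq h2)
      intro x hx
      change ¬ (g i x < ⊤)
      rw [hx.2]
      simp
  obtain ⟨k, hk⟩ : ∃ k, ν (Bk k) ≠ 0 := by
    by_contra hcon
    push Not at hcon
    apply hne
    have h1 : ν ((⋃ k, Bk k) ∪ ((⋃ i, {x | x ∈ B ∧ g i x = 0}) ∪ ⋃ i, {x | x ∈ B ∧ g i x = ⊤})) = 0 := by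
      rw [measure_union_null_iff]
      exact ⟨measure_iUnion_null hcon, hνzero⟩
    exact measure_mono_null hcover h1
  have hBkB : Bk k ⊆ B := by
    rw [hBk]
    exact fun x hx => hx.1
  have hσk : σ₀ (Bk k) ≠ 0 := by
    intro h0
    apply hk
    refine le_antisymm ?_ zero_le
    refine ((hν 0) _).trans ?_
    have h1 : (P 0) (Bk k) = ((P 0).restrict B) (Bk k) := by
      rw [Measure.restrict_apply (hBkm k), inter_eq_left.2 hBkB]
    rw [h1]
    exact ((hPσ 0) _).trans h0.le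
  obtain ⟨K, hKB, hKc, hK0⟩ := (hBkm k).exists_lt_isCompact_of_ne_top (μ := σ₀)
    (measure_ne_top _ _) (pos_iff_ne_zero.2 hσk)
  have hKA : K ⊆ A := hKB.trans (hBkB.trans hBA)
  have hKG : K ⊆ G := hKA.trans hAG
  have hKBB : K ⊆ B := hKB.trans hBkB
  have hKvol : volume K = 0 := measure_mono_null hKBB hB0
  -- normalising constants
  obtain ⟨c, hc⟩ : ∃ c : Fin 3 → ℝ≥0, c = fun i => (9 / 8 : ℝ≥0) ^ (k i) := ⟨_, rfl⟩
  have hcq : ∀ i, ((c i : ℝ≥0) : ℝ≥0∞) = q ^ (k i) := by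
    intro i
    rw [hc, hq]
    exact ENNReal.coe_zpow (by norm_num) _
  have hc0 : ∀ i, c i ≠ 0 := fun i => by
    rw [hc]
    exact zpow_ne_zero _ (by norm_num)
  have hlo : ∀ i (D : Set E), MeasurableSet D → D ⊆ K → (c i : ℝ≥0∞) * σ₀ D ≤ P i D := by
    intro i D hD hDK
    rw [hgD i D hD (hDK.trans hKBB), hcq i, ← setLIntegral_const]
    refine setLIntegral_mono' hD fun x hx => ?_
    have h1 := hKB (hDK hx)
    rw [hBk] at h1
    exact (h1.2 i).1
  have hhi : ∀ i (D : Set E), MeasurableSet D → D ⊆ K → P i D ≤ (c i : ℝ≥0∞) * (q * σ₀ D) := by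
    intro i D hD hDK
    rw [hgD i D hD (hDK.trans hKBB), ← mul_assoc, hcq i, zpow_mul_self' hq0 hqt,
      ← setLIntegral_const]
    refine setLIntegral_mono' hD fun x hx => ?_
    have h1 := hKB (hDK hx)
    rw [hBk] at h1
    exact (h1.2 i).2.le
  have hcc : ∀ i (t : ℝ≥0∞), ((c i)⁻¹ : ℝ≥0) * ((c i : ℝ≥0∞) * t) = t := by
    intro i t
    rw [← mul_assoc, ← ENNReal.coe_mul, inv_mul_cancel₀ (hc0 i), ENNReal.coe_one, one_mul]
  -- the measure σ
  obtain ⟨σ, hσ⟩ : ∃ σ : Measure E, σ = σ₀.restrict K := ⟨_, rfl⟩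
  have hσfin : IsFiniteMeasure σ := by rw [hσ]; infer_instance
  have hσK : σ Kᶜ = 0 := by
    rw [hσ, Measure.restrict_apply hKc.measurableSet.compl, compl_inter_self, measure_empty]
  have hσuniv : σ univ = σ₀ K := by rw [hσ, Measure.restrict_apply_univ]
  have hσpos : 0 < σ.real univ := by
    unfold Measure.real
    rw [hσuniv]
    exact ENNReal.toReal_pos hK0.ne' (measure_ne_top _ _)
  -- the small neighbourhood
  obtain ⟨τ, hτ⟩ : ∃ τ : Measure E, τ = ((c 0)⁻¹ • (P 0 + N 0) + (c 1)⁻¹ • (P 1 + N 1)) +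
    (c 2)⁻¹ • (P 2 + N 2) := ⟨_, rfl⟩
  have hτfin : IsFiniteMeasure τ := by rw [hτ]; infer_instance
  have hτi : ∀ i, (c i)⁻¹ • (P i + N i) ≤ τ := by
    intro i
    rw [hτ]
    fin_cases i
    · exact Measure.le_add_right (Measure.le_add_right le_rfl)
    · exact Measure.le_add_right (Measure.le_add_left le_rfl)
    · exact Measure.le_add_left le_rfl
  obtain ⟨ε, hε⟩ : ∃ ε : ℝ≥0∞, ε = ENNReal.ofReal (σ.real univ / 64) := ⟨_, rfl⟩
  have hε0 : ε ≠ 0 := by
    rw [hε]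
    simpa using hσpos
  obtain ⟨U, hKU, hU, hUτ⟩ := K.exists_isOpen_lt_add (μ := τ) (measure_ne_top _ _) hε0
  obtain ⟨G', hG'⟩ : ∃ G' : Set E, G' = U ∩ G := ⟨_, rfl⟩
  have hG'o : IsOpen G' := by rw [hG']; exact hU.inter hG
  have hKG' : K ⊆ G' := by rw [hG']; exact subset_inter hKU hKG
  have hG'G : G' ⊆ G := by rw [hG']; exact inter_subset_right
  have hτG' : τ (G' \ K) ≤ ε := by
    have h1 : τ (G' \ K) + τ K ≤ τ K + ε := by
      rw [← measure_union disjoint_sdiff_left hKc.measurableSet, sdiff_union_of_subset hKG']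
      refine (measure_mono ?_).trans hUτ.le
      rw [hG']
      exact inter_subset_left
    rw [add_comm (τ K)] at h1
    exact (ENNReal.add_le_add_iff_right (measure_ne_top _ _)).1 h1
  have hsmallP : ∀ i, ((c i)⁻¹ : ℝ≥0) * P i (G' \ K) ≤ ε := by
    intro i
    refine le_trans ?_ (((hτi i) _).trans hτG')
    rw [nnsmul_apply, Measure.add_apply]
    gcongr
    exact le_self_add
  have hsmallN : ∀ i, ((c i)⁻¹ : ℝ≥0) * N i (G' \ K) ≤ ε := by
    intro i
    refine le_trans ?_ (((hτi i) _).trans hτG')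
    rw [nnsmul_apply, Measure.add_apply]
    gcongr
    exact le_add_self
  have hc' : ∀ i, (0 : ℝ) ≤ ((c i)⁻¹ : ℝ≥0) := fun i => NNReal.coe_nonneg _
  have hεr : ∀ t : ℝ≥0∞, t ≤ ε → t.toReal ≤ σ.real univ / 64 := by
    intro t ht
    refine ENNReal.toReal_le_of_le_ofReal (by positivity) ?_
    rwa [hε] at ht
  refine core_shift hG'o hKc hKG' hKvol (fun i x => ((c i)⁻¹ : ℝ≥0) * u i x)
    (fun i => (hui i).const_mul _) (fun i x => mul_nonneg (hc' i) (hu0 i x))
    (fun i j hij x => ?_) (fun i => (c i)⁻¹ • (P i).restrict G')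
    (fun i => (c i)⁻¹ • (N i).restrict G') (fun i => (c i)⁻¹ • (P i).restrict (G' \ K))
    (fun i => ((hlap i).restrict hG'G hG'o.measurableSet).smul _) σ hσK hσpos
    (fun i => ?_) (9 / 8) (by norm_num) (fun i => ?_) (fun i => ?_) (fun i => ?_)
  · rcases hdisj i j hij x with h | h
    · left; rw [h, mul_zero]
    · right; rw [h, mul_zero]
  · rw [Measure.le_iff]
    intro D hD
    rw [hσ, Measure.restrict_apply hD, nnsmul_apply, Measure.restrict_apply hD]
    have h1 := hlo i (D ∩ K) (hD.inter hKc.measurableSet) inter_subset_right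
    calc σ₀ (D ∩ K) = ((c i)⁻¹ : ℝ≥0) * ((c i : ℝ≥0∞) * σ₀ (D ∩ K)) := (hcc i _).symm
      _ ≤ ((c i)⁻¹ : ℝ≥0) * P i (D ∩ K) := by gcongr
      _ ≤ ((c i)⁻¹ : ℝ≥0) * P i (D ∩ G') := by gcongr
  · rw [Measure.le_iff]
    intro D hD
    rw [hσ, nnsmul_apply, Measure.restrict_apply hD, Measure.add_apply,
      nnsmul_apply, nnsmul_apply, Measure.restrict_apply hD,
      Measure.restrict_apply hD]
    have h1 := hhi i (D ∩ K) (hD.inter hKc.measurableSet) inter_subset_right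
    have h2 : P i (D ∩ G') ≤ P i (D ∩ K) + P i (D ∩ (G' \ K)) := by
      refine le_trans (measure_mono ?_) (measure_union_le _ _)
      intro x hx
      by_cases hxK : x ∈ K
      · left; exact ⟨hx.1, hxK⟩
      · right; exact ⟨hx.1, hx.2, hxK⟩
    calc ((c i)⁻¹ : ℝ≥0) * P i (D ∩ G')
        ≤ ((c i)⁻¹ : ℝ≥0) * (P i (D ∩ K) + P i (D ∩ (G' \ K))) := by gcongr
      _ = ((c i)⁻¹ : ℝ≥0) * P i (D ∩ K) + ((c i)⁻¹ : ℝ≥0) * P i (D ∩ (G' \ K)) := by
          rw [mul_add]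
      _ ≤ ((c i)⁻¹ : ℝ≥0) * ((c i : ℝ≥0∞) * (q * σ₀ (D ∩ K))) +
          ((c i)⁻¹ : ℝ≥0) * P i (D ∩ (G' \ K)) := by gcongr
      _ = _ := by rw [hcc, hq]
  · unfold Measure.real
    apply hεr
    rw [nnsmul_apply, Measure.restrict_apply_univ]
    exact hsmallP i
  · unfold Measure.real
    apply hεr
    rw [nnsmul_apply, Measure.restrict_apply_univ]
    have h1 : N i G' ≤ N i (G' \ K) := by
      have h2 : N i G' ≤ N i (G' \ K) + N i K := by
        rw [← measure_union disjoint_sdiff_left hKc.measurableSet, sdiff_union_of_subset hKG']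
      have h3 : N i K = 0 := measure_mono_null hKA (hNA i)
      rwa [h3, add_zero] at h2
    refine le_trans ?_ (hsmallN i)
    gcongr

end Pool.Agent.helper26.Env
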