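import Pool.Agent.helper26.Env.Core

/-!
# The core statement: `Δu₀ ∧ Δu₁ ∧ Δu₂ ≤ 0`
-/

set_option autoImplicit false
set_option linter.unusedSectionVars false

namespace Pool.Agent.helper26.Env

open MeasureTheory Filter Topology Set InnerProductSpace
open scoped ENNReal NNReal

variable {E : Type*} [NormedAddCommGroup E] [InnerProductSpace ℝ E] [FiniteDimensional ℝ E]
  [MeasurableSpace E] [BorelSpace E]

/-- The case in which the negative parts do not charge `A`. -/
theorem core2 {G : Set E} (hG : IsOpen G) {A : Set E} (hA : MeasurableSet A) (hAG : A ⊆ G)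
    (u : Fin 3 → E → ℝ) (hum : ∀ i, Measurable (u i)) (hui : ∀ i, Integrable (u i))
    (hu0 : ∀ i x, 0 ≤ u i x) (hdisj : ∀ i j, i ≠ j → ∀ x, u i x = 0 ∨ u j x = 0)
    (P N : Fin 3 → Measure E) [∀ i, IsFiniteMeasure (P i)] [∀ i, IsFiniteMeasure (N i)]
    (hlap : ∀ i, HasLap G (u i) (P i) (N i)) (hNA : ∀ i, N i A = 0)
    (ν : Measure E) [IsFiniteMeasure ν] (hν : ∀ i, ν ≤ P i) : ν A = 0 := by
  by_contra hne
  obtain ⟨g, hg⟩ : ∃ g : E → ℝ≥0∞, g = ν.rnDeriv volume := ⟨_, rfl⟩
  have hgm : Measurable g := by rw [hg]; exact Measure.measurable_rnDeriv _ _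
  obtain ⟨S, hSm, hS1, hS2⟩ := Measure.mutuallySingular_singularPart ν volume
  have hB : ν (A ∩ Sᶜ) = 0 :=
    core_sing hG hAG u hui hu0 hdisj P N hlap hNA ν hν (hA.inter hSm.compl) inter_subset_left
      (measure_mono_null inter_subset_right hS2)
  have hAS : ν (A ∩ S) ≠ 0 := by
    intro h0
    apply hne
    rw [← inter_union_compl A S]
    exact le_antisymm ((measure_union_le _ _).trans (by rw [h0, hB, add_zero])) zero_le
  have hASm : MeasurableSet (A ∩ S) := hA.inter hSm
  have hgν : ∀ D, MeasurableSet D → D ⊆ A ∩ S → ν D = ∫⁻ x in D, g x := by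
    intro D hD hDS
    conv_lhs => rw [Measure.haveLebesgueDecomposition_add ν volume]
    rw [Measure.add_apply, withDensity_apply _ hD, hg]
    have : (ν.singularPart volume) D = 0 :=
      measure_mono_null (hDS.trans inter_subset_right) hS1
    rw [this, zero_add]
  -- choose the level
  have hlev : ∃ n : ℕ, volume {x | x ∈ A ∩ S ∧ ENNReal.ofReal (1 / ((n : ℝ) + 1)) ≤ g x} ≠ 0 := by
    by_contra hcon
    push Not at hcon
    apply hAS
    rw [hgν _ hASm subset_rfl]
    rw [setLIntegral_eq_zero_iff hASm hgm]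
    have h1 : volume (⋃ n : ℕ, {x | x ∈ A ∩ S ∧ ENNReal.ofReal (1 / ((n : ℝ) + 1)) ≤ g x}) = 0 :=
      measure_iUnion_null hcon
    have h2 : ∀ᵐ x, x ∉ ⋃ n : ℕ, {x | x ∈ A ∩ S ∧ ENNReal.ofReal (1 / ((n : ℝ) + 1)) ≤ g x} :=
      compl_mem_ae_iff.2 h1
    filter_upwards [h2] with x hx hxA
    by_contra hgx
    apply hx
    by_cases htop : g x = ⊤
    · exact mem_iUnion.2 ⟨0, hxA, by rw [htop]; exact le_top⟩
    have h3 : 0 < (g x).toReal := ENNReal.toReal_pos hgx htop
    obtain ⟨n, hn⟩ := exists_nat_one_div_lt h3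
    refine mem_iUnion.2 ⟨n, hxA, ?_⟩
    exact ENNReal.ofReal_le_of_le_toReal hn.le
  obtain ⟨n, hn⟩ := hlev
  obtain ⟨c, hc⟩ : ∃ c : ℝ, c = 1 / ((n : ℝ) + 1) := ⟨_, rfl⟩
  have hc0 : 0 < c := by rw [hc]; positivity
  rw [← hc] at hn
  -- choose the index
  have hidx : ∃ i : Fin 3, volume {x | (x ∈ A ∩ S ∧ ENNReal.ofReal c ≤ g x) ∧ u i x = 0} ≠ 0 := by
    by_contra hcon
    push Not at hcon
    apply hn
    have h1 : {x | x ∈ A ∩ S ∧ ENNReal.ofReal c ≤ g x} ⊆
        {x | (x ∈ A ∩ S ∧ ENNReal.ofReal c ≤ g x) ∧ u 0 x = 0} ∪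
        {x | (x ∈ A ∩ S ∧ ENNReal.ofReal c ≤ g x) ∧ u 1 x = 0} := by
      intro x hx
      rcases hdisj 0 1 (by decide) x with h | h
      · left; exact ⟨hx, h⟩
      · right; exact ⟨hx, h⟩
    exact measure_mono_null h1 (measure_union_null (hcon 0) (hcon 1))
  obtain ⟨i, hi⟩ := hidx
  have hDm : MeasurableSet {x | (x ∈ A ∩ S ∧ ENNReal.ofReal c ≤ g x) ∧ u i x = 0} := by
    refine MeasurableSet.inter (MeasurableSet.inter hASm ?_) ?_
    · exact measurableSet_le measurable_const hgm
    · exact (hum i) (measurableSet_singleton 0)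
  obtain ⟨K, hKD, hKc, hK0⟩ := hDm.exists_lt_isCompact (μ := volume) (pos_iff_ne_zero.2 hi)
  have hKAS : K ⊆ A ∩ S := fun x hx => (hKD hx).1.1
  have hKA : K ⊆ A := hKAS.trans inter_subset_left
  refine core_ac hG hKc (hKA.trans hAG) hK0.ne' (hui i) (hu0 i) (fun x hx => (hKD hx).2) (hlap i)
    (measure_mono_null hKA (hNA i)) hc0 (fun D hD hDK => ?_)
  calc ENNReal.ofReal c * volume D = ∫⁻ x in D, ENNReal.ofReal c := by rw [setLIntegral_const]
    _ ≤ ∫⁻ x in D, g x := setLIntegral_mono' hD fun x hx => (hKD (hDK hx)).1.2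
    _ = ν D := (hgν D hD (hDK.trans hKAS)).symm
    _ ≤ P i D := hν i D

/-- The general core statement: a positive measure below all `Δ u_i` on `A` vanishes on `A`. -/
theorem core {G : Set E} (hG : IsOpen G) {A : Set E} (hA : MeasurableSet A) (hAG : A ⊆ G)
    (u : Fin 3 → E → ℝ) (hum : ∀ i, Measurable (u i)) (hui : ∀ i, Integrable (u i))
    (hu0 : ∀ i x, 0 ≤ u i x) (hdisj : ∀ i j, i ≠ j → ∀ x, u i x = 0 ∨ u j x = 0)
    (P N : Fin 3 → Measure E) [∀ i, IsFiniteMeasure (P i)] [∀ i, IsFiniteMeasure (N i)]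
    (hlap : ∀ i, HasLap G (u i) (P i) (N i))
    (ν : Measure E) [IsFiniteMeasure ν]
    (hν : ∀ i, ∀ B, MeasurableSet B → B ⊆ A → ν B + N i B ≤ P i B) : ν A = 0 := by
  have hle : ∀ i, (N i).restrict A ≤ (P i).restrict A := by
    intro i
    rw [Measure.le_iff]
    intro D hD
    rw [Measure.restrict_apply hD, Measure.restrict_apply hD]
    exact le_trans le_add_self (hν i (D ∩ A) (hD.inter hA) inter_subset_right)
  have h1 : (ν.restrict A) A = 0 := by
    refine core2 hG hA hAG u hum hui hu0 hdisj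
      (fun i => (P i).restrict Aᶜ + ((P i).restrict A - (N i).restrict A))
      (fun i => (N i).restrict Aᶜ) ?_ ?_ (ν.restrict A) ?_
    · intro i ψ hψ
      have h2 : ((P i).restrict A - (N i).restrict A) + (N i).restrict A = (P i).restrict A :=
        Measure.sub_add_cancel_of_le (hle i)
      have h3 : ∫ x, ψ x ∂((P i).restrict A - (N i).restrict A) + ∫ x in A, ψ x ∂(N i) =
          ∫ x in A, ψ x ∂(P i) := by
        rw [← integral_add_measure (hψ.integrable_meas _) (hψ.integrable_meas _), h2]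
      rw [hlap i ψ hψ, integral_add_measure (hψ.integrable_meas _) (hψ.integrable_meas _),
        ← integral_add_compl hA (hψ.integrable_meas (P i)),
        ← integral_add_compl hA (hψ.integrable_meas (N i)), ← h3]
      ring
    · intro i
      rw [Measure.restrict_apply hA, inter_compl_self, measure_empty]
    · intro i
      rw [Measure.le_iff]
      intro D hD
      rw [Measure.restrict_apply hD, Measure.add_apply, Measure.sub_apply hD (hle i),
        Measure.restrict_apply hD, Measure.restrict_apply hD, Measure.restrict_apply hD]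
      refine le_trans ?_ le_add_self
      exact ENNReal.le_sub_of_add_le_right (measure_ne_top _ _)
        (hν i (D ∩ A) (hD.inter hA) inter_subset_right)
  rwa [Measure.restrict_apply hA, inter_self] at h1

end Pool.Agent.helper26.Env
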