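import Pool.Agent.helper26.Env.Local

/-!
# Existence and order of Riesz measures
-/

set_option autoImplicit false
set_option linter.unusedSectionVars false

namespace Pool.Agent.helper26.Env

open MeasureTheory Filter Topology Set InnerProductSpace
open scoped ENNReal NNReal

variable {E : Type*} [NormedAddCommGroup E] [InnerProductSpace ℝ E] [FiniteDimensional ℝ E]
  [MeasurableSpace E] [BorelSpace E]

theorem RadonOn.add {Ω : Set E} {a b : Measure E} (ha : RadonOn Ω a) (hb : RadonOn Ω b) :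
    RadonOn Ω (a + b) := fun K hK hKc => by
  rw [Measure.add_apply]
  exact ENNReal.add_lt_top.2 ⟨ha K hK hKc, hb K hK hKc⟩

theorem RadonOn.finite_restrict {Ω G S : Set E} {μ : Measure E} (hμ : RadonOn Ω μ) (hGS : G ⊆ S)
    (hSΩ : S ⊆ Ω) (hS : IsCompact S) : IsFiniteMeasure (μ.restrict G) := by
  refine ⟨?_⟩
  rw [Measure.restrict_apply_univ]
  exact (measure_mono hGS).trans_lt (hμ S hSΩ hS)

/-- Relatively compact neighbourhoods. -/
theorem exists_nhd {Ω K : Set E} (hΩ : IsOpen Ω) (hK : IsCompact K) (hKΩ : K ⊆ Ω) :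
    ∃ G S : Set E, IsOpen G ∧ IsCompact S ∧ K ⊆ G ∧ G ⊆ S ∧ S ⊆ Ω := by
  obtain ⟨S, hSc, hKS, hSΩ⟩ := exists_compact_between hK hΩ hKΩ
  exact ⟨interior S, S, isOpen_interior, hSc, hKS, interior_subset, hSΩ⟩

theorem Test.integrable_radon {Ω : Set E} {φ : E → ℝ} (hφ : Test Ω φ) {L : Measure E}
    (hL : RadonOn Ω L) : Integrable φ L := by
  have h1 : IsFiniteMeasure (L.restrict (tsupport φ)) :=
    hL.finite_restrict subset_rfl hφ.sub hφ.comp
  have h2 : Test univ φ := hφ.mono (subset_univ _)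
  have h3 : IntegrableOn φ (tsupport φ) L := h2.integrable_meas _
  exact (integrableOn_iff_integrable_of_support_subset (subset_tsupport φ)).1 h3

theorem Test.integrable_mul_lap {Ω : Set E} (hΩ : IsOpen Ω) {φ F : E → ℝ} (hφ : Test Ω φ)
    (hF : LocallyIntegrableOn F Ω) : Integrable (fun x => F x * Laplacian.laplacian φ x) := by
  obtain ⟨G, S, hG, hS, hKG, hGS, hSΩ⟩ := exists_nhd hΩ hφ.comp hφ.sub
  obtain ⟨v, -, hvi, hv⟩ := exists_version hS hSΩ hF
  have h1 : Test G φ := ⟨hφ.smooth, hφ.comp, hKG⟩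
  refine (h1.integrable_lap hvi).congr ?_
  filter_upwards [hv] with x hx
  by_cases hxG : x ∈ G
  · rw [hx (hGS hxG)]
  · rw [lap_eq_zero h1 hxG, mul_zero, mul_zero]

/-- `Δ min(f, g) ≤ P_f + P_g`. -/
theorem min_le_add {Ω : Set E} (hΩ : IsOpen Ω) {f g : E → ℝ} {P N P' N' : Measure E}
    (hf : IsRiesz Ω f P N) (hg : IsRiesz Ω g P' N') : LapLE Ω (fun x => min (f x) (g x)) (P + P') := by
  intro φ hφ h0
  obtain ⟨G, S, hG, hS, hKG, hGS, hSΩ⟩ := exists_nhd hΩ hφ.comp hφ.sub
  have hGΩ := hGS.trans hSΩ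
  obtain ⟨v, -, hvi, hv⟩ := exists_version hS hSΩ hf.locInt
  obtain ⟨v', -, hvi', hv'⟩ := exists_version hS hSΩ hg.locInt
  have h1 : Test G φ := ⟨hφ.smooth, hφ.comp, hKG⟩
  have := hf.finP.finite_restrict hGS hSΩ hS
  have := hg.finP.finite_restrict hGS hSΩ hS
  have l1 : HasLap G v (P.restrict G) (N.restrict G) :=
    (hf.lap.restrict hGΩ hG.measurableSet).congr_ae
      (by filter_upwards [hv] with x hx hxG using hx (hGS hxG))
  have l2 : HasLap G v' (P'.restrict G) (N'.restrict G) :=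
    (hg.lap.restrict hGΩ hG.measurableSet).congr_ae
      (by filter_upwards [hv'] with x hx hxG using hx (hGS hxG))
  have key := (LapLE.min hG hvi hvi' (L := P.restrict G + P'.restrict G)
    (l1.le (Measure.le_add_right le_rfl)) (l2.le (Measure.le_add_left le_rfl))) φ h1 h0
  rw [← Measure.restrict_add, integral_restrict_test h1] at key
  refine le_trans (le_of_eq ?_) key
  apply integral_congr_ae
  filter_upwards [hv, hv'] with x hx hx'
  by_cases hxG : x ∈ G
  · rw [hx (hGS hxG), hx' (hGS hxG)]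
  · rw [lap_eq_zero h1 hxG, mul_zero, mul_zero]

theorem locInt_min {Ω : Set E} {f g : E → ℝ} (hf : LocallyIntegrableOn f Ω)
    (hg : LocallyIntegrableOn g Ω) : LocallyIntegrableOn (fun x => min (f x) (g x)) Ω := by
  intro x hx
  obtain ⟨s, hs, hfs⟩ := hf x hx
  obtain ⟨t, ht, hgt⟩ := hg x hx
  exact ⟨s ∩ t, inter_mem hs ht, (hfs.mono_set inter_subset_left).inf
    (hgt.mono_set inter_subset_right)⟩

/-- A function with Laplacian bounded above by a Radon measure has a Riesz measure. -/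
theorem exists_riesz_of_le {Ω : Set E} (hΩ : IsOpen Ω) {F : E → ℝ}
    (hF : LocallyIntegrableOn F Ω) {L : Measure E} (hL : RadonOn Ω L) (h : LapLE Ω F L) :
    ∃ N, IsRiesz Ω F L N := by
  have hadd : ∀ φ ψ, Test Ω φ → Test Ω ψ →
      ∫ x, (φ x + ψ x) ∂L - ∫ x, F x * Laplacian.laplacian (fun x => φ x + ψ x) x =
      (∫ x, φ x ∂L - ∫ x, F x * Laplacian.laplacian φ x) +
      (∫ x, ψ x ∂L - ∫ x, F x * Laplacian.laplacian ψ x) := by
    intro φ ψ hφ hψ
    have e1 : ∫ x, F x * Laplacian.laplacian (fun x => φ x + ψ x) x =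
        (∫ x, F x * Laplacian.laplacian φ x) + ∫ x, F x * Laplacian.laplacian ψ x := by
      rw [← integral_add (hφ.integrable_mul_lap hΩ hF) (hψ.integrable_mul_lap hΩ hF)]
      congr 1
      funext x
      rw [hφ.lap_add hψ, mul_add]
    rw [e1, integral_add (hφ.integrable_radon hL) (hψ.integrable_radon hL)]
    ring
  have hsmul : ∀ (c : ℝ) φ, Test Ω φ →
      ∫ x, c * φ x ∂L - ∫ x, F x * Laplacian.laplacian (fun x => c * φ x) x =
      c * (∫ x, φ x ∂L - ∫ x, F x * Laplacian.laplacian φ x) := by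
    intro c φ hφ
    have e1 : ∫ x, F x * Laplacian.laplacian (fun x => c * φ x) x =
        c * ∫ x, F x * Laplacian.laplacian φ x := by
      rw [← integral_const_mul]
      congr 1
      funext x
      have h2 : Laplacian.laplacian (fun x => c * φ x) x = c * Laplacian.laplacian φ x := by
        exact laplacian_smul (f := φ) (x := x) c hφ.smooth2.contDiffAt
      rw [h2]
      ring
    rw [e1, integral_const_mul]
    ring
  obtain ⟨N, hN, hT⟩ := exists_measure hΩ
    (fun φ => ∫ x, φ x ∂L - ∫ x, F x * Laplacian.laplacian φ x) hadd hsmul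
    (fun φ hφ h0 => by
      have := h φ hφ h0
      linarith)
  refine ⟨N, hF, hL, hN, fun φ hφ => ?_⟩
  have := hT φ hφ
  linarith

theorem exists_riesz_min {Ω : Set E} (hΩ : IsOpen Ω) {f g : E → ℝ} {P N P' N' : Measure E}
    (hf : IsRiesz Ω f P N) (hg : IsRiesz Ω g P' N') :
    ∃ Q, IsRiesz Ω (fun x => min (f x) (g x)) (P + P') Q :=
  exists_riesz_of_le hΩ (locInt_min hf.locInt hg.locInt) (hf.finP.add hg.finP) (min_le_add hΩ hf hg)

end Pool.Agent.helper26.Env
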