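import Pool.Agent.helper26.Env.Kernel

/-!
# Growth of radial averages of a function with a measure as Laplacian
-/

set_option autoImplicit false
set_option linter.unusedSectionVars false

namespace Pool.Agent.helper26.Env

open MeasureTheory Filter Topology Set InnerProductSpace
open scoped ContDiff

variable {E : Type*} [NormedAddCommGroup E] [InnerProductSpace ℝ E] [FiniteDimensional ℝ E]
  [MeasurableSpace E] [BorelSpace E]

/-- The kernel `ζ`. -/
noncomputable def zet (ρ : ℝ) (x y : E) : ℝ :=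
  (ρ ^ (Module.finrank ℝ E))⁻¹ * rad pr (ρ ^ 2)⁻¹ x y

/-- The kernel `η`. -/
noncomputable def et (ρ : ℝ) (x y : E) : ℝ :=
  (ρ ^ (Module.finrank ℝ E))⁻¹ * (2 * rad pr1 (ρ ^ 2)⁻¹ x y)

/-- The kernel of the derivative. -/
noncomputable def kd (ρ : ℝ) (x y : E) : ℝ :=
  -((ρ ^ (Module.finrank ℝ E))⁻¹ * ρ⁻¹ * (4 * ((ρ ^ 2)⁻¹ * ‖y - x‖ ^ 2) *
    pr2 ((ρ ^ 2)⁻¹ * ‖y - x‖ ^ 2) + 2 * (Module.finrank ℝ E) * pr1 ((ρ ^ 2)⁻¹ * ‖y - x‖ ^ 2)))

theorem rad_contDiff {H : ℝ → ℝ} (hH : ContDiff ℝ ∞ H) (a : ℝ) (x : E) :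
    ContDiff ℝ ∞ (rad H a x) := by
  unfold rad
  exact hH.comp (contDiff_const.mul ((contDiff_id.sub contDiff_const).norm_sq ℝ))

theorem zet_contDiff (ρ : ℝ) (x : E) : ContDiff ℝ ∞ (zet ρ x) :=
  contDiff_const.mul (rad_contDiff pr_contDiff _ x)

theorem lap_zet {ρ : ℝ} (hρ : 0 < ρ) (x y : E) :
    ρ * Laplacian.laplacian (zet ρ x) y = kd ρ x y := by
  have h1 : Laplacian.laplacian (zet ρ x) y =
      (ρ ^ (Module.finrank ℝ E))⁻¹ * Laplacian.laplacian (rad pr (ρ ^ 2)⁻¹ x) y := by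
    have := laplacian_smul (x := y) ((ρ ^ (Module.finrank ℝ E))⁻¹ : ℝ)
      (f := rad pr (ρ ^ 2)⁻¹ x) ((contDiff_infty.1 (rad_contDiff pr_contDiff _ x) 2).contDiffAt)
    exact this
  have h2 := rad_lap (H := pr) (H' := fun t => -pr1 t) (H'' := fun t => -pr2 t)
    (fun t => pr_hasDerivAt t) (fun t => (pr1_hasDerivAt t).neg) (ρ ^ 2)⁻¹ x y
  rw [h1, h2]
  unfold kd
  have h3 : ρ⁻¹ = ρ * (ρ ^ 2)⁻¹ := by
    field_simp
  rw [h3]
  ring

theorem et_hasDerivAt {ρ : ℝ} (hρ : 0 < ρ) (x y : E) :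
    HasDerivAt (fun ρ => et ρ x y) (kd ρ x y) ρ := by
  obtain ⟨n, hn⟩ : ∃ n, n = Module.finrank ℝ E := ⟨_, rfl⟩
  obtain ⟨r, hr⟩ : ∃ r, r = ‖y - x‖ ^ 2 := ⟨_, rfl⟩
  have h1 : HasDerivAt (fun ρ : ℝ => (ρ ^ n)⁻¹) (-((n : ℝ) * (ρ ^ n)⁻¹ * ρ⁻¹)) ρ := by
    have h2 := (hasDerivAt_pow n ρ).inv (by positivity)
    refine h2.congr_deriv ?_
    rcases n with _ | m
    · simp
    · simp only [Nat.add_sub_cancel]
      field_simp
      ring
  have h2 : HasDerivAt (fun ρ : ℝ => (ρ ^ 2)⁻¹ * r) (-(2 * (ρ ^ 2)⁻¹ * ρ⁻¹ * r)) ρ := by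
    have h3 := ((hasDerivAt_pow 2 ρ).inv (by positivity)).mul_const r
    refine h3.congr_deriv ?_
    simp only [Nat.cast_ofNat]
    field_simp
    norm_num
  have h3 : HasDerivAt (fun ρ : ℝ => pr1 ((ρ ^ 2)⁻¹ * r))
      (pr2 ((ρ ^ 2)⁻¹ * r) * (-(2 * (ρ ^ 2)⁻¹ * ρ⁻¹ * r))) ρ :=
    (pr1_hasDerivAt _).comp ρ h2
  have h4 := h1.mul (h3.const_mul 2)
  unfold et kd rad
  rw [← hn, ← hr]
  refine h4.congr_deriv ?_
  ring

theorem kd_bound : ∃ S : ℝ, 0 ≤ S ∧ ∀ (ρ : ℝ), 0 < ρ → ∀ x y : E,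
    |kd ρ x y| ≤ (ρ ^ (Module.finrank ℝ E))⁻¹ * ρ⁻¹ * S := by
  obtain ⟨n, hn⟩ : ∃ n, n = Module.finrank ℝ E := ⟨_, rfl⟩
  have hcont : Continuous (fun t : ℝ => 4 * t * pr2 t + 2 * n * pr1 t) := by
    have := pr2_contDiff.continuous
    have := pr1_contDiff.continuous
    fun_prop
  obtain ⟨S, hS⟩ := (isCompact_Icc (a := (0 : ℝ)) (b := 1)).exists_bound_of_continuousOn
    hcont.continuousOn
  have hS0 : 0 ≤ S := (norm_nonneg _).trans (hS 0 ⟨le_rfl, zero_le_one⟩)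
  refine ⟨S, hS0, fun ρ hρ x y => ?_⟩
  unfold kd
  rw [abs_neg, abs_mul, abs_of_nonneg (by positivity : 0 ≤ (ρ ^ (Module.finrank ℝ E))⁻¹ * ρ⁻¹)]
  refine mul_le_mul_of_nonneg_left ?_ (by positivity)
  have ht : 0 ≤ (ρ ^ 2)⁻¹ * ‖y - x‖ ^ 2 := by positivity
  rw [← hn]
  by_cases h1 : (ρ ^ 2)⁻¹ * ‖y - x‖ ^ 2 ≤ 1
  · exact hS _ ⟨ht, h1⟩
  · push Not at h1
    rw [pr2_zero h1, pr1_zero h1.le]
    simpa using hS0

/-- The weighted average. -/
noncomputable def av (u : E → ℝ) (x : E) (ρ : ℝ) : ℝ := ∫ y, u y * et ρ x y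

theorem et_continuous (ρ : ℝ) (x : E) : Continuous (et ρ x) := by
  have := (rad_contDiff pr1_contDiff (ρ ^ 2)⁻¹ x).continuous
  unfold et
  fun_prop

theorem kd_continuous {ρ : ℝ} (x : E) : Continuous (kd ρ x) := by
  have := pr2_contDiff.continuous
  have := pr1_contDiff.continuous
  unfold kd
  fun_prop

theorem pr1_bound : ∃ S : ℝ, 0 < S ∧ ∀ t : ℝ, 0 ≤ t → pr1 t ≤ S := by
  obtain ⟨S, hS⟩ := (isCompact_Icc (a := (0 : ℝ)) (b := 1)).exists_bound_of_continuousOn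
    pr1_contDiff.continuous.continuousOn
  refine ⟨S + 1, ?_, fun t ht => ?_⟩
  · have := (norm_nonneg _).trans (hS 0 ⟨le_rfl, zero_le_one⟩)
    linarith
  · by_cases h1 : t ≤ 1
    · have := hS t ⟨ht, h1⟩
      rw [Real.norm_eq_abs] at this
      linarith [le_abs_self (pr1 t)]
    · push Not at h1
      rw [pr1_zero h1.le]
      have := (norm_nonneg _).trans (hS 0 ⟨le_rfl, zero_le_one⟩)
      linarith

theorem et_nonneg {ρ : ℝ} (hρ : 0 < ρ) (x y : E) : 0 ≤ et ρ x y := by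
  unfold et rad
  have := pr1_nonneg ((ρ ^ 2)⁻¹ * ‖y - x‖ ^ 2)
  positivity

theorem outside {ρ : ℝ} (hρ : 0 < ρ) {x y : E} (h : y ∉ Metric.closedBall x ρ) :
    1 < (ρ ^ 2)⁻¹ * ‖y - x‖ ^ 2 := by
  rw [Metric.mem_closedBall, dist_eq_norm, not_le] at h
  rw [inv_mul_eq_div, one_lt_div (by positivity)]
  gcongr

theorem inside {ρ : ℝ} (hρ : 0 < ρ) {x y : E} (h : y ∈ Metric.closedBall x (ρ / 2)) :
    (ρ ^ 2)⁻¹ * ‖y - x‖ ^ 2 ≤ 1 / 4 := by
  rw [Metric.mem_closedBall, dist_eq_norm] at h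
  rw [inv_mul_eq_div, div_le_div_iff₀ (by positivity) (by norm_num)]
  have h1 : ‖y - x‖ ^ 2 ≤ (ρ / 2) ^ 2 := by gcongr
  nlinarith

theorem integrable_mul_et {u : E → ℝ} (hu : Integrable u) {ρ : ℝ} (hρ : 0 < ρ) (x : E) :
    Integrable (fun y => u y * et ρ x y) := by
  obtain ⟨S, hS0, hS⟩ := pr1_bound
  refine hu.mul_bdd (c := (ρ ^ (Module.finrank ℝ E))⁻¹ * (2 * S))
    (et_continuous ρ x).aestronglyMeasurable ?_
  filter_upwards with y
  rw [Real.norm_eq_abs, abs_of_nonneg (et_nonneg hρ x y)]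
  unfold et rad
  have := hS ((ρ ^ 2)⁻¹ * ‖y - x‖ ^ 2) (by positivity)
  gcongr

theorem av_hasDerivAt {u : E → ℝ} (hu : Integrable u) (x : E) {ρ : ℝ} (hρ : 0 < ρ) :
    HasDerivAt (av u x) (∫ y, u y * kd ρ x y) ρ := by
  obtain ⟨S, hS0, hS⟩ := kd_bound (E := E)
  have key := hasDerivAt_integral_of_dominated_loc_of_deriv_le (μ := (volume : Measure E))
    (F := fun ρ y => u y * et ρ x y) (F' := fun ρ y => u y * kd ρ x y) (x₀ := ρ)
    (s := Ioi (ρ / 2)) (bound := fun y => |u y| * (((ρ / 2) ^ (Module.finrank ℝ E))⁻¹ * (ρ / 2)⁻¹ * S))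
    (Ioi_mem_nhds (by linarith)) ?_ (integrable_mul_et hu hρ x) ?_ ?_ ?_ ?_
  · exact key.2
  · filter_upwards [Ioi_mem_nhds hρ] with ρ' hρ'
    exact (integrable_mul_et hu hρ' x).aestronglyMeasurable
  · exact hu.aestronglyMeasurable.mul (kd_continuous x).aestronglyMeasurable
  · filter_upwards with y ρ' hρ'
    have hρ'' : ρ / 2 < ρ' := hρ'
    have h0 : 0 < ρ / 2 := by positivity
    rw [norm_mul, Real.norm_eq_abs, Real.norm_eq_abs]
    refine mul_le_mul_of_nonneg_left ?_ (abs_nonneg _)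
    refine (hS ρ' (h0.trans hρ'') x y).trans ?_
    have h5 : 0 < ρ' := h0.trans hρ''
    have h6 : 0 ≤ ρ'⁻¹ := by positivity
    gcongr
  · exact hu.abs.mul_const _
  · filter_upwards with y ρ' hρ'
    have hρ'' : ρ / 2 < ρ' := hρ'
    have h0 : 0 < ρ / 2 := by positivity
    exact (et_hasDerivAt (h0.trans hρ'') x y).const_mul (u y)

theorem zet_test {G : Set E} {ρ : ℝ} (hρ : 0 < ρ) {x : E} (h : Metric.closedBall x ρ ⊆ G) :
    Test G (zet ρ x) := by
  have hs : Function.support (zet ρ x) ⊆ Metric.closedBall x ρ := by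
    intro y hy
    by_contra hne
    apply hy
    unfold zet rad
    rw [pr_zero (outside hρ hne).le, mul_zero]
  have hts : tsupport (zet ρ x) ⊆ Metric.closedBall x ρ :=
    closure_minimal hs Metric.isClosed_closedBall
  exact ⟨zet_contDiff ρ x, HasCompactSupport.of_support_subset_isCompact
    (isCompact_closedBall x ρ) hs, hts.trans h⟩

theorem av_hasDerivAt' {G : Set E} {u : E → ℝ} (hu : Integrable u) {P N : Measure E}
    (hlap : HasLap G u P N) {x : E} {ρ : ℝ} (hρ : 0 < ρ) (h : Metric.closedBall x ρ ⊆ G) :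
    HasDerivAt (av u x) (ρ * ((∫ y, zet ρ x y ∂P) - ∫ y, zet ρ x y ∂N)) ρ := by
  refine (av_hasDerivAt hu x hρ).congr_deriv ?_
  rw [← hlap _ (zet_test hρ h), ← integral_const_mul]
  congr 1
  funext y
  rw [← lap_zet hρ x y]
  ring

theorem zet_nonneg {ρ : ℝ} (hρ : 0 < ρ) (x y : E) : 0 ≤ zet ρ x y := by
  unfold zet rad
  have := pr_nonneg ((ρ ^ 2)⁻¹ * ‖y - x‖ ^ 2)
  positivity

theorem zet_integrable {ρ : ℝ} (hρ : 0 < ρ) (x : E) (P : Measure E) [IsFiniteMeasure P] :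
    Integrable (zet ρ x) P :=
  (zet_test (G := univ) hρ (subset_univ _)).integrable_meas P

theorem zet_upper {ρ : ℝ} (hρ : 0 < ρ) (x : E) (P : Measure E) [IsFiniteMeasure P] :
    ∫ y, zet ρ x y ∂P ≤ (ρ ^ (Module.finrank ℝ E))⁻¹ * P.real (Metric.closedBall x ρ) := by
  have h1 : ∫ y, zet ρ x y ∂P ≤
      ∫ y, (Metric.closedBall x ρ).indicator (fun _ => (ρ ^ (Module.finrank ℝ E))⁻¹) y ∂P := by
    refine integral_mono (zet_integrable hρ x P)
      ((integrable_const _).indicator Metric.isClosed_closedBall.measurableSet) fun y => ?_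
    by_cases hy : y ∈ Metric.closedBall x ρ
    · rw [indicator_of_mem hy]
      unfold zet rad
      have := pr_le_one ((ρ ^ 2)⁻¹ * ‖y - x‖ ^ 2)
      have h2 : 0 ≤ (ρ ^ (Module.finrank ℝ E))⁻¹ := by positivity
      nlinarith
    · rw [indicator_of_notMem hy]
      unfold zet rad
      rw [pr_zero (outside hρ hy).le, mul_zero]
  refine h1.trans (le_of_eq ?_)
  rw [integral_indicator Metric.isClosed_closedBall.measurableSet, setIntegral_const, smul_eq_mul,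
    mul_comm]

theorem zet_lower {ρ : ℝ} (hρ : 0 < ρ) (x : E) (P : Measure E) [IsFiniteMeasure P] :
    (ρ ^ (Module.finrank ℝ E))⁻¹ * b0 * P.real (Metric.closedBall x (ρ / 2)) ≤
      ∫ y, zet ρ x y ∂P := by
  have h1 : ∫ y, (Metric.closedBall x (ρ / 2)).indicator
      (fun _ => (ρ ^ (Module.finrank ℝ E))⁻¹ * b0) y ∂P ≤ ∫ y, zet ρ x y ∂P := by
    refine integral_mono ((integrable_const _).indicator Metric.isClosed_closedBall.measurableSet)
      (zet_integrable hρ x P) fun y => ?_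
    by_cases hy : y ∈ Metric.closedBall x (ρ / 2)
    · rw [indicator_of_mem hy]
      unfold zet rad
      have := pr_ge (inside hρ hy)
      gcongr
    · rw [indicator_of_notMem hy]
      exact zet_nonneg hρ x y
  refine le_trans (le_of_eq ?_) h1
  rw [integral_indicator Metric.isClosed_closedBall.measurableSet, setIntegral_const, smul_eq_mul,
    mul_comm]

/-- Lower growth. -/
theorem lower_growth {G : Set E} {u : E → ℝ} (hu : Integrable u) (hu0 : ∀ x, 0 ≤ u x)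
    {P N : Measure E} [IsFiniteMeasure P] [IsFiniteMeasure N] (hlap : HasLap G u P N) {x : E}
    {ρ₀ c : ℝ} (hG : ∀ ρ, 0 < ρ → ρ ≤ ρ₀ → Metric.closedBall x ρ ⊆ G)
    (hc : ∀ ρ, 0 < ρ → ρ ≤ ρ₀ → c ≤ (ρ ^ (Module.finrank ℝ E))⁻¹ * b0 *
      P.real (Metric.closedBall x (ρ / 2)) -
      (ρ ^ (Module.finrank ℝ E))⁻¹ * N.real (Metric.closedBall x ρ)) {ρ : ℝ} (hρ : 0 < ρ)
    (hρ₀ : ρ ≤ ρ₀) : c * ρ ^ 2 / 2 ≤ av u x ρ := by
  have main : ∀ r, 0 < r → r ≤ ρ → c * ρ ^ 2 / 2 - c * r ^ 2 / 2 ≤ av u x ρ := by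
    intro r hr hrρ
    have hav : 0 ≤ av u x r :=
      integral_nonneg fun y => mul_nonneg (hu0 y) (et_nonneg hr x y)
    have hd : ∀ t ∈ Icc r ρ, HasDerivAt (fun t => av u x t - c * t ^ 2 / 2)
        (t * ((∫ y, zet t x y ∂P) - ∫ y, zet t x y ∂N) - c * t) t := by
      intro t ht
      have ht0 : 0 < t := hr.trans_le ht.1
      have h1 := av_hasDerivAt' hu hlap ht0 (hG t ht0 (ht.2.trans hρ₀))
      have h2 : HasDerivAt (fun t : ℝ => c * t ^ 2 / 2) (c * t) t := by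
        have := ((hasDerivAt_pow 2 t).const_mul c).div_const 2
        refine this.congr_deriv ?_
        simp
        ring
      exact h1.sub h2
    have hmono : MonotoneOn (fun t => av u x t - c * t ^ 2 / 2) (Icc r ρ) := by
      apply monotoneOn_of_deriv_nonneg (convex_Icc r ρ)
      · exact fun t ht => (hd t ht).continuousAt.continuousWithinAt
      · exact fun t ht => ((hd t (interior_subset ht)).differentiableAt).differentiableWithinAt
      · intro t ht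
        have ht' := interior_subset ht
        rw [(hd t ht').deriv]
        have ht0 : 0 < t := hr.trans_le ht'.1
        have h1 := zet_lower ht0 x P
        have h2 := zet_upper ht0 x N
        have h3 := hc t ht0 (ht'.2.trans hρ₀)
        nlinarith
    have := hmono (left_mem_Icc.2 hrρ) (right_mem_Icc.2 hrρ) hrρ
    simp only at this
    linarith
  have hlim : Tendsto (fun r : ℝ => c * ρ ^ 2 / 2 - c * r ^ 2 / 2) (𝓝[>] 0)
      (𝓝 (c * ρ ^ 2 / 2)) := by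
    have h7 : Tendsto (fun r : ℝ => c * ρ ^ 2 / 2 - c * r ^ 2 / 2) (𝓝 0)
        (𝓝 (c * ρ ^ 2 / 2 - c * 0 ^ 2 / 2)) := by
      apply Continuous.tendsto
      fun_prop
    simp only [ne_eq, OfNat.ofNat_ne_zero, not_false_eq_true, zero_pow, mul_zero, zero_div,
      sub_zero] at h7
    exact h7.mono_left nhdsWithin_le_nhds
  refine le_of_tendsto hlim ?_
  filter_upwards [Ioc_mem_nhdsGT hρ] with r hr
  exact main r hr.1 hr.2

/-- Upper growth. -/
theorem upper_growth {G : Set E} {u : E → ℝ} (hu : Integrable u)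
    {P N : Measure E} [IsFiniteMeasure P] [IsFiniteMeasure N] (hlap : HasLap G u P N) {x : E}
    {ρ₀ C : ℝ} (hG : ∀ ρ, 0 < ρ → ρ ≤ ρ₀ → Metric.closedBall x ρ ⊆ G)
    (hC : ∀ ρ, 0 < ρ → ρ ≤ ρ₀ →
      (ρ ^ (Module.finrank ℝ E))⁻¹ * P.real (Metric.closedBall x ρ) ≤ C)
    (h0 : Tendsto (av u x) (𝓝[>] 0) (𝓝 0)) {ρ : ℝ} (hρ : 0 < ρ)
    (hρ₀ : ρ ≤ ρ₀) : av u x ρ ≤ C * ρ ^ 2 / 2 := by
  have main : ∀ r, 0 < r → r ≤ ρ → av u x ρ ≤ av u x r + (C * ρ ^ 2 / 2 - C * r ^ 2 / 2) := by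
    intro r hr hrρ
    have hd : ∀ t ∈ Icc r ρ, HasDerivAt (fun t => C * t ^ 2 / 2 - av u x t)
        (C * t - t * ((∫ y, zet t x y ∂P) - ∫ y, zet t x y ∂N)) t := by
      intro t ht
      have ht0 : 0 < t := hr.trans_le ht.1
      have h1 := av_hasDerivAt' hu hlap ht0 (hG t ht0 (ht.2.trans hρ₀))
      have h2 : HasDerivAt (fun t : ℝ => C * t ^ 2 / 2) (C * t) t := by
        have := ((hasDerivAt_pow 2 t).const_mul C).div_const 2
        refine this.congr_deriv ?_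
        simp
        ring
      exact h2.sub h1
    have hmono : MonotoneOn (fun t => C * t ^ 2 / 2 - av u x t) (Icc r ρ) := by
      apply monotoneOn_of_deriv_nonneg (convex_Icc r ρ)
      · exact fun t ht => (hd t ht).continuousAt.continuousWithinAt
      · exact fun t ht => ((hd t (interior_subset ht)).differentiableAt).differentiableWithinAt
      · intro t ht
        have ht' := interior_subset ht
        rw [(hd t ht').deriv]
        have ht0 : 0 < t := hr.trans_le ht'.1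
        have h1 := zet_upper ht0 x P
        have h2 : 0 ≤ ∫ y, zet t x y ∂N := integral_nonneg fun y => zet_nonneg ht0 x y
        have h3 := hC t ht0 (ht'.2.trans hρ₀)
        nlinarith
    have := hmono (left_mem_Icc.2 hrρ) (right_mem_Icc.2 hrρ) hrρ
    simp only at this
    linarith
  have hlim : Tendsto (fun r : ℝ => av u x r + (C * ρ ^ 2 / 2 - C * r ^ 2 / 2)) (𝓝[>] 0)
      (𝓝 (0 + (C * ρ ^ 2 / 2 - C * 0 ^ 2 / 2))) := by
    refine h0.add ?_
    have h7 : Tendsto (fun r : ℝ => C * ρ ^ 2 / 2 - C * r ^ 2 / 2) (𝓝 0)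
        (𝓝 (C * ρ ^ 2 / 2 - C * 0 ^ 2 / 2)) := by
      apply Continuous.tendsto
      fun_prop
    exact h7.mono_left nhdsWithin_le_nhds
  simp only [ne_eq, OfNat.ofNat_ne_zero, not_false_eq_true, zero_pow, mul_zero, zero_div,
      sub_zero, zero_add] at hlim
  refine ge_of_tendsto hlim ?_
  filter_upwards [Ioc_mem_nhdsGT hρ] with r hr
  exact main r hr.1 hr.2

end Pool.Agent.helper26.Env
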