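import Pool.Agent.helper26.Env.Order

/-!
# Finitely many functions
-/

set_option autoImplicit false
set_option linter.unusedSectionVars false

namespace Pool.Agent.helper26.Env

open MeasureTheory Filter Topology Set InnerProductSpace
open scoped ENNReal NNReal

variable {E : Type*} [NormedAddCommGroup E] [InnerProductSpace ℝ E] [FiniteDimensional ℝ E]
  [MeasurableSpace E] [BorelSpace E]

/-- Three functions on an open set, explicit version. -/
theorem three_loc' {Ω : Set E} (hΩ : IsOpen Ω) {f g h : E → ℝ}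
    (hf : LocallyIntegrableOn f Ω) (hg : LocallyIntegrableOn g Ω) (hh : LocallyIntegrableOn h Ω)
    {P₀ N₀ P₁ N₁ P₂ N₂ Pm Nm : Measure E}
    (h0 : IsRiesz Ω (fun x => min (g x) (h x)) P₀ N₀)
    (h1 : IsRiesz Ω (fun x => min (h x) (f x)) P₁ N₁)
    (h2 : IsRiesz Ω (fun x => min (f x) (g x)) P₂ N₂)
    (hm : IsRiesz Ω (fun x => min (f x) (min (g x) (h x))) Pm Nm)
    {a b : Measure E} (ha : RadonOn Ω a) (hb : RadonOn Ω b)
    (hab0 : SignedLE Ω a b P₀ N₀) (hab1 : SignedLE Ω a b P₁ N₁) (hab2 : SignedLE Ω a b P₂ N₂) :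
    SignedLE Ω a b Pm Nm := by
  refine three_loc hΩ ![f, g, h] (fun i => ?_) ![P₀, P₁, P₂] ![N₀, N₁, N₂] (fun i => ?_) Pm Nm
    hm a b ha hb (fun i => ?_)
  · fin_cases i
    · exact hf
    · exact hg
    · exact hh
  · fin_cases i
    · exact h0
    · exact h1
    · exact h2
  · fin_cases i
    · exact hab0
    · exact hab1
    · exact hab2

variable {ι : Type*}

theorem inf'_erase' [DecidableEq ι] (s : Finset ι) (hs : s.Nonempty) {j : ι} (hj : j ∈ s)
    (h1 : (s.erase j).Nonempty) (f : ι → ℝ) :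
    s.inf' hs f = min (f j) ((s.erase j).inf' h1 f) := by
  have h2 := Finset.inf'_insert h1 f (b := j)
  rw [show min (f j) ((s.erase j).inf' h1 f) = f j ⊓ (s.erase j).inf' h1 f from rfl, ← h2]
  congr 1
  rw [Finset.insert_erase hj]

/-- Finite minima of `δ`-subharmonic functions are `δ`-subharmonic. -/
theorem exists_riesz_inf' {Ω : Set E} (hΩ : IsOpen Ω) (w : ι → E → ℝ)
    (hw : ∀ j, ∃ P N, IsRiesz Ω (w j) P N) (s : Finset ι) (hs : s.Nonempty) :
    ∃ P N, IsRiesz Ω (fun x => s.inf' hs (fun j => w j x)) P N := by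
  classical
  induction hs using Finset.Nonempty.cons_induction with
  | singleton j =>
    obtain ⟨P, N, h⟩ := hw j
    exact ⟨P, N, by simpa using h⟩
  | cons j s hj hs ih =>
    obtain ⟨P, N, h⟩ := ih
    obtain ⟨P', N', h'⟩ := hw j
    obtain ⟨Q, hQ⟩ := exists_riesz_min hΩ h' h
    refine ⟨P' + P, Q, ?_⟩
    convert hQ using 2 with x
    rw [Finset.inf'_cons hs]

/-- The inequality for finitely many functions. -/
theorem main_ineq {Ω : Set E} (hΩ : IsOpen Ω) (w : ι → E → ℝ)
    (hw : ∀ j, ∃ P N, IsRiesz Ω (w j) P N) {a b : Measure E} (ha : RadonOn Ω a) (hb : RadonOn Ω b)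
    (hab : ∀ j k, j ≠ k → ∀ P N, IsRiesz Ω (fun x => min (w j x) (w k x)) P N →
      SignedLE Ω a b P N) (n : ℕ) :
    ∀ (s : Finset ι) (hs : s.Nonempty), s.card = n + 2 → ∀ P N,
      IsRiesz Ω (fun x => s.inf' hs (fun j => w j x)) P N → SignedLE Ω a b P N := by
  classical
  have hloc : ∀ (s : Finset ι) (hs : s.Nonempty),
      LocallyIntegrableOn (fun x => s.inf' hs (fun j => w j x)) Ω := by
    intro s hs
    obtain ⟨P, N, h⟩ := exists_riesz_inf' hΩ w hw s hs
    exact h.locInt
  induction n with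
  | zero =>
    intro s hs hcard P N h
    obtain ⟨j, k, hjk, rfl⟩ := Finset.card_eq_two.1 hcard
    refine hab j k hjk P N ?_
    convert h using 2 with x
    rw [Finset.inf'_insert (Finset.singleton_nonempty k), Finset.inf'_singleton]
  | succ n ih =>
    intro s hs hcard P N h
    obtain ⟨j, hj⟩ := id hs
    have hc1 : (s.erase j).card = n + 2 := by
      rw [Finset.card_erase_of_mem hj, hcard]
      omega
    have hs1 : (s.erase j).Nonempty := Finset.card_pos.1 (by omega)
    obtain ⟨k, hk⟩ := hs1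
    have hkj : k ≠ j := Finset.ne_of_mem_erase hk
    have hks : k ∈ s := Finset.mem_of_mem_erase hk
    have hc2 : (s.erase k).card = n + 2 := by
      rw [Finset.card_erase_of_mem hks, hcard]
      omega
    have hs1 : (s.erase j).Nonempty := Finset.card_pos.1 (by omega)
    have hs2 : (s.erase k).Nonempty := Finset.card_pos.1 (by omega)
    have hc3 : ((s.erase j).erase k).card = n + 1 := by
      rw [Finset.card_erase_of_mem hk, hc1]
      omega
    have hs3 : ((s.erase j).erase k).Nonempty := Finset.card_pos.1 (by omega)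
    -- identities between minima
    have e1 : ∀ x, (s.erase j).inf' hs1 (fun i => w i x) =
        min (w k x) (((s.erase j).erase k).inf' hs3 (fun i => w i x)) := fun x =>
      inf'_erase' _ hs1 hk hs3 _
    have hjk : j ∈ s.erase k := Finset.mem_erase.2 ⟨hkj.symm, hj⟩
    have hs3' : ((s.erase k).erase j).Nonempty := by rwa [Finset.erase_right_comm]
    have e2 : ∀ x, (s.erase k).inf' hs2 (fun i => w i x) =
        min (w j x) (((s.erase j).erase k).inf' hs3 (fun i => w i x)) := by
      intro x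
      rw [inf'_erase' _ hs2 hjk hs3']
      congr 2
      rw [Finset.erase_right_comm]
    have e3 : ∀ x, s.inf' hs (fun i => w i x) =
        min (w j x) ((s.erase j).inf' hs1 (fun i => w i x)) := fun x =>
      inf'_erase' _ hs hj hs1 _
    obtain ⟨P₁, N₁, r1⟩ := exists_riesz_inf' hΩ w hw (s.erase j) hs1
    obtain ⟨P₂, N₂, r2⟩ := exists_riesz_inf' hΩ w hw (s.erase k) hs2
    obtain ⟨Pj, Nj, rj⟩ := hw j
    obtain ⟨Pk, Nk, rk⟩ := hw k
    obtain ⟨Q, r0⟩ := exists_riesz_min hΩ rj rk
    have s1 := ih _ hs1 hc1 _ _ r1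
    have s2 := ih _ hs2 hc2 _ _ r2
    have s0 := hab j k hkj.symm _ _ r0
    refine three_loc' hΩ (f := fun x => ((s.erase j).erase k).inf' hs3 (fun i => w i x))
      (hloc _ hs3) rj.locInt rk.locInt r0 (P₁ := P₁) (N₁ := N₁) ?_ (P₂ := P₂) (N₂ := N₂) ?_ ?_
      ha hb s0 s1 s2
    · convert r1 using 2 with x
      rw [e1]
    · convert r2 using 2 with x
      rw [e2, min_comm]
    · convert h using 2 with x
      rw [e3, e1, min_left_comm, min_comm (w k x)]

end Pool.Agent.helper26.Env
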