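import Pool.Agent.helper26.Env.Shift

/-!
# Radial kernels and the growth of radial averages
-/

set_option autoImplicit false
set_option linter.unusedSectionVars false

namespace Pool.Agent.helper26.Env

open MeasureTheory Filter Topology Set InnerProductSpace
open scoped ContDiff

variable {E : Type*} [NormedAddCommGroup E] [InnerProductSpace ℝ E] [FiniteDimensional ℝ E]
  [MeasurableSpace E] [BorelSpace E]

/-- The profile. -/
noncomputable def pr (t : ℝ) : ℝ := expNegInvGlue (1 - t)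

theorem pr_contDiff : ContDiff ℝ ∞ pr :=
  (expNegInvGlue.contDiff (n := (⊤ : ℕ∞))).comp (contDiff_const.sub contDiff_id)

theorem pr_hasDerivAt (t : ℝ) :
    HasDerivAt pr (-(((1 - t)⁻¹) ^ 2 * expNegInvGlue (1 - t))) t := by
  have h1 := expNegInvGlue.hasDerivAt_polynomial_eval_inv_mul 1 (1 - t)
  simp only [Polynomial.eval_one, one_mul, Polynomial.derivative_one, sub_zero, mul_one,
    Polynomial.eval_pow, Polynomial.eval_X] at h1
  have h2 : HasDerivAt (fun t : ℝ => 1 - t) (-1) t := by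
    simpa using (hasDerivAt_id t).const_sub 1
  have h3 := h1.comp t h2
  refine h3.congr_deriv ?_
  ring

/-- Minus the derivative of the profile. -/
noncomputable def pr1 (t : ℝ) : ℝ := ((1 - t)⁻¹) ^ 2 * expNegInvGlue (1 - t)

theorem deriv_pr : deriv pr = fun t => -pr1 t := by
  funext t
  exact (pr_hasDerivAt t).deriv

theorem pr1_contDiff : ContDiff ℝ ∞ pr1 := by
  have h1 : ContDiff ℝ ∞ (deriv pr) := (contDiff_infty_iff_deriv.1 pr_contDiff).2
  rw [deriv_pr] at h1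
  have := h1.neg
  simpa using this

/-- Minus the second derivative of the profile. -/
noncomputable def pr2 (t : ℝ) : ℝ := deriv pr1 t

theorem pr1_hasDerivAt (t : ℝ) : HasDerivAt pr1 (pr2 t) t :=
  (pr1_contDiff.differentiable (by simp)).differentiableAt.hasDerivAt

theorem pr2_contDiff : ContDiff ℝ ∞ pr2 := (contDiff_infty_iff_deriv.1 pr1_contDiff).2

theorem pr_nonneg (t : ℝ) : 0 ≤ pr t := expNegInvGlue.nonneg _

theorem pr_le_one (t : ℝ) : pr t ≤ 1 := by
  unfold pr expNegInvGlue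
  split_ifs with h
  · exact zero_le_one
  · push Not at h
    rw [Real.exp_le_one_iff]
    have : 0 < (1 - t)⁻¹ := inv_pos.2 h
    linarith

theorem pr_zero {t : ℝ} (ht : 1 ≤ t) : pr t = 0 := expNegInvGlue.zero_of_nonpos (by linarith)

theorem pr1_zero {t : ℝ} (ht : 1 ≤ t) : pr1 t = 0 := by
  unfold pr1
  rw [expNegInvGlue.zero_of_nonpos (by linarith), mul_zero]

theorem pr1_nonneg (t : ℝ) : 0 ≤ pr1 t := by
  unfold pr1
  have := expNegInvGlue.nonneg (1 - t)
  positivity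

theorem pr2_zero {t : ℝ} (ht : 1 < t) : pr2 t = 0 := by
  unfold pr2
  have h : pr1 =ᶠ[𝓝 t] fun _ => 0 := by
    filter_upwards [Ioi_mem_nhds ht] with s hs using pr1_zero (le_of_lt hs)
  rw [h.deriv_eq]
  simp

/-- Lower bound of the profile. -/
noncomputable def b0 : ℝ := expNegInvGlue (3 / 4)

theorem b0_pos : 0 < b0 := expNegInvGlue.pos_of_pos (by norm_num)

theorem pr_ge {t : ℝ} (ht : t ≤ 1 / 4) : b0 ≤ pr t :=
  expNegInvGlue.monotone (by linarith)

theorem pr1_ge {t : ℝ} (ht0 : 0 ≤ t) (ht : t ≤ 1 / 4) : b0 ≤ pr1 t := by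
  unfold pr1
  have h1 : b0 ≤ expNegInvGlue (1 - t) := pr_ge ht
  have h2 : 1 ≤ (1 - t)⁻¹ := by
    rw [one_le_inv₀ (by linarith)]
    linarith
  have h3 : 1 ≤ ((1 - t)⁻¹) ^ 2 := one_le_pow₀ h2
  have := b0_pos
  nlinarith

/-- A radial function. -/
noncomputable def rad (H : ℝ → ℝ) (a : ℝ) (x y : E) : ℝ := H (a * ‖y - x‖ ^ 2)

theorem rad_hasFDerivAt {H H' : ℝ → ℝ} (hH : ∀ t, HasDerivAt H (H' t) t) (a : ℝ) (x y : E) :
    HasFDerivAt (rad H a x) ((2 * a * H' (a * ‖y - x‖ ^ 2)) • innerSL ℝ (y - x)) y := by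
  have h1 : HasFDerivAt (fun y : E => ‖y - x‖ ^ 2) (2 • (innerSL ℝ (y - x))) y := by
    have h2 := (hasStrictFDerivAt_norm_sq (y - x)).hasFDerivAt
    have h3 : HasFDerivAt (fun y : E => y - x) (ContinuousLinearMap.id ℝ E) y :=
      (hasFDerivAt_id y).sub_const x
    have h4 := h2.comp y h3
    rw [ContinuousLinearMap.comp_id] at h4
    exact h4
  have h2 : HasFDerivAt (fun y : E => a * ‖y - x‖ ^ 2) (a • (2 • (innerSL ℝ (y - x)))) y :=
    h1.const_mul a
  have h3 := (hH (a * ‖y - x‖ ^ 2)).comp_hasFDerivAt y h2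
  refine h3.congr_fderiv ?_
  ext v
  simp
  ring

theorem rad_lap {H H' H'' : ℝ → ℝ} (hH : ∀ t, HasDerivAt H (H' t) t)
    (hH' : ∀ t, HasDerivAt H' (H'' t) t) (a : ℝ) (x y : E) :
    Laplacian.laplacian (rad H a x) y = 4 * a * (a * ‖y - x‖ ^ 2) * H'' (a * ‖y - x‖ ^ 2) +
      2 * a * (Module.finrank ℝ E) * H' (a * ‖y - x‖ ^ 2) := by
  obtain ⟨I, hI, hI'⟩ : ∃ I : E →L[ℝ] E →L[ℝ] ℝ, (∀ v w, I v w = inner ℝ v w) ∧
      ∀ v, I v = innerSL ℝ v := ⟨innerSL ℝ, fun v w => rfl, fun v => rfl⟩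
  have h1 : fderiv ℝ (rad H a x) = fun y => (2 * a * H' (a * ‖y - x‖ ^ 2)) • I (y - x) := by
    funext y
    rw [hI']
    exact (rad_hasFDerivAt hH a x y).fderiv
  have h2 : HasFDerivAt (fun y : E => I (y - x)) I y := by
    have h3 : HasFDerivAt (fun y : E => y - x) (ContinuousLinearMap.id ℝ E) y :=
      (hasFDerivAt_id y).sub_const x
    have := I.hasFDerivAt.comp y h3
    rw [ContinuousLinearMap.comp_id] at this
    exact this
  have h3 : HasFDerivAt (fun y : E => 2 * a * H' (a * ‖y - x‖ ^ 2))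
      ((2 * a) • ((2 * a * H'' (a * ‖y - x‖ ^ 2)) • I (y - x))) y := by
    rw [hI']
    exact (rad_hasFDerivAt hH' a x y).const_mul (2 * a)
  have h4 : HasFDerivAt (fun y => (2 * a * H' (a * ‖y - x‖ ^ 2)) • I (y - x)) _ y :=
    h3.smul h2
  rw [lap_eq, h1, h4.fderiv]
  have h5 : ∀ i : Fin (Module.finrank ℝ E),
      ((2 * a * H' (a * ‖y - x‖ ^ 2)) • I +
        ((2 * a) • ((2 * a * H'' (a * ‖y - x‖ ^ 2)) • I (y - x))).smulRight
          (I (y - x))) (stdOrthonormalBasis ℝ E i) (stdOrthonormalBasis ℝ E i) =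
      2 * a * H' (a * ‖y - x‖ ^ 2) + (4 * a ^ 2 * H'' (a * ‖y - x‖ ^ 2)) *
        (inner ℝ (stdOrthonormalBasis ℝ E i) (y - x)) ^ 2 := by
    intro i
    have he : inner ℝ (stdOrthonormalBasis ℝ E i) (stdOrthonormalBasis ℝ E i) = (1 : ℝ) := by
      rw [real_inner_self_eq_norm_sq, (stdOrthonormalBasis ℝ E).norm_eq_one i]
      norm_num
    simp only [_root_.add_apply, _root_.smul_apply, smul_eq_mul,
      ContinuousLinearMap.smulRight_apply, hI, he]
    rw [real_inner_comm (stdOrthonormalBasis ℝ E i) (y - x)]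
    ring
  rw [Finset.sum_congr rfl fun i _ => h5 i, Finset.sum_add_distrib, Finset.sum_const,
    Finset.card_univ, Fintype.card_fin, nsmul_eq_mul, ← Finset.mul_sum]
  have h6 : ∑ i : Fin (Module.finrank ℝ E), (inner ℝ (stdOrthonormalBasis ℝ E i) (y - x)) ^ 2 =
      ‖y - x‖ ^ 2 := by
    have := (stdOrthonormalBasis ℝ E).sum_sq_norm_inner_right (y - x)
    simpa using this
  rw [h6]
  ring

end Pool.Agent.helper26.Env
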