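import Pool.Agent.helper26.Env.Three

/-!
# Riesz measures on open sets; the theorem for three functions
-/

set_option autoImplicit false
set_option linter.unusedSectionVars false

namespace Pool.Agent.helper26.Env

open MeasureTheory Filter Topology Set InnerProductSpace
open scoped ENNReal NNReal

variable {E : Type*} [NormedAddCommGroup E] [InnerProductSpace ℝ E] [FiniteDimensional ℝ E]
  [MeasurableSpace E] [BorelSpace E]

/-- `a` is finite on the compact subsets of `Ω`. -/
def RadonOn (Ω : Set E) (a : Measure E) : Prop := ∀ K ⊆ Ω, IsCompact K → a K < ⊤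

/-- The signed measure `a - b` is at most `P - N` on `Ω`. -/
def SignedLE (Ω : Set E) (a b P N : Measure E) : Prop :=
  ∀ B, MeasurableSet B → B ⊆ Ω → a B + N B ≤ P B + b B

/-- The function `w` is locally integrable on `Ω` and its distributional Laplacian on `Ω` is the
signed Radon measure `P - N`. -/
structure IsRiesz (Ω : Set E) (w : E → ℝ) (P N : Measure E) : Prop where
  locInt : LocallyIntegrableOn w Ω
  finP : RadonOn Ω P
  finN : RadonOn Ω N
  lap : HasLap Ω w P N

theorem integral_restrict_test {G : Set E} {φ : E → ℝ} (hφ : Test G φ) (P : Measure E) :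
    ∫ x in G, φ x ∂P = ∫ x, φ x ∂P :=
  setIntegral_eq_integral_of_forall_compl_eq_zero fun _ hx =>
    image_eq_zero_of_notMem_tsupport fun h' => hx (hφ.sub h')

theorem lap_eq_zero {G : Set E} {φ : E → ℝ} (hφ : Test G φ) {x : E} (hx : x ∉ G) :
    Laplacian.laplacian φ x = 0 := by
  have h1 : x ∉ tsupport φ := fun h => hx (hφ.sub h)
  have h2 : (fun _ => (0 : ℝ)) =ᶠ[𝓝 x] φ := by
    have := notMem_tsupport_iff_eventuallyEq.1 h1
    exact this.symm
  have h3 := (laplacian_congr_nhds h2).self_of_nhds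
  rw [← h3]
  exact congrFun laplacian_const x

/-- Replacing a function by an a.e. equal one. -/
theorem HasLap.congr_ae {G : Set E} {u v : E → ℝ} {P N : Measure E} (h : HasLap G u P N)
    (huv : ∀ᵐ x, x ∈ G → v x = u x) : HasLap G v P N := by
  intro ψ hψ
  rw [← h ψ hψ]
  apply integral_congr_ae
  filter_upwards [huv] with x hx
  by_cases hxG : x ∈ G
  · rw [hx hxG]
  · rw [lap_eq_zero hψ hxG, mul_zero, mul_zero]

/-- A global integrable version of a locally integrable function. -/
theorem exists_version {Ω S : Set E} (hS : IsCompact S) (hSΩ : S ⊆ Ω) {w : E → ℝ}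
    (hw : LocallyIntegrableOn w Ω) :
    ∃ v : E → ℝ, Measurable v ∧ Integrable v ∧ ∀ᵐ x, x ∈ S → v x = w x := by
  have h1 : IntegrableOn w S := hw.integrableOn_compact_subset hSΩ hS
  obtain ⟨g, hgm, hg⟩ := h1.aestronglyMeasurable
  refine ⟨S.indicator g, hgm.measurable.indicator hS.measurableSet, ?_, ?_⟩
  · rw [integrable_indicator_iff hS.measurableSet]
    exact h1.congr hg
  · rw [EventuallyEq, ae_restrict_iff' hS.measurableSet] at hg
    filter_upwards [hg] with x hx hxS
    rw [indicator_of_mem hxS, hx hxS]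

theorem SignedLE.of_compact {Ω : Set E} (hΩ : IsOpen Ω) {a b P N : Measure E}
    (h : ∀ K ⊆ Ω, IsCompact K → ∀ B, MeasurableSet B → B ⊆ K → a B + N B ≤ P B + b B) :
    SignedLE Ω a b P N := by
  intro B hB hBΩ
  obtain ⟨F, hFc, hFΩ, hFU, hFm⟩ := hΩ.exists_iUnion_isClosed
  obtain ⟨K, hK⟩ : ∃ K : ℕ → Set E, K = fun n => F n ∩ Metric.closedBall 0 n := ⟨_, rfl⟩
  have hKm : Monotone K := by
    rw [hK]
    exact fun i j hij => inter_subset_inter (hFm hij)
      (Metric.closedBall_subset_closedBall (by exact_mod_cast hij))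
  have hKc : ∀ n, IsCompact (K n) := fun n => by
    rw [hK]
    exact (isCompact_closedBall _ _).inter_left (hFc n)
  have hKΩ : ∀ n, K n ⊆ Ω := fun n => by
    rw [hK]
    exact inter_subset_left.trans (hFΩ n)
  have hBU : B = ⋃ n, B ∩ K n := by
    apply subset_antisymm
    · intro x hx
      have h1 : x ∈ ⋃ n, F n := by rw [hFU]; exact hBΩ hx
      obtain ⟨n, hn⟩ := mem_iUnion.1 h1
      obtain ⟨k, hk⟩ := exists_nat_ge ‖x‖
      refine mem_iUnion.2 ⟨max n k, hx, ?_⟩
      rw [hK]
      refine ⟨hFm (le_max_left _ _) hn, ?_⟩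
      rw [mem_closedBall_zero_iff]
      exact hk.trans (by exact_mod_cast le_max_right _ _)
    · exact iUnion_subset fun n => inter_subset_left
  have hmono : Monotone fun n => B ∩ K n := fun i j hij => inter_subset_inter_right _ (hKm hij)
  have ht : ∀ μ : Measure E, Tendsto (fun n => μ (B ∩ K n)) atTop (𝓝 (μ B)) := by
    intro μ
    have := tendsto_measure_iUnion_atTop (μ := μ) hmono
    rwa [← hBU] at this
  refine le_of_tendsto_of_tendsto' ((ht a).add (ht N)) ((ht P).add (ht b)) fun n => ?_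
  exact h (K n) (hKΩ n) (hKc n) _ (hB.inter (hKc n).measurableSet) inter_subset_right

/-- Three functions on an open set. -/
theorem three_loc {Ω : Set E} (hΩ : IsOpen Ω) (w : Fin 3 → E → ℝ)
    (hw : ∀ i, LocallyIntegrableOn (w i) Ω) (P N : Fin 3 → Measure E)
    (hlap : ∀ i, IsRiesz Ω (fun x => min (w (i + 1) x) (w (i + 2) x)) (P i) (N i))
    (Pm Nm : Measure E)
    (hlapm : IsRiesz Ω (fun x => min (w 0 x) (min (w 1 x) (w 2 x))) Pm Nm)
    (a b : Measure E) (ha : RadonOn Ω a) (hb : RadonOn Ω b)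
    (hab : ∀ i, SignedLE Ω a b (P i) (N i)) :
    SignedLE Ω a b Pm Nm := by
  refine SignedLE.of_compact hΩ fun K hKΩ hKc B hB hBK => ?_
  obtain ⟨S, hSc, hKS, hSΩ⟩ := exists_compact_between hKc hΩ hKΩ
  obtain ⟨G, hGdef⟩ : ∃ G : Set E, G = interior S := ⟨_, rfl⟩
  have hG : IsOpen G := by rw [hGdef]; exact isOpen_interior
  have hGS : G ⊆ S := by rw [hGdef]; exact interior_subset
  have hGΩ : G ⊆ Ω := hGS.trans hSΩ
  have hKG : K ⊆ G := by rw [hGdef]; exact hKS
  have hfin : ∀ μ : Measure E, RadonOn Ω μ → IsFiniteMeasure (μ.restrict G) := by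
    intro μ hμ
    refine ⟨?_⟩
    rw [Measure.restrict_apply_univ]
    exact (measure_mono hGS).trans_lt (hμ S hSΩ hSc)
  have : ∀ i, IsFiniteMeasure ((P i).restrict G) := fun i => hfin _ (hlap i).finP
  have : ∀ i, IsFiniteMeasure ((N i).restrict G) := fun i => hfin _ (hlap i).finN
  have := hfin _ hlapm.finP
  have := hfin _ hlapm.finN
  have := hfin _ ha
  have := hfin _ hb
  choose v hvm hvi hv using fun i => exists_version hSc hSΩ (hw i)
  have key := three hG v hvm hvi (fun i => (P i).restrict G) (fun i => (N i).restrict G)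
    (fun i => ?_) (Pm.restrict G) (Nm.restrict G) ?_ (a.restrict G) (b.restrict G)
    (fun i D hD hDG => ?_) B hB (hBK.trans hKG)
  · rwa [Measure.restrict_apply hB, Measure.restrict_apply hB, Measure.restrict_apply hB,
      Measure.restrict_apply hB, inter_eq_left.2 (hBK.trans hKG)] at key
  · refine ((hlap i).lap.restrict hGΩ hG.measurableSet).congr_ae ?_
    filter_upwards [hv (i + 1), hv (i + 2)] with x h1 h2 hxG
    rw [h1 (hGS hxG), h2 (hGS hxG)]
  · refine (hlapm.lap.restrict hGΩ hG.measurableSet).congr_ae ?_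
    filter_upwards [hv 0, hv 1, hv 2] with x h0 h1 h2 hxG
    rw [h0 (hGS hxG), h1 (hGS hxG), h2 (hGS hxG)]
  · rw [Measure.restrict_apply hD, Measure.restrict_apply hD, Measure.restrict_apply hD,
      Measure.restrict_apply hD, inter_eq_left.2 hDG]
    exact hab i D hD (hDG.trans hGΩ)

end Pool.Agent.helper26.Env
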