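import Pool.Agent.helper26.Env.Quad

/-!
# From the sub-mean value property to the distributional inequality
-/

set_option autoImplicit false
set_option linter.unusedSectionVars false

namespace Pool.Agent.helper26.Env

open MeasureTheory Filter Topology Set InnerProductSpace
open scoped ENNReal NNReal RealInnerProductSpace ContDiff

variable {E : Type*} [NormedAddCommGroup E] [InnerProductSpace ℝ E] [FiniteDimensional ℝ E]
  [MeasurableSpace E] [BorelSpace E]

theorem uc0 {F : Type*} [NormedAddCommGroup F] {f : E → F} (h1 : Continuous f)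
    (h2 : HasCompactSupport f) {ε : ℝ} (hε : 0 < ε) :
    ∃ δ > 0, ∀ x y, dist x y < δ → ‖f x - f y‖ < ε := by
  obtain ⟨δ, hδ, h⟩ := Metric.uniformContinuous_iff.1 (uc_of_compact h1 h2) ε hε
  exact ⟨δ, hδ, fun x y hxy => by
    rw [← dist_eq_norm]
    exact h hxy⟩

theorem uc' {F : Type*} [NormedAddCommGroup F] [NormedSpace ℝ F] {f : E → (E →L[ℝ] F)}
    (h1 : Continuous f) (h2 : HasCompactSupport f) {ε : ℝ} (hε : 0 < ε) :
    ∃ δ > 0, ∀ x y, dist x y < δ → ‖f x - f y‖ < ε := by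
  exact uc0 h1 h2 hε

theorem uc3 {f : E → ℝ} (h1 : Continuous (fderiv ℝ (fderiv ℝ f)))
    (h2 : HasCompactSupport (fderiv ℝ (fderiv ℝ f))) {ε : ℝ} (hε : 0 < ε) :
    ∃ δ > 0, ∀ x y, dist x y < δ → ‖fderiv ℝ (fderiv ℝ f) x - fderiv ℝ (fderiv ℝ f) y‖ < ε :=
  uc' (f := fderiv ℝ (fderiv ℝ f)) h1 h2 hε

/-- Second order Taylor estimate, uniform in the point and in the direction. -/
theorem sd_uniform' {f : E → ℝ} (hf : ContDiff ℝ 2 f) (hc : HasCompactSupport f) {ε : ℝ}
    (hε : 0 < ε) : ∀ᶠ t in 𝓝[>] (0 : ℝ), ∀ x e : E, ‖e‖ ≤ 1 →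
      |sd f (t • e) x - t ^ 2 * fderiv ℝ (fderiv ℝ f) x e e| ≤ ε * t ^ 2 := by
  have hcont : Continuous (fderiv ℝ (fderiv ℝ f)) :=
      ((hf.fderiv_right (m := 1) (by norm_num)).continuous_fderiv (by norm_num))
  have hc2 : HasCompactSupport (fderiv ℝ (fderiv ℝ f)) := (hc.fderiv ℝ).fderiv ℝ
  obtain ⟨δ, hδ, hδ2⟩ := uc3 hcont hc2 (half_pos hε)
  have h1 : ∀ᶠ t in 𝓝[>] (0 : ℝ), t < δ :=
    (tendsto_id.mono_left nhdsWithin_le_nhds : Tendsto (fun t : ℝ => t) (𝓝[>] 0) (𝓝 0)).eventually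
      (gt_mem_nhds hδ)
  filter_upwards [h1, self_mem_nhdsWithin] with t ht1 ht0 x e he
  have ht0' : (0 : ℝ) < t := ht0
  have h2 := sd_estimate hf x e (t := t) (w := ε / 2) ht0'.le (by
    intro s hs
    have hd : dist (x + s • e) x < δ := by
      rw [dist_eq_norm, add_sub_cancel_left, norm_smul, Real.norm_eq_abs]
      have h3 : |s| ≤ t := abs_le.2 hs
      have h4 : |s| * ‖e‖ ≤ t * 1 := mul_le_mul h3 he (norm_nonneg _) ht0'.le
      linarith
    have h5 := (hδ2 _ _ hd).le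
    have h6 : fderiv ℝ (fderiv ℝ f) (x + s • e) e e - fderiv ℝ (fderiv ℝ f) x e e =
        (fderiv ℝ (fderiv ℝ f) (x + s • e) - fderiv ℝ (fderiv ℝ f) x) e e := by
      simp
    rw [h6, ← Real.norm_eq_abs]
    calc ‖(fderiv ℝ (fderiv ℝ f) (x + s • e) - fderiv ℝ (fderiv ℝ f) x) e e‖
        ≤ ‖fderiv ℝ (fderiv ℝ f) (x + s • e) - fderiv ℝ (fderiv ℝ f) x‖ * ‖e‖ * ‖e‖ :=
          ContinuousLinearMap.le_opNorm₂ _ _ _
      _ ≤ (ε / 2) * 1 * 1 := by gcongr
      _ = ε / 2 := by ring)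
  refine h2.trans (le_of_eq ?_)
  ring

theorem integrable_quad {v φ : E → ℝ} (hv : Integrable v) (hφ : ContDiff ℝ 2 φ)
    (hc : HasCompactSupport φ) (e e' : E) :
    Integrable (fun x => v x * fderiv ℝ (fderiv ℝ φ) x e e') := by
  have hcont : Continuous (fderiv ℝ (fderiv ℝ φ)) :=
      ((hφ.fderiv_right (m := 1) (by norm_num)).continuous_fderiv (by norm_num))
  have hce : Continuous (fun x => fderiv ℝ (fderiv ℝ φ) x e e') :=
    (hcont.clm_apply continuous_const).clm_apply continuous_const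
  have hc2 : HasCompactSupport (fun x => fderiv ℝ (fderiv ℝ φ) x e e') :=
    ((hc.fderiv ℝ).fderiv ℝ).comp_left (g := fun T : E →L[ℝ] E →L[ℝ] ℝ => T e e') rfl
  obtain ⟨C, hC⟩ := hce.bounded_above_of_compact_support hc2
  refine hv.mul_bdd (c := C) hce.aestronglyMeasurable ?_
  filter_upwards with x using hC x

theorem quad_form_expand {v φ : E → ℝ} (hv : Integrable v) (hφ : ContDiff ℝ 2 φ)
    (hc : HasCompactSupport φ) (z : E) :
    ∫ x, v x * fderiv ℝ (fderiv ℝ φ) x z z = ∑ i, ∑ j,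
      (∫ x, v x * fderiv ℝ (fderiv ℝ φ) x (stdOrthonormalBasis ℝ E i)
        (stdOrthonormalBasis ℝ E j)) *
        (⟪stdOrthonormalBasis ℝ E i, z⟫ * ⟪stdOrthonormalBasis ℝ E j, z⟫) := by
  have hint := integrable_quad hv hφ hc
  simp only [← integral_mul_const]
  rw [Finset.sum_congr rfl fun i _ => (integral_finsetSum Finset.univ fun j _ =>
    (hint (stdOrthonormalBasis ℝ E i) (stdOrthonormalBasis ℝ E j)).mul_const _).symm]
  rw [← integral_finsetSum]
  · congr 1
    funext x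
    rw [quad_expand, Finset.mul_sum]
    refine Finset.sum_congr rfl fun i _ => ?_
    rw [Finset.mul_sum]
    refine Finset.sum_congr rfl fun j _ => ?_
    ring
  · intro i _
    exact integrable_finsetSum _ fun j _ =>
      (hint (stdOrthonormalBasis ℝ E i) (stdOrthonormalBasis ℝ E j)).mul_const _

/-- The integrated second derivative as a quadratic form. -/
theorem quad_form {v φ : E → ℝ} (hv : Integrable v) (hφ : ContDiff ℝ 2 φ)
    (hc : HasCompactSupport φ) :
    (Module.finrank ℝ E : ℝ) * ∫ z in Metric.closedBall (0 : E) 1,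
        ∫ x, v x * fderiv ℝ (fderiv ℝ φ) x z z =
      (∫ z in Metric.closedBall (0 : E) 1, ‖z‖ ^ 2) * ∫ x, v x * Laplacian.laplacian φ x := by
  have hint := integrable_quad hv hφ hc
  simp only [quad_form_expand hv hφ hc]
  rw [int_quad]
  congr 1
  rw [← integral_finsetSum]
  · congr 1
    funext x
    rw [lap_eq, Finset.mul_sum]
  · intro i _
    exact hint _ _

end Pool.Agent.helper26.Env
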