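import Pool.Agent.helper26.Env.Mean

/-!
# From the sub-mean value property to the distributional inequality, II
-/

set_option autoImplicit false
set_option linter.unusedSectionVars false

namespace Pool.Agent.helper26.Env

open MeasureTheory Filter Topology Set InnerProductSpace
open scoped ENNReal NNReal RealInnerProductSpace ContDiff

variable {E : Type*} [NormedAddCommGroup E] [InnerProductSpace ℝ E] [FiniteDimensional ℝ E]
  [MeasurableSpace E] [BorelSpace E]

theorem prod_integrable {v φ : E → ℝ} (hv : Integrable v) (hvm : Measurable v)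
    (hφ : Continuous φ) (hc : HasCompactSupport φ) (r : ℝ) (s : Set E) (hs : volume s ≠ ⊤) :
    Integrable (fun p : E × E => φ p.1 * v (p.1 + r • p.2))
      (volume.prod (volume.restrict s)) := by
  have : IsFiniteMeasure (volume.restrict s) := ⟨by
    rw [Measure.restrict_apply_univ]
    exact hs.lt_top⟩
  obtain ⟨C, hC⟩ := hφ.bounded_above_of_compact_support hc
  have hm : Measurable (fun p : E × E => v (p.1 + r • p.2)) :=
    hvm.comp (by fun_prop)
  have h1 : Integrable (fun p : E × E => v (p.1 + r • p.2)) (volume.prod (volume.restrict s)) := by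
    rw [integrable_prod_iff' hm.aestronglyMeasurable]
    constructor
    · filter_upwards with z using hv.comp_add_right (r • z)
    · have h2 : ∀ z : E, ∫ x, ‖v (x + r • z)‖ = ∫ x, ‖v x‖ := fun z =>
        integral_add_right_eq_self (fun x => ‖v x‖) (r • z)
      simp only [h2]
      exact integrable_const _
  refine h1.bdd_mul (c := C) (by fun_prop) ?_
  filter_upwards with p using hC p.1

/-- The sub-mean value inequality, integrated against a test function. -/
theorem submean_int {v φ : E → ℝ} (hv : Integrable v) (hvm : Measurable v)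
    (hφ : Continuous φ) (hc : HasCompactSupport φ) (h0 : ∀ x, 0 ≤ φ x) (r : ℝ)
    (hmean : ∀ᵐ x, φ x ≠ 0 → volume.real (Metric.closedBall (0 : E) 1) * v x ≤
      ∫ z in Metric.closedBall (0 : E) 1, v (x + r • z)) :
    IntegrableOn (fun z => ∫ x, v x * sd φ (r • z) x) (Metric.closedBall (0 : E) 1) ∧
    0 ≤ ∫ z in Metric.closedBall (0 : E) 1, ∫ x, v x * sd φ (r • z) x := by
  obtain ⟨B, hB⟩ : ∃ B : Set E, B = Metric.closedBall (0 : E) 1 := ⟨_, rfl⟩
  rw [← hB]
  rw [← hB] at hmean
  have hBfin : volume B ≠ ⊤ := by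
    rw [hB]
    exact (isCompact_closedBall _ _).measure_ne_top
  have hprod := prod_integrable hv hvm hφ hc r B hBfin
  obtain ⟨C, hC⟩ := hφ.bounded_above_of_compact_support hc
  have hφv : ∀ h : E, Integrable (fun x => φ x * v (x + h)) := fun h =>
    (hv.comp_add_right h).bdd_mul (c := C) hφ.aestronglyMeasurable
      (by filter_upwards with x using hC x)
  -- the inequality for I
  have e1 : volume.real B * ∫ x, φ x * v x ≤ ∫ z in B, ∫ x, φ x * v (x + r • z) := by
    rw [← integral_integral_swap (f := fun x z => φ x * v (x + r • z)) hprod, ← integral_const_mul]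
    refine integral_mono_ae ?_ hprod.integral_prod_left ?_
    · have := (hφv 0).const_mul (volume.real B)
      simpa using this
    · filter_upwards [hmean] with x hx
      rw [integral_const_mul]
      by_cases hx0 : φ x = 0
      · rw [hx0]
        simp
      · have h2 := mul_le_mul_of_nonneg_left (hx hx0) (h0 x)
        linarith
  have hIint : IntegrableOn (fun z => ∫ x, φ x * v (x + r • z)) B := hprod.integral_prod_right
  have e2 : ∫ z in B, ∫ x, φ x * v (x + r • (-z)) = ∫ z in B, ∫ x, φ x * v (x + r • z) := by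
    have := ball_isometry (LinearIsometryEquiv.neg ℝ (E := E)) (fun z => ∫ x, φ x * v (x + r • z))
    rw [hB]
    exact this
  have hIint' : IntegrableOn (fun z => ∫ x, φ x * v (x + r • (-z))) B := by
    have h3 := prod_integrable hv hvm hφ hc (-r) B hBfin
    have h4 := h3.integral_prod_right
    refine h4.congr ?_
    filter_upwards with z
    simp
  have e3 : ∀ z : E, ∫ x, v x * sd φ (r • z) x =
      (∫ x, φ x * v (x + r • z)) + (∫ x, φ x * v (x + r • (-z))) - 2 * ∫ x, φ x * v x := by
    intro z
    have hφc1 : ∀ h : E, Integrable (fun x => φ (x + h) * v x) := fun h => by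
      refine hv.bdd_mul (c := C) (by fun_prop) ?_
      filter_upwards with x using hC _
    have f1 : ∫ x, φ x * v (x + r • z) = ∫ x, φ (x + (-(r • z))) * v x := by
      rw [← integral_add_right_eq_self (fun x => φ (x + (-(r • z))) * v x) (r • z)]
      congr 1
      funext x
      rw [add_neg_cancel_right]
    have f2 : ∫ x, φ x * v (x + r • (-z)) = ∫ x, φ (x + r • z) * v x := by
      rw [← integral_add_right_eq_self (fun x => φ (x + r • z) * v x) (r • (-z))]
      congr 1
      funext x
      rw [smul_neg, neg_add_cancel_right]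
    have f3 : Integrable (fun x => φ x * v x) := by
      have := hφv 0
      simpa using this
    have f4 : Integrable (fun x => φ (x + (-(r • z))) * v x + φ (x + r • z) * v x) :=
      (hφc1 _).add (hφc1 _)
    rw [f1, f2, ← integral_add (hφc1 _) (hφc1 _), ← integral_const_mul,
      ← integral_sub f4 (f3.const_mul 2)]
    congr 1
    funext x
    unfold sd
    rw [← sub_eq_add_neg]
    ring
  simp only [e3]
  have e4 : ∫ z in B, ((∫ x, φ x * v (x + r • z)) + (∫ x, φ x * v (x + r • (-z))) -
      2 * ∫ x, φ x * v x) = (∫ z in B, ∫ x, φ x * v (x + r • z)) +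
      (∫ z in B, ∫ x, φ x * v (x + r • (-z))) - volume.real B * (2 * ∫ x, φ x * v x) := by
    have h5 : Integrable (fun _ : E => 2 * ∫ x, φ x * v x) (volume.restrict B) :=
      integrableOn_const hBfin
    have h6 : Integrable (fun z : E => (∫ x, φ x * v (x + r • z)) +
      ∫ x, φ x * v (x + r • (-z))) (volume.restrict B) := Integrable.add hIint hIint'
    rw [integral_sub h6 h5, integral_add hIint hIint', setIntegral_const, smul_eq_mul]
  refine ⟨?_, ?_⟩
  · have h5 : Integrable (fun _ : E => 2 * ∫ x, φ x * v x) (volume.restrict B) :=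
      integrableOn_const hBfin
    exact (Integrable.add hIint hIint').sub h5
  · rw [e4, e2]
    linarith

/-- A function with the sub-mean value property has nonnegative distributional Laplacian. -/
theorem submean_weak {v φ : E → ℝ} (hv : Integrable v) (hvm : Measurable v)
    (hφ : ContDiff ℝ 2 φ) (hc : HasCompactSupport φ) (h0 : ∀ x, 0 ≤ φ x)
    (hmean : ∀ᶠ r in 𝓝[>] (0 : ℝ), ∀ᵐ x, φ x ≠ 0 →
      volume.real (Metric.closedBall (0 : E) 1) * v x ≤
      ∫ z in Metric.closedBall (0 : E) 1, v (x + r • z)) :
    0 ≤ ∫ x, v x * Laplacian.laplacian φ x := by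
  obtain ⟨V, hV⟩ : ∃ V : ℝ, V = volume.real (Metric.closedBall (0 : E) 1) := ⟨_, rfl⟩
  have hV0 : 0 ≤ V := by rw [hV]; exact measureReal_nonneg
  have hBfin : volume (Metric.closedBall (0 : E) 1) ≠ ⊤ :=
    (isCompact_closedBall _ _).measure_ne_top
  obtain ⟨S, hS⟩ : ∃ S : ℝ, S = ∫ x, |v x| := ⟨_, rfl⟩
  have hS0 : 0 ≤ S := by rw [hS]; exact integral_nonneg fun x => abs_nonneg _
  have hcont : Continuous (fderiv ℝ (fderiv ℝ φ)) :=
      ((hφ.fderiv_right (m := 1) (by norm_num)).continuous_fderiv (by norm_num))
  have hint : ∀ e : E, Integrable (fun x => v x * fderiv ℝ (fderiv ℝ φ) x e e) := by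
    intro e
    have hce : Continuous (fun x => fderiv ℝ (fderiv ℝ φ) x e e) :=
      (hcont.clm_apply continuous_const).clm_apply continuous_const
    have hc2 : HasCompactSupport (fun x => fderiv ℝ (fderiv ℝ φ) x e e) :=
      ((hc.fderiv ℝ).fderiv ℝ).comp_left (g := fun T : E →L[ℝ] E →L[ℝ] ℝ => T e e) rfl
    obtain ⟨C, hC⟩ := hce.bounded_above_of_compact_support hc2
    refine hv.mul_bdd (c := C) hce.aestronglyMeasurable ?_
    filter_upwards with x using hC x
  obtain ⟨C, hC⟩ := hφ.continuous.bounded_above_of_compact_support hc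
  have hsd : ∀ h : E, Integrable (fun x => v x * sd φ h x) := by
    intro h
    have hφc := hφ.continuous
    have hc3 : Continuous (fun x => sd φ h x) := by
      unfold sd
      fun_prop
    refine hv.mul_bdd (c := C + C + 2 * C) hc3.aestronglyMeasurable ?_
    filter_upwards with x
    unfold sd
    refine (norm_sub_le _ _).trans (add_le_add ((norm_add_le _ _).trans
      (add_le_add (hC _) (hC _))) ?_)
    rw [norm_mul]
    have : ‖(2 : ℝ)‖ = 2 := by norm_num
    rw [this]
    exact mul_le_mul_of_nonneg_left (hC x) (by norm_num)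
  obtain ⟨Q, hQ⟩ : ∃ Q : E → ℝ, Q = fun z => ∫ x, v x * fderiv ℝ (fderiv ℝ φ) x z z := ⟨_, rfl⟩
  have hQi : IntegrableOn Q (Metric.closedBall (0 : E) 1) := by
    have h1 : ∀ z : E, Q z = ∑ i, ∑ j,
      (∫ x, v x * fderiv ℝ (fderiv ℝ φ) x (stdOrthonormalBasis ℝ E i)
        (stdOrthonormalBasis ℝ E j)) *
        (⟪stdOrthonormalBasis ℝ E i, z⟫ * ⟪stdOrthonormalBasis ℝ E j, z⟫) := by
      intro z
      rw [hQ]
      exact quad_form_expand hv hφ hc z
    have h2 : Continuous Q := by
      rw [show Q = _ from funext h1]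
      fun_prop
    exact integrableOn_ball h2
  -- the key inequality up to ε
  have hkey : ∀ ε : ℝ, 0 < ε → -(ε * S * V) ≤ ∫ z in Metric.closedBall (0 : E) 1, Q z := by
    intro ε hε
    obtain ⟨r, ⟨hr1, hr2⟩, hr0⟩ := ((hmean.and (sd_uniform' hφ hc hε)).and
      (self_mem_nhdsWithin : ∀ᶠ r in 𝓝[>] (0 : ℝ), r ∈ Ioi (0 : ℝ))).exists
    have hr0' : (0 : ℝ) < r := hr0
    obtain ⟨hi, h1⟩ := submean_int hv hvm hφ.continuous hc h0 r hr1
    have h2 : ∀ z ∈ Metric.closedBall (0 : E) 1,
        ∫ x, v x * sd φ (r • z) x ≤ r ^ 2 * Q z + ε * r ^ 2 * S := by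
      intro z hz
      have hz1 : ‖z‖ ≤ 1 := by simpa using hz
      rw [hQ, hS]
      simp only
      rw [← integral_const_mul, ← integral_const_mul, ← integral_add ((hint z).const_mul _)
        (hv.abs.const_mul _)]
      refine integral_mono (hsd _) (((hint z).const_mul _).add (hv.abs.const_mul _)) fun x => ?_
      have h3 := hr2 x z hz1
      have h4 : v x * (sd φ (r • z) x - r ^ 2 * fderiv ℝ (fderiv ℝ φ) x z z) ≤
          |v x| * (ε * r ^ 2) := by
        refine (le_abs_self _).trans ?_
        rw [abs_mul]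
        exact mul_le_mul_of_nonneg_left h3 (abs_nonneg _)
      nlinarith
    have h5 : ∫ z in Metric.closedBall (0 : E) 1, ∫ x, v x * sd φ (r • z) x ≤
        ∫ z in Metric.closedBall (0 : E) 1, (r ^ 2 * Q z + ε * r ^ 2 * S) := by
      refine setIntegral_mono_on hi ?_ measurableSet_closedBall h2
      exact (hQi.const_mul _).add (integrableOn_const hBfin)
    have h6 : ∫ z in Metric.closedBall (0 : E) 1, (r ^ 2 * Q z + ε * r ^ 2 * S) =
        r ^ 2 * (∫ z in Metric.closedBall (0 : E) 1, Q z) + V * (ε * r ^ 2 * S) := by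
      rw [integral_add (hQi.const_mul _) (integrableOn_const hBfin), integral_const_mul,
        setIntegral_const, smul_eq_mul, hV]
    have h7 : 0 ≤ r ^ 2 * ((∫ z in Metric.closedBall (0 : E) 1, Q z) + ε * S * V) := by
      have := h1.trans (h5.trans h6.le)
      nlinarith
    have h8 := nonneg_of_mul_nonneg_right h7 (by positivity : 0 < r ^ 2)
    linarith
  have hQ0 : 0 ≤ ∫ z in Metric.closedBall (0 : E) 1, Q z := by
    by_contra hcon
    push Not at hcon
    have h1 := hkey (-(∫ z in Metric.closedBall (0 : E) 1, Q z) / (2 * (S * V + 1)))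
      (by
        apply div_pos (by linarith)
        positivity)
    have h2 : 0 ≤ S * V := mul_nonneg hS0 hV0
    have h3 : -(∫ z in Metric.closedBall (0 : E) 1, Q z) / (2 * (S * V + 1)) * S * V ≤
        -(∫ z in Metric.closedBall (0 : E) 1, Q z) / 2 := by
      rw [div_mul_eq_mul_div, div_mul_eq_mul_div, div_le_div_iff₀ (by positivity) (by norm_num)]
      nlinarith
    linarith
  have hfin := quad_form hv hφ hc
  rcases Nat.eq_zero_or_pos (Module.finrank ℝ E) with hn | hn
  · have : ∀ x, Laplacian.laplacian φ x = 0 := by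
      intro x
      rw [lap_eq]
      have : IsEmpty (Fin (Module.finrank ℝ E)) := by
        rw [hn]
        infer_instance
      simp
    simp [this]
  · have hκ := int_norm_sq_pos hn
    have h1 : 0 ≤ (∫ z in Metric.closedBall (0 : E) 1, ‖z‖ ^ 2) *
        ∫ x, v x * Laplacian.laplacian φ x := by
      rw [← hfin]
      rw [hQ] at hQ0
      exact mul_nonneg (by positivity) hQ0
    exact nonneg_of_mul_nonneg_right h1 hκ

end Pool.Agent.helper26.Env
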