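import Pool.Agent.helper26.Env.Exist

/-!
# The order of signed Radon measures, tested on smooth functions
-/

set_option autoImplicit false
set_option linter.unusedSectionVars false

namespace Pool.Agent.helper26.Env

open MeasureTheory Filter Topology Set InnerProductSpace
open scoped ENNReal NNReal

variable {E : Type*} [NormedAddCommGroup E] [InnerProductSpace ℝ E] [FiniteDimensional ℝ E]
  [MeasurableSpace E] [BorelSpace E]

theorem integral_add_radon {Ω : Set E} {a b : Measure E} (ha : RadonOn Ω a) (hb : RadonOn Ω b)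
    {φ : E → ℝ} (hφ : Test Ω φ) : ∫ x, φ x ∂(a + b) = ∫ x, φ x ∂a + ∫ x, φ x ∂b :=
  integral_add_measure (hφ.integrable_radon ha) (hφ.integrable_radon hb)

theorem meas_le_of_test {Ω : Set E} (hΩ : IsOpen Ω) {α β : Measure E} (hα : RadonOn Ω α)
    (hβ : RadonOn Ω β)
    (h : ∀ φ, Test Ω φ → (∀ x, 0 ≤ φ x) → ∫ x, φ x ∂α ≤ ∫ x, φ x ∂β) :
    ∀ K ⊆ Ω, IsCompact K → ∀ B, MeasurableSet B → B ⊆ K → α B ≤ β B := by
  have h1 : ∀ K ⊆ Ω, IsCompact K → α K ≤ β K := by
    intro K hKΩ hK
    obtain ⟨G, S, hG, hS, hKG, hGS, hSΩ⟩ := exists_nhd hΩ hK hKΩ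
    have hβf := hβ.finite_restrict hGS hSΩ hS
    refine ENNReal.le_of_forall_pos_le_add fun ε hε _ => ?_
    obtain ⟨U, hKU, hU, hUβ⟩ := K.exists_isOpen_lt_add (μ := β.restrict G) (measure_ne_top _ _)
      (ε := ε) (by exact_mod_cast hε.ne')
    obtain ⟨φ, hφ, hφ01, hφ1⟩ := exists_cutoff hK (hU.inter hG) (subset_inter hKU hKG)
    have hφΩ : Test Ω φ := hφ.mono (inter_subset_right.trans (hGS.trans hSΩ))
    have h2 := h φ hφΩ (fun x => (hφ01 x).1)
    have h3 : α K ≤ ENNReal.ofReal (∫ x, φ x ∂α) := by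
      rw [ofReal_integral_eq_lintegral_ofReal (hφΩ.integrable_radon hα)
        (by filter_upwards with x using (hφ01 x).1)]
      calc α K = ∫⁻ x in K, 1 ∂α := by rw [setLIntegral_one]
        _ ≤ ∫⁻ x in K, ENNReal.ofReal (φ x) ∂α := by
            refine setLIntegral_mono' hK.measurableSet fun x hx => ?_
            have := hφ1.self_of_nhdsSet x hx
            rw [this, ENNReal.ofReal_one]
        _ ≤ ∫⁻ x, ENNReal.ofReal (φ x) ∂α := setLIntegral_le_lintegral _ _
    have h4 : ENNReal.ofReal (∫ x, φ x ∂β) ≤ β (U ∩ G) := by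
      rw [ofReal_integral_eq_lintegral_ofReal (hφΩ.integrable_radon hβ)
        (by filter_upwards with x using (hφ01 x).1)]
      calc ∫⁻ x, ENNReal.ofReal (φ x) ∂β ≤ ∫⁻ x, (U ∩ G).indicator 1 x ∂β := by
            refine lintegral_mono fun x => ?_
            by_cases hx : x ∈ U ∩ G
            · rw [indicator_of_mem hx]
              exact ENNReal.ofReal_le_one.2 (hφ01 x).2
            · have : φ x = 0 := image_eq_zero_of_notMem_tsupport fun h' => hx (hφ.sub h')
              rw [this, ENNReal.ofReal_zero]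
              exact zero_le
        _ = β (U ∩ G) := lintegral_indicator_one (hU.inter hG).measurableSet
    have h5 : β (U ∩ G) ≤ β K + ε := by
      rw [Measure.restrict_apply hU.measurableSet, Measure.restrict_apply hK.measurableSet,
        inter_eq_left.2 hKG] at hUβ
      exact hUβ.le
    exact h3.trans ((ENNReal.ofReal_le_ofReal h2).trans (h4.trans h5))
  intro K hKΩ hK B hB hBK
  have hαf : IsFiniteMeasure (α.restrict K) := hα.finite_restrict subset_rfl hKΩ hK
  have e1 : (α.restrict K) B = α B := by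
    rw [Measure.restrict_apply hB, inter_eq_left.2 hBK]
  rw [← e1, hB.measure_eq_iSup_isCompact_of_ne_top (measure_ne_top _ _)]
  refine iSup_le fun C => iSup_le fun hCB => iSup_le fun hC => ?_
  rw [Measure.restrict_apply hC.measurableSet, inter_eq_left.2 (hCB.trans hBK)]
  exact (h1 C (hCB.trans (hBK.trans hKΩ)) hC).trans (measure_mono hCB)

/-- The order of signed Radon measures is tested on nonnegative smooth functions. -/
theorem signedLE_iff {Ω : Set E} (hΩ : IsOpen Ω) {a b P N : Measure E} (ha : RadonOn Ω a)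
    (hb : RadonOn Ω b) (hP : RadonOn Ω P) (hN : RadonOn Ω N) :
    SignedLE Ω a b P N ↔ ∀ φ, Test Ω φ → (∀ x, 0 ≤ φ x) →
      ∫ x, φ x ∂a - ∫ x, φ x ∂b ≤ ∫ x, φ x ∂P - ∫ x, φ x ∂N := by
  constructor
  · intro h φ hφ h0
    have h1 : (a + N).restrict Ω ≤ (P + b).restrict Ω := by
      rw [Measure.le_iff]
      intro D hD
      rw [Measure.restrict_apply hD, Measure.restrict_apply hD, Measure.add_apply,
        Measure.add_apply]
      exact h _ (hD.inter hΩ.measurableSet) inter_subset_right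
    have h2 : ∫ x in Ω, φ x ∂(a + N) ≤ ∫ x in Ω, φ x ∂(P + b) :=
      integral_mono_measure h1 (by filter_upwards with x using h0 x)
        (hφ.integrable_radon (hP.add hb)).integrableOn
    rw [integral_restrict_test hφ, integral_restrict_test hφ, integral_add_radon ha hN hφ,
      integral_add_radon hP hb hφ] at h2
    linarith
  · intro h
    refine SignedLE.of_compact hΩ fun K hKΩ hK B hB hBK => ?_
    have h1 := meas_le_of_test hΩ (ha.add hN) (hP.add hb) (fun φ hφ h0 => ?_) K hKΩ hK B hB hBK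
    · rwa [Measure.add_apply, Measure.add_apply] at h1
    · rw [integral_add_radon ha hN hφ, integral_add_radon hP hb hφ]
      have := h φ hφ h0
      linarith

/-- Comparison with the Riesz measure of `w` depends on `w` only. -/
theorem IsRiesz.signedLE_iff {Ω : Set E} (hΩ : IsOpen Ω) {a b P N : Measure E} {w : E → ℝ}
    (ha : RadonOn Ω a) (hb : RadonOn Ω b) (hw : IsRiesz Ω w P N) :
    SignedLE Ω a b P N ↔ ∀ φ, Test Ω φ → (∀ x, 0 ≤ φ x) →
      ∫ x, φ x ∂a - ∫ x, φ x ∂b ≤ ∫ x, w x * Laplacian.laplacian φ x := by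
  rw [Env.signedLE_iff hΩ ha hb hw.finP hw.finN]
  constructor
  · intro h φ hφ h0
    rw [hw.lap φ hφ]
    exact h φ hφ h0
  · intro h φ hφ h0
    rw [← hw.lap φ hφ]
    exact h φ hφ h0

theorem IsRiesz.congr {Ω : Set E} (hΩ : IsOpen Ω) {P N : Measure E} {w w' : E → ℝ}
    (hw : IsRiesz Ω w P N) (h : ∀ᵐ x, x ∈ Ω → w' x = w x) : IsRiesz Ω w' P N := by
  refine ⟨?_, hw.finP, hw.finN, hw.lap.congr_ae h⟩
  intro x hx
  obtain ⟨s, hs, hws⟩ := hw.locInt x hx
  refine ⟨s ∩ Ω, inter_mem hs self_mem_nhdsWithin, ?_⟩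
  refine (hws.mono_set inter_subset_left).congr ?_
  rw [EventuallyEq]
  have h1 : ∀ᵐ y ∂(volume.restrict (s ∩ Ω)), y ∈ Ω := by
    have h2 : (volume.restrict (s ∩ Ω)) Ωᶜ = 0 := by
      rw [Measure.restrict_apply hΩ.measurableSet.compl]
      have : Ωᶜ ∩ (s ∩ Ω) = ∅ := by
        ext y
        simp only [mem_inter_iff, mem_compl_iff, mem_empty_iff_false, iff_false]
        tauto
      rw [this, measure_empty]
    exact mem_ae_iff.2 h2
  filter_upwards [ae_restrict_of_ae h, h1] with y hy hyΩ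
  exact (hy hyΩ).symm

end Pool.Agent.helper26.Env
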