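import Pool.Agent.helper26.Env.WK2

/-!
# Cutoffs, and splitting of distributional inequalities along a Borel set
-/

set_option autoImplicit false
set_option linter.unusedSectionVars false

namespace Pool.Agent.helper26.Env

open MeasureTheory Filter Topology Set InnerProductSpace
open scoped ContDiff Manifold

variable {E : Type*} [NormedAddCommGroup E] [InnerProductSpace ℝ E] [FiniteDimensional ℝ E]
  [MeasurableSpace E] [BorelSpace E]

theorem Test.mono {G G' : Set E} {φ : E → ℝ} (h : Test G φ) (hG : G ⊆ G') : Test G' φ :=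
  ⟨h.smooth, h.comp, h.sub.trans hG⟩

theorem Test.smul_smooth {G : Set E} {φ χ : E → ℝ} (h : Test G φ) (hχ : ContDiff ℝ ∞ χ) :
    Test G (fun x => χ x * φ x) := by
  have hsub : tsupport (fun x => χ x * φ x) ⊆ tsupport φ :=
    closure_mono fun x hx => by
      intro h0
      exact hx (by simp [h0])
  exact ⟨hχ.mul h.smooth, h.comp.mono' (subset_closure.trans hsub), hsub.trans h.sub⟩

theorem Test.integrable_meas {G : Set E} {φ : E → ℝ} (h : Test G φ) (L : Measure E)
    [IsFiniteMeasure L] : Integrable φ L := by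
  obtain ⟨C, hC⟩ := h.smooth.continuous.bounded_above_of_compact_support h.comp
  exact Integrable.of_bound h.smooth.continuous.aestronglyMeasurable C
    (by filter_upwards with x using hC x)

theorem Test.integrable_lap {G : Set E} {φ M : E → ℝ} (h : Test G φ) (hM : Integrable M) :
    Integrable (fun x => M x * Laplacian.laplacian φ x) := by
  have hlapc := continuous_lap h.smooth2
  obtain ⟨C, hC⟩ := hlapc.bounded_above_of_compact_support (hasCompactSupport_lap h.comp)
  refine hM.mul_bdd (c := C) hlapc.aestronglyMeasurable ?_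
  filter_upwards with x using hC _

theorem Test.lap_add {G : Set E} {φ ψ : E → ℝ} (hφ : Test G φ) (hψ : Test G ψ) (x : E) :
    Laplacian.laplacian (fun x => φ x + ψ x) x =
      Laplacian.laplacian φ x + Laplacian.laplacian ψ x :=
  ContDiffAt.laplacian_add hφ.smooth2.contDiffAt hψ.smooth2.contDiffAt

/-- Smooth Urysohn functions. -/
theorem exists_urysohn {K₁ K₂ : Set E} (h1 : IsClosed K₁) (h2 : IsClosed K₂) (hd : Disjoint K₁ K₂) :
    ∃ χ : E → ℝ, ContDiff ℝ ∞ χ ∧ (∀ x, 0 ≤ χ x ∧ χ x ≤ 1) ∧ (∀ x ∈ K₁, χ x = 1) ∧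
      (∀ x ∈ K₂, χ x = 0) := by
  obtain ⟨f, hf0, hf1, hf⟩ := exists_contMDiffMap_zero_one_of_isClosed (n := (⊤ : ℕ∞)) 𝓘(ℝ, E)
    h2 h1 hd.symm
  exact ⟨f, f.contMDiff.contDiff, fun x => hf x, fun x hx => hf1 hx, fun x hx => hf0 hx⟩

/-- Smooth cutoffs. -/
theorem exists_cutoff {K G : Set E} (hK : IsCompact K) (hG : IsOpen G) (hKG : K ⊆ G) :
    ∃ φ : E → ℝ, Test G φ ∧ (∀ x, 0 ≤ φ x ∧ φ x ≤ 1) ∧ (∀ᶠ x in 𝓝ˢ K, φ x = 1) := by
  obtain ⟨S, hS, hKS, hSG⟩ := exists_compact_between hK hG hKG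
  obtain ⟨f, hf1, hf0, hf⟩ := exists_contMDiffMap_one_nhds_of_subset_interior (n := (⊤ : ℕ∞)) 𝓘(ℝ, E)
    hK.isClosed hKS
  have hsupp : Function.support f ⊆ S := by
    intro x hx
    by_contra h
    exact hx (hf0 x h)
  have hts : tsupport f ⊆ S := closure_minimal hsupp hS.isClosed
  exact ⟨f, ⟨f.contMDiff.contDiff, HasCompactSupport.of_support_subset_isCompact hS hsupp,
    hts.trans hSG⟩, fun x => hf x, hf1⟩

/-- `Δ F ≤ L` on `G` in the sense of distributions. -/
def LapLE (G : Set E) (F : E → ℝ) (L : Measure E) : Prop :=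
  ∀ ψ, Test G ψ → (∀ x, 0 ≤ ψ x) → ∫ x, F x * Laplacian.laplacian ψ x ≤ ∫ x, ψ x ∂L

/-- `Δ F = P - N` on `G` in the sense of distributions. -/
def HasLap (G : Set E) (F : E → ℝ) (P N : Measure E) : Prop :=
  ∀ ψ, Test G ψ → ∫ x, F x * Laplacian.laplacian ψ x = ∫ x, ψ x ∂P - ∫ x, ψ x ∂N

theorem LapLE.min {G : Set E} (hG : IsOpen G) {a b : E → ℝ} (ha : Integrable a) (hb : Integrable b)
    {L : Measure E} [IsFiniteMeasure L] (h1 : LapLE G a L) (h2 : LapLE G b L) :
    LapLE G (fun x => min (a x) (b x)) L :=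
  fun _ hψ h0 => wk hG ha hb L h1 h2 hψ h0

/-- Splitting an inequality along a Borel set. -/
theorem LapLE.split {G : Set E} {F : E → ℝ} (hF : Integrable F) {L₁ L₂ : Measure E}
    [IsFiniteMeasure L₁] [IsFiniteMeasure L₂] (h1 : LapLE G F L₁) (h2 : LapLE G F L₂)
    {A : Set E} (hA : MeasurableSet A) {φ : E → ℝ} (hφ : Test G φ) (h0 : ∀ x, 0 ≤ φ x) :
    ∫ x, F x * Laplacian.laplacian φ x ≤ (∫ x in A, φ x ∂L₁) + ∫ x in Aᶜ, φ x ∂L₂ := by
  obtain ⟨C, hC⟩ := hφ.smooth.continuous.bounded_above_of_compact_support hφ.comp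
  have hC0 : 0 ≤ C := (norm_nonneg _).trans (hC 0)
  have hi1 := hφ.integrable_meas L₁
  have hi2 := hφ.integrable_meas L₂
  have main : ∀ δ : ℝ, 0 < δ → ∫ x, F x * Laplacian.laplacian φ x ≤
      (∫ x in A, φ x ∂L₁) + (∫ x in Aᶜ, φ x ∂L₂) + (C * δ + C * δ) := by
    intro δ hδ
    have hδ' : ENNReal.ofReal δ ≠ 0 := by simpa using hδ
    obtain ⟨K₁, hK₁A, hK₁c, hK₁⟩ := hA.exists_isCompact_sdiff_lt (μ := L₂) (measure_ne_top _ _) hδ'
    obtain ⟨K₂, hK₂A, hK₂c, hK₂⟩ :=
      hA.compl.exists_isCompact_sdiff_lt (μ := L₁) (measure_ne_top _ _) hδ'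
    have hd : Disjoint K₁ K₂ := disjoint_compl_right.mono hK₁A hK₂A
    obtain ⟨χ, hχs, hχ, hχ1, hχ0⟩ := exists_urysohn hK₁c.isClosed hK₂c.isClosed hd
    have t1 : Test G (fun x => χ x * φ x) := hφ.smul_smooth hχs
    have t2 : Test G (fun x => (1 - χ x) * φ x) := hφ.smul_smooth (contDiff_const.sub hχs)
    have e1 := h1 _ t1 (fun x => mul_nonneg (hχ x).1 (h0 x))
    have e2 := h2 _ t2 (fun x => mul_nonneg (by linarith [(hχ x).2]) (h0 x))
    have e3 : ∫ x, F x * Laplacian.laplacian φ x =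
        (∫ x, F x * Laplacian.laplacian (fun x => χ x * φ x) x) +
        ∫ x, F x * Laplacian.laplacian (fun x => (1 - χ x) * φ x) x := by
      rw [← integral_add (t1.integrable_lap hF) (t2.integrable_lap hF)]
      congr 1
      funext x
      rw [← mul_add, ← t1.lap_add t2]
      congr 1
      have hfun : φ = fun y => χ y * φ y + (1 - χ y) * φ y := by
        funext y
        ring
      rw [← hfun]
    have i1 := t1.integrable_meas L₁
    have i2 := t2.integrable_meas L₂
    have e4 : ∫ x, χ x * φ x ∂L₁ ≤ (∫ x in A, φ x ∂L₁) + C * δ := by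
      rw [← integral_add_compl hA i1]
      have f1 : ∫ x in A, χ x * φ x ∂L₁ ≤ ∫ x in A, φ x ∂L₁ :=
        integral_mono i1.integrableOn hi1.integrableOn fun x => by
          have := mul_le_mul_of_nonneg_right (hχ x).2 (h0 x)
          simpa using this
      have f2 : ∫ x in Aᶜ, χ x * φ x ∂L₁ ≤ C * δ := by
        have g1 : ∫ x in Aᶜ, χ x * φ x ∂L₁ = ∫ x in Aᶜ \ K₂, χ x * φ x ∂L₁ := by
          refine setIntegral_eq_of_subset_of_forall_sdiff_eq_zero hA.compl Set.sdiff_subset ?_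
          intro x hx
          have : x ∈ K₂ := by
            by_contra h
            exact hx.2 ⟨hx.1, h⟩
          rw [hχ0 x this, zero_mul]
        rw [g1]
        have g2 : ∫ x in Aᶜ \ K₂, χ x * φ x ∂L₁ ≤ ∫ x in Aᶜ \ K₂, C ∂L₁ := by
          refine integral_mono i1.integrableOn (integrable_const _) fun x => ?_
          have b1 := hC x
          rw [Real.norm_eq_abs, abs_le] at b1
          have b2 := mul_le_mul_of_nonneg_right (hχ x).2 (h0 x)
          simp only
          linarith [b1.2]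
        refine g2.trans ?_
        rw [setIntegral_const, smul_eq_mul, mul_comm]
        refine mul_le_mul_of_nonneg_left ?_ hC0
        exact ENNReal.toReal_le_of_le_ofReal hδ.le hK₂.le
      linarith
    have e5 : ∫ x, (1 - χ x) * φ x ∂L₂ ≤ (∫ x in Aᶜ, φ x ∂L₂) + C * δ := by
      rw [← integral_add_compl hA i2]
      have f1 : ∫ x in Aᶜ, (1 - χ x) * φ x ∂L₂ ≤ ∫ x in Aᶜ, φ x ∂L₂ :=
        integral_mono i2.integrableOn hi2.integrableOn fun x => by
          have := mul_nonneg (hχ x).1 (h0 x)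
          simp only
          linarith
      have f2 : ∫ x in A, (1 - χ x) * φ x ∂L₂ ≤ C * δ := by
        have g1 : ∫ x in A, (1 - χ x) * φ x ∂L₂ = ∫ x in A \ K₁, (1 - χ x) * φ x ∂L₂ := by
          refine setIntegral_eq_of_subset_of_forall_sdiff_eq_zero hA Set.sdiff_subset ?_
          intro x hx
          have : x ∈ K₁ := by
            by_contra h
            exact hx.2 ⟨hx.1, h⟩
          rw [hχ1 x this, sub_self, zero_mul]
        rw [g1]
        have g2 : ∫ x in A \ K₁, (1 - χ x) * φ x ∂L₂ ≤ ∫ x in A \ K₁, C ∂L₂ := by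
          refine integral_mono i2.integrableOn (integrable_const _) fun x => ?_
          have b1 := hC x
          rw [Real.norm_eq_abs, abs_le] at b1
          have b2 := mul_nonneg (hχ x).1 (h0 x)
          simp only
          linarith [b1.2]
        refine g2.trans ?_
        rw [setIntegral_const, smul_eq_mul, mul_comm]
        refine mul_le_mul_of_nonneg_left ?_ hC0
        exact ENNReal.toReal_le_of_le_ofReal hδ.le hK₁.le
      linarith
    linarith
  have hlim : Tendsto (fun δ : ℝ => (∫ x in A, φ x ∂L₁) + (∫ x in Aᶜ, φ x ∂L₂) + (C * δ + C * δ))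
      (𝓝[>] 0) (𝓝 ((∫ x in A, φ x ∂L₁) + ∫ x in Aᶜ, φ x ∂L₂)) := by
    have h7 : Tendsto (fun δ : ℝ => (∫ x in A, φ x ∂L₁) + (∫ x in Aᶜ, φ x ∂L₂) + (C * δ + C * δ))
        (𝓝 0) (𝓝 ((∫ x in A, φ x ∂L₁) + (∫ x in Aᶜ, φ x ∂L₂) + (C * 0 + C * 0))) := by
      apply Continuous.tendsto
      fun_prop
    simp only [mul_zero, add_zero] at h7
    exact h7.mono_left nhdsWithin_le_nhds
  refine ge_of_tendsto hlim ?_
  filter_upwards [self_mem_nhdsWithin] with δ hδ
  exact main δ hδ

end Pool.Agent.helper26.Env
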