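import Pool.Agent.helper26.Env.AC
import Pool.Agent.helper26.Env.Split

/-!
# Positive distributions are measures
-/

set_option autoImplicit false
set_option linter.unusedSectionVars false

namespace Pool.Agent.helper26.Env

open MeasureTheory Filter Topology Set InnerProductSpace
open scoped ContDiff CompactlySupported

variable {E : Type*} [NormedAddCommGroup E] [InnerProductSpace ℝ E] [FiniteDimensional ℝ E]
  [MeasurableSpace E] [BorelSpace E]

theorem Test.add {G : Set E} {φ ψ : E → ℝ} (h1 : Test G φ) (h2 : Test G ψ) :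
    Test G (fun x => φ x + ψ x) := by
  refine ⟨h1.smooth.add h2.smooth, h1.comp.add h2.comp, ?_⟩
  exact (tsupport_add φ ψ).trans (union_subset h1.sub h2.sub)

theorem Test.const_mul {G : Set E} {φ : E → ℝ} (h : Test G φ) (c : ℝ) :
    Test G (fun x => c * φ x) := h.smul_smooth contDiff_const

theorem Test.zero {G : Set E} : Test G (fun _ => (0 : ℝ)) := by
  refine ⟨contDiff_const, HasCompactSupport.zero, ?_⟩
  have : tsupport (fun _ : E => (0 : ℝ)) = ∅ := by
    rw [tsupport_eq_empty_iff]
    rfl
  rw [this]
  exact empty_subset _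

open Classical in
/-- Extension by zero of a function on a subtype. -/
noncomputable def extz (Ω : Set E) (f : Ω → ℝ) (x : E) : ℝ := if h : x ∈ Ω then f ⟨x, h⟩ else 0

theorem extz_add (Ω : Set E) (f g : Ω → ℝ) : extz Ω (f + g) = fun x => extz Ω f x + extz Ω g x := by
  funext x
  unfold extz
  split_ifs <;> simp

theorem extz_smul (Ω : Set E) (c : ℝ) (f : Ω → ℝ) : extz Ω (c • f) = fun x => c * extz Ω f x := by
  funext x
  unfold extz
  split_ifs <;> simp

theorem extz_restrict {Ω : Set E} {φ : E → ℝ} (hφ : Test Ω φ) : extz Ω (fun x : Ω => φ x) = φ := by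
  funext x
  unfold extz
  split_ifs with h
  · rfl
  · have : x ∉ tsupport φ := fun h' => h (hφ.sub h')
    exact (image_eq_zero_of_notMem_tsupport this).symm

/-- Restriction of a test function to `Ω` as a compactly supported function. -/
noncomputable def restr {Ω : Set E} {φ : E → ℝ} (hφ : Test Ω φ) : C_c(Ω, ℝ) where
  toFun := fun x => φ x
  continuous_toFun := hφ.smooth.continuous.comp continuous_subtype_val
  hasCompactSupport' := by
    have hK : IsCompact ((fun x : Ω => (x : E)) ⁻¹' (tsupport φ)) := by
      rw [Topology.IsInducing.subtypeVal.isCompact_preimage_iff]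
      · exact hφ.comp
      · rw [Subtype.range_coe]
        exact hφ.sub
    exact HasCompactSupport.of_support_subset_isCompact hK fun x hx => subset_closure hx

/-- **Positive distributions are measures.** -/
theorem exists_measure {Ω : Set E} (hΩ : IsOpen Ω) (T : (E → ℝ) → ℝ)
    (hadd : ∀ φ ψ, Test Ω φ → Test Ω ψ → T (fun x => φ x + ψ x) = T φ + T ψ)
    (hsmul : ∀ (c : ℝ) φ, Test Ω φ → T (fun x => c * φ x) = c * T φ)
    (hpos : ∀ φ, Test Ω φ → (∀ x, 0 ≤ φ x) → 0 ≤ T φ) :
    ∃ N : Measure E, (∀ K ⊆ Ω, IsCompact K → N K < ⊤) ∧ ∀ φ, Test Ω φ → T φ = ∫ x, φ x ∂N := by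
  have : LocallyCompactSpace Ω := hΩ.locallyCompactSpace
  -- the domain
  let D : Submodule ℝ C_c(Ω, ℝ) :=
    { carrier := {f | Test Ω (extz Ω f)}
      add_mem' := fun {f g} hf hg => by
        change Test Ω (extz Ω (f + g : Ω → ℝ))
        rw [extz_add]
        exact Test.add hf hg
      zero_mem' := by
        change Test Ω (extz Ω (0 : Ω → ℝ))
        have : extz Ω (0 : Ω → ℝ) = fun _ => 0 := by
          funext x
          unfold extz
          split_ifs <;> rfl
        rw [this]
        exact Test.zero
      smul_mem' := fun c f hf => by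
        change Test Ω (extz Ω (c • f : Ω → ℝ))
        rw [extz_smul]
        exact Test.const_mul hf c }
  let F : C_c(Ω, ℝ) →ₗ.[ℝ] ℝ :=
    { domain := D
      toFun :=
        { toFun := fun f => T (extz Ω (f : C_c(Ω, ℝ)))
          map_add' := fun f g => by
            change T (extz Ω ((f : C_c(Ω, ℝ)) + (g : C_c(Ω, ℝ)) : Ω → ℝ)) = _
            rw [extz_add]
            exact hadd _ _ f.2 g.2
          map_smul' := fun c f => by
            change T (extz Ω (c • (f : C_c(Ω, ℝ)) : Ω → ℝ)) = _
            rw [extz_smul]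
            exact hsmul c _ f.2 } }
  let s : PointedCone ℝ C_c(Ω, ℝ) :=
    { carrier := {f | ∀ x, 0 ≤ f x}
      add_mem' := fun {f g} hf hg x => add_nonneg (hf x) (hg x)
      zero_mem' := fun x => le_rfl
      smul_mem' := fun c f hf x => mul_nonneg c.2 (hf x) }
  obtain ⟨g, hg1, hg2⟩ := riesz_extension s F (by
    intro f hf
    refine hpos _ f.2 fun x => ?_
    unfold extz
    split_ifs with h
    · exact hf _
    · exact le_rfl) (by
    intro y
    -- a cutoff dominating `-y`
    have hK : IsCompact ((fun x : Ω => (x : E)) '' (tsupport y)) :=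
      y.hasCompactSupport.isCompact.image continuous_subtype_val
    have hKΩ : (fun x : Ω => (x : E)) '' (tsupport y) ⊆ Ω := by
      rintro _ ⟨x, -, rfl⟩
      exact x.2
    obtain ⟨φ, hφ, hφ01, hφ1⟩ := exists_cutoff hK hΩ hKΩ
    obtain ⟨C, hC⟩ := (map_continuous y).bounded_above_of_compact_support y.hasCompactSupport
    have hC0 : 0 ≤ C ∨ IsEmpty Ω := by
      rcases isEmpty_or_nonempty Ω with h | ⟨⟨x⟩⟩
      · right; exact h
      · left; exact (norm_nonneg _).trans (hC x)
    have hmem : Test Ω (extz Ω (restr (hφ.const_mul C))) := by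
      have : extz Ω (restr (hφ.const_mul C)) = fun x => C * φ x := extz_restrict (hφ.const_mul C)
      rw [this]
      exact hφ.const_mul C
    refine ⟨⟨restr (hφ.const_mul C), hmem⟩, fun x => ?_⟩
    change 0 ≤ C * φ x + y x
    have h1 := hC x
    rw [Real.norm_eq_abs, abs_le] at h1
    by_cases hx : x ∈ tsupport y
    · have h2 : φ x = 1 := hφ1.self_of_nhdsSet x ⟨x, hx, rfl⟩
      rw [h2]
      linarith [h1.1]
    · rw [image_eq_zero_of_notMem_tsupport hx]
      rcases hC0 with h | h
      · have := mul_nonneg h (hφ01 x).1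
        linarith
      · exact (h.false x).elim)
  let Λ : C_c(Ω, ℝ) →ₚ[ℝ] ℝ := PositiveLinearMap.mk₀ g (fun f hf => hg2 f fun x => hf x)
  refine ⟨(RealRMK.rieszMeasure Λ).map (fun x : Ω => (x : E)), ?_, ?_⟩
  · intro K hKΩ hK
    rw [Measure.map_apply measurable_subtype_coe hK.measurableSet]
    apply IsCompact.measure_lt_top
    rw [Topology.IsInducing.subtypeVal.isCompact_preimage_iff]
    · exact hK
    · rw [Subtype.range_coe]
      exact hKΩ
  · intro φ hφ
    rw [integral_map measurable_subtype_coe.aemeasurable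
      hφ.smooth.continuous.aestronglyMeasurable]
    have h1 := RealRMK.integral_rieszMeasure Λ (restr hφ)
    have h2 : ∫ x, (restr hφ) x ∂(RealRMK.rieszMeasure Λ) =
      ∫ x : Ω, φ x ∂(RealRMK.rieszMeasure Λ) := rfl
    rw [← h2, h1]
    have hmem : Test Ω (extz Ω (restr hφ)) := by
      have : extz Ω (restr hφ) = φ := extz_restrict hφ
      rw [this]
      exact hφ
    have h3 := hg1 ⟨restr hφ, hmem⟩
    have h4 : F ⟨restr hφ, hmem⟩ = T φ := by
      change T (extz Ω (restr hφ)) = T φ
      have : extz Ω (restr hφ) = φ := extz_restrict hφ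
      rw [this]
    rw [← h4, ← h3]
    rfl

end Pool.Agent.helper26.Env
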