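import Pool.Agent.helper26.Env.Induct

/-!
# Averages of quadratic forms over the unit ball
-/

set_option autoImplicit false
set_option linter.unusedSectionVars false

namespace Pool.Agent.helper26.Env

open MeasureTheory Filter Topology Set InnerProductSpace
open scoped ENNReal NNReal RealInnerProductSpace

variable {E : Type*} [NormedAddCommGroup E] [InnerProductSpace ℝ E] [FiniteDimensional ℝ E]
  [MeasurableSpace E] [BorelSpace E]

theorem ball_isometry (T : E ≃ₗᵢ[ℝ] E) (f : E → ℝ) :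
    ∫ z in Metric.closedBall (0 : E) 1, f (T z) = ∫ z in Metric.closedBall (0 : E) 1, f z := by
  have h1 := (T.measurePreserving).setIntegral_preimage_emb
    T.toHomeomorph.measurableEmbedding f (Metric.closedBall (0 : E) 1)
  rw [← h1]
  congr 2
  ext z
  simp

theorem integrableOn_ball {f : E → ℝ} (hf : Continuous f) :
    IntegrableOn f (Metric.closedBall (0 : E) 1) :=
  hf.continuousOn.integrableOn_compact (isCompact_closedBall _ _)

theorem int_coord_ne {i j : Fin (Module.finrank ℝ E)} (hij : i ≠ j) :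
    ∫ z in Metric.closedBall (0 : E) 1,
      ⟪stdOrthonormalBasis ℝ E i, z⟫ * ⟪stdOrthonormalBasis ℝ E j, z⟫ = 0 := by
  obtain ⟨b, hb⟩ : ∃ b, b = stdOrthonormalBasis ℝ E := ⟨_, rfl⟩
  rw [← hb]
  have h1 := ball_isometry (Submodule.reflection (ℝ ∙ b i)ᗮ) (fun z => ⟪b i, z⟫ * ⟪b j, z⟫)
  have h2 : ∀ z, ⟪b i, (Submodule.reflection (ℝ ∙ b i)ᗮ) z⟫ = -⟪b i, z⟫ := by
    intro z
    rw [← LinearIsometryEquiv.inner_map_map (Submodule.reflection (ℝ ∙ b i)ᗮ)
      (b i) ((Submodule.reflection (ℝ ∙ b i)ᗮ) z), Submodule.reflection_reflection,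
      Submodule.reflection_orthogonalComplement_singleton_eq_neg, inner_neg_left]
  have h3 : ∀ z, ⟪b j, (Submodule.reflection (ℝ ∙ b i)ᗮ) z⟫ = ⟪b j, z⟫ := by
    intro z
    have h4 : (Submodule.reflection (ℝ ∙ b i)ᗮ) (b j) = b j := by
      apply Submodule.reflection_mem_subspace_eq_self
      rw [Submodule.mem_orthogonal_singleton_iff_inner_right]
      exact b.orthonormal.2 hij
    rw [← LinearIsometryEquiv.inner_map_map (Submodule.reflection (ℝ ∙ b i)ᗮ)
      (b j) ((Submodule.reflection (ℝ ∙ b i)ᗮ) z), Submodule.reflection_reflection, h4]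
  simp only [h2, h3, neg_mul] at h1
  rw [integral_neg] at h1
  linarith

theorem int_coord_eq (i j : Fin (Module.finrank ℝ E)) :
    ∫ z in Metric.closedBall (0 : E) 1, ⟪stdOrthonormalBasis ℝ E i, z⟫ ^ 2 =
      ∫ z in Metric.closedBall (0 : E) 1, ⟪stdOrthonormalBasis ℝ E j, z⟫ ^ 2 := by
  obtain ⟨b, hb⟩ : ∃ b, b = stdOrthonormalBasis ℝ E := ⟨_, rfl⟩
  rw [← hb]
  obtain ⟨T, hT⟩ : ∃ T : E ≃ₗᵢ[ℝ] E, T = b.equiv b (Equiv.swap i j) := ⟨_, rfl⟩
  have h1 := ball_isometry T (fun z => ⟪b i, z⟫ ^ 2)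
  have h2 : ∀ z, ⟪b i, T z⟫ = ⟪b j, z⟫ := by
    intro z
    have h3 : T (b j) = b i := by
      rw [hT]
      simp
    rw [← h3, LinearIsometryEquiv.inner_map_map]
  simp only [h2] at h1
  exact h1.symm

theorem int_norm_sq :
    ∫ z in Metric.closedBall (0 : E) 1, ‖z‖ ^ 2 =
      ∑ i, ∫ z in Metric.closedBall (0 : E) 1, ⟪stdOrthonormalBasis ℝ E i, z⟫ ^ 2 := by
  rw [← integral_finsetSum]
  · congr 1
    funext z
    have h := (stdOrthonormalBasis ℝ E).sum_sq_norm_inner_right z
    rw [← h]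
    refine Finset.sum_congr rfl fun i _ => ?_
    rw [Real.norm_eq_abs, sq_abs]
  · intro i _
    exact integrableOn_ball (by fun_prop)

/-- The average of a quadratic form over the unit ball. -/
theorem int_quad (b : Fin (Module.finrank ℝ E) → Fin (Module.finrank ℝ E) → ℝ) :
    (Module.finrank ℝ E : ℝ) * ∫ z in Metric.closedBall (0 : E) 1, ∑ i, ∑ j,
      b i j * (⟪stdOrthonormalBasis ℝ E i, z⟫ * ⟪stdOrthonormalBasis ℝ E j, z⟫) =
      (∫ z in Metric.closedBall (0 : E) 1, ‖z‖ ^ 2) * ∑ i, b i i := by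
  have h2 : ∫ z in Metric.closedBall (0 : E) 1, ∑ i, ∑ j,
      b i j * (⟪stdOrthonormalBasis ℝ E i, z⟫ * ⟪stdOrthonormalBasis ℝ E j, z⟫) = ∑ i, ∑ j,
      b i j * ∫ z in Metric.closedBall (0 : E) 1,
          (⟪stdOrthonormalBasis ℝ E i, z⟫ * ⟪stdOrthonormalBasis ℝ E j, z⟫) := by
    rw [integral_finsetSum]
    · refine Finset.sum_congr rfl fun i _ => ?_
      rw [integral_finsetSum]
      · refine Finset.sum_congr rfl fun j _ => ?_
        rw [integral_const_mul]
      · intro j _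
        exact integrableOn_ball (by fun_prop)
    · intro i _
      exact integrableOn_ball (by fun_prop)
  have h3 : ∀ i, ∑ j, b i j *
        ∫ z in Metric.closedBall (0 : E) 1,
          (⟪stdOrthonormalBasis ℝ E i, z⟫ * ⟪stdOrthonormalBasis ℝ E j, z⟫) =
      b i i * ∫ z in Metric.closedBall (0 : E) 1, ⟪stdOrthonormalBasis ℝ E i, z⟫ ^ 2 := by
    intro i
    rw [Finset.sum_eq_single i]
    · simp only [sq]
    · intro j _ hj
      rw [int_coord_ne hj.symm, mul_zero]
    · intro h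
      exact absurd (Finset.mem_univ i) h
  rw [h2]
  simp only [h3]
  rw [int_norm_sq, Finset.mul_sum, Finset.mul_sum]
  refine Finset.sum_congr rfl fun i _ => ?_
  have h4 : ∑ j, ∫ z in Metric.closedBall (0 : E) 1, ⟪stdOrthonormalBasis ℝ E j, z⟫ ^ 2 =
      (Module.finrank ℝ E : ℝ) *
        ∫ z in Metric.closedBall (0 : E) 1, ⟪stdOrthonormalBasis ℝ E i, z⟫ ^ 2 := by
    rw [Finset.sum_congr rfl fun j _ => int_coord_eq j i, Finset.sum_const, Finset.card_univ,
      Fintype.card_fin, nsmul_eq_mul]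
  rw [h4]
  ring

/-- Expansion of a quadratic form in coordinates. -/
theorem quad_expand (B : E →L[ℝ] E →L[ℝ] ℝ) (z : E) : B z z = ∑ i, ∑ j,
      (B (stdOrthonormalBasis ℝ E i) (stdOrthonormalBasis ℝ E j)) *
        (⟪stdOrthonormalBasis ℝ E i, z⟫ * ⟪stdOrthonormalBasis ℝ E j, z⟫) := by
  conv_lhs => rw [← (stdOrthonormalBasis ℝ E).sum_repr' z]
  simp only [map_sum, map_smul, sum_apply, smul_apply,
    smul_eq_mul, Finset.mul_sum]
  rw [Finset.sum_comm]
  refine Finset.sum_congr rfl fun i _ => Finset.sum_congr rfl fun j _ => ?_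
  ring

theorem int_norm_sq_pos (h : 0 < Module.finrank ℝ E) :
    0 < ∫ z in Metric.closedBall (0 : E) 1, ‖z‖ ^ 2 := by
  have : Nontrivial E := Module.finrank_pos_iff.1 h
  rw [setIntegral_pos_iff_support_of_nonneg_ae]
  · have h1 : Metric.ball (0 : E) 1 \ {0} ⊆
        (Function.support fun z : E => ‖z‖ ^ 2) ∩ Metric.closedBall 0 1 := by
      intro z hz
      refine ⟨?_, Metric.ball_subset_closedBall hz.1⟩
      simpa using hz.2
    refine lt_of_lt_of_le ?_ (measure_mono h1)
    rw [measure_sdiff_null (measure_singleton _)]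
    exact Metric.measure_ball_pos _ _ one_pos
  · filter_upwards with z using by positivity
  · exact integrableOn_ball (by fun_prop)

end Pool.Agent.helper26.Env
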