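import Pool.Agent.helper26.Env.Split

/-!
# The translation argument

Three nonnegative functions with disjoint supports cannot have Laplacians that share a common
nonzero positive part on a Lebesgue null compact set.
-/

set_option autoImplicit false
set_option linter.unusedSectionVars false

namespace Pool.Agent.helper26.Env

open MeasureTheory Filter Topology Set InnerProductSpace
open scoped ContDiff

variable {E : Type*} [NormedAddCommGroup E] [InnerProductSpace ℝ E] [FiniteDimensional ℝ E]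
  [MeasurableSpace E] [BorelSpace E]

theorem int3 {f g k : E → ℝ} (hf : Integrable f) (hg : Integrable g) (hk : Integrable k) :
    ∫ x, (f x + g x + k x) = (∫ x, f x) + (∫ x, g x) + ∫ x, k x := by
  have h : Integrable (fun x => f x + g x) := hf.add hg
  rw [integral_add h hk, integral_add hf hg]

/-- The tripod identity. -/
theorem tripod {a0 a1 a2 b0 b1 b2 : ℝ} (ha0 : 0 ≤ a0) (ha1 : 0 ≤ a1) (ha2 : 0 ≤ a2)
    (hb0 : 0 ≤ b0) (hb1 : 0 ≤ b1) (hb2 : 0 ≤ b2)
    (a01 : a0 = 0 ∨ a1 = 0) (a02 : a0 = 0 ∨ a2 = 0) (a12 : a1 = 0 ∨ a2 = 0)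
    (b01 : b0 = 0 ∨ b1 = 0) (b02 : b0 = 0 ∨ b2 = 0) (b12 : b1 = 0 ∨ b2 = 0) :
    min (a0 + (b1 + b2)) (min (a1 + (b0 + b2)) (a2 + (b0 + b1))) =
      min a0 b0 + min a1 b1 + min a2 b2 := by
  have key : ∀ p q : ℝ, 0 ≤ p → 0 ≤ q → min p (min q q) = min p q := fun p q _ _ => by simp
  rcases a01 with h1 | h1 <;> rcases a02 with h2 | h2 <;> rcases a12 with h3 | h3 <;>
  rcases b01 with h4 | h4 <;> rcases b02 with h5 | h5 <;> rcases b12 with h6 | h6 <;>
  subst_vars <;> simp [*] <;> (try simp [min_comm, *]) <;>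
  (try (rcases le_total a0 b0 with h | h <;> simp [h, *])) <;>
  (try (rcases le_total a1 b1 with h | h <;> simp [h, *])) <;>
  (try (rcases le_total a2 b2 with h | h <;> simp [h, *])) <;>
  (try linarith)

/-- Translated measure. -/
noncomputable def tr (h : E) (P : Measure E) : Measure E := Measure.map (fun x => x - h) P

instance (h : E) (P : Measure E) [IsFiniteMeasure P] : IsFiniteMeasure (tr h P) := by
  unfold tr; infer_instance

theorem tr_apply (h : E) (P : Measure E) {A : Set E} (hA : MeasurableSet A) :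
    tr h P A = P {x | x - h ∈ A} := by
  unfold tr
  rw [Measure.map_apply (by fun_prop) hA]
  rfl

theorem integral_tr (h : E) (P : Measure E) (ψ : E → ℝ) (hψ : Continuous ψ) :
    ∫ x, ψ x ∂(tr h P) = ∫ x, ψ (x - h) ∂P := by
  unfold tr
  rw [integral_map (by fun_prop) hψ.aestronglyMeasurable]

/-- The set where both `x` and `x + h` lie in `G`. -/
def shiftSet (G : Set E) (h : E) : Set E := {x | x ∈ G ∧ x + h ∈ G}

theorem shiftSet_open {G : Set E} (hG : IsOpen G) (h : E) : IsOpen (shiftSet G h) :=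
  hG.inter (hG.preimage (by fun_prop : Continuous fun x : E => x + h))

theorem Test.shift {G : Set E} {ψ : E → ℝ} {h : E} (hψ : Test (shiftSet G h) ψ) :
    Test G (fun x => ψ (x - h)) := by
  have hts : tsupport (fun x => ψ (x - h)) ⊆ (fun x => x - h) ⁻¹' (tsupport ψ) := by
    apply closure_minimal
    · intro x hx
      exact subset_closure hx
    · exact (isClosed_tsupport ψ).preimage (by fun_prop)
  refine ⟨hψ.smooth.comp (contDiff_id.sub contDiff_const), ?_, ?_⟩
  · exact hψ.comp.comp_homeomorph (Homeomorph.subRight h)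
  · intro x hx
    have h1 := hψ.sub (hts hx)
    have h2 := h1.2
    simpa using h2

theorem HasLap.shift {G : Set E} {u : E → ℝ} {P N : Measure E} (hu : HasLap G u P N) (h : E) :
    HasLap (shiftSet G h) (fun x => u (x + h)) (tr h P) (tr h N) := by
  intro ψ hψ
  have h1 := hu _ hψ.shift
  rw [integral_tr h P ψ hψ.smooth.continuous, integral_tr h N ψ hψ.smooth.continuous, ← h1,
    ← integral_add_right_eq_self (fun x => u x * Laplacian.laplacian (fun x => ψ (x - h)) x) h]
  congr 1
  funext x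
  have h2 : Laplacian.laplacian (fun x => ψ (x - h)) (x + h) = Laplacian.laplacian ψ x := by
    have := lap_comp_add (φ := ψ) (x + h) (-h)
    simp only [← sub_eq_add_neg, add_sub_cancel_right] at this
    exact this
  rw [h2]

theorem HasLap.mono {G G' : Set E} {u : E → ℝ} {P N : Measure E} (hu : HasLap G u P N)
    (h : G' ⊆ G) : HasLap G' u P N := fun ψ hψ => hu ψ (hψ.mono h)

theorem HasLap.add {G : Set E} {u v : E → ℝ} {P N P' N' : Measure E} [IsFiniteMeasure P]
    [IsFiniteMeasure N] [IsFiniteMeasure P'] [IsFiniteMeasure N'] (hui : Integrable u)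
    (hvi : Integrable v) (hu : HasLap G u P N) (hv : HasLap G v P' N') :
    HasLap G (fun x => u x + v x) (P + P') (N + N') := by
  intro ψ hψ
  simp only [add_mul]
  rw [integral_add (hψ.integrable_lap hui) (hψ.integrable_lap hvi), hu ψ hψ, hv ψ hψ,
    integral_add_measure (hψ.integrable_meas P) (hψ.integrable_meas P'),
    integral_add_measure (hψ.integrable_meas N) (hψ.integrable_meas N')]
  ring

theorem HasLap.le {G : Set E} {u : E → ℝ} {P N L : Measure E} [IsFiniteMeasure L]
    (hu : HasLap G u P N) (hL : P ≤ L) : LapLE G u L := by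
  intro ψ hψ h0
  rw [hu ψ hψ]
  have h1 : 0 ≤ ∫ x, ψ x ∂N := integral_nonneg h0
  have h2 : ∫ x, ψ x ∂P ≤ ∫ x, ψ x ∂L :=
    integral_mono_measure hL (by filter_upwards with x using h0 x) (hψ.integrable_meas L)
  linarith

theorem tr_mono {h : E} {P Q : Measure E} (hPQ : P ≤ Q) : tr h P ≤ tr h Q :=
  Measure.map_mono hPQ (by fun_prop)

theorem tr_add (h : E) (P Q : Measure E) : tr h (P + Q) = tr h P + tr h Q :=
  Measure.map_add P Q (by fun_prop)

theorem tr_smul (h : E) (c : NNReal) (P : Measure E) : tr h (c • P) = c • tr h P :=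
  Measure.map_smul c P _

theorem tr_real_univ (h : E) (P : Measure E) : (tr h P).real univ = P.real univ := by
  unfold Measure.real
  rw [tr_apply h P MeasurableSet.univ]
  simp

/-- The bounding measure. -/
noncomputable def bd (c : NNReal) (α β R : Measure E) : Measure E := (c • α + (c • β + c • β)) + R

theorem bd_le {c : NNReal} {h : E} {P₀ P₁ P₂ R₀ R₁ R₂ σ : Measure E} (h0 : P₀ ≤ c • σ + R₀)
    (h1 : P₁ ≤ c • σ + R₁) (h2 : P₂ ≤ c • σ + R₂) :
    P₀ + (tr h P₁ + tr h P₂) ≤ bd c σ (tr h σ) (R₀ + R₁ + R₂ + tr h (R₀ + R₁ + R₂)) := by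
  have e1 : tr h P₁ ≤ c • tr h σ + tr h R₁ := by
    have := tr_mono (h := h) h1
    rwa [tr_add, tr_smul] at this
  have e2 : tr h P₂ ≤ c • tr h σ + tr h R₂ := by
    have := tr_mono (h := h) h2
    rwa [tr_add, tr_smul] at this
  unfold bd
  calc P₀ + (tr h P₁ + tr h P₂) ≤ (c • σ + R₀) + ((c • tr h σ + tr h R₁) + (c • tr h σ + tr h R₂)) :=
        add_le_add h0 (add_le_add e1 e2)
    _ ≤ (c • σ + R₀) + ((c • tr h σ + tr h R₁) + (c • tr h σ + tr h R₂)) + (R₁ + R₂ + tr h R₀) :=
        Measure.le_add_right le_rfl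
    _ = c • σ + (c • tr h σ + c • tr h σ) + (R₀ + R₁ + R₂ + tr h (R₀ + R₁ + R₂)) := by
        rw [tr_add, tr_add]
        abel

theorem bd_le' {c : NNReal} {h : E} {P₀ P₁ P₂ R₀ R₁ R₂ σ : Measure E} (h0 : P₀ ≤ c • σ + R₀)
    (h1 : P₁ ≤ c • σ + R₁) (h2 : P₂ ≤ c • σ + R₂) :
    tr h P₀ + (P₁ + P₂) ≤ bd c (tr h σ) σ (R₀ + R₁ + R₂ + tr h (R₀ + R₁ + R₂)) := by
  have e1 : tr h P₀ ≤ c • tr h σ + tr h R₀ := by
    have := tr_mono (h := h) h0
    rwa [tr_add, tr_smul] at this
  unfold bd
  calc tr h P₀ + (P₁ + P₂) ≤ (c • tr h σ + tr h R₀) + ((c • σ + R₁) + (c • σ + R₂)) :=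
        add_le_add e1 (add_le_add h1 h2)
    _ ≤ (c • tr h σ + tr h R₀) + ((c • σ + R₁) + (c • σ + R₂)) + (R₀ + (tr h R₁ + tr h R₂)) :=
        Measure.le_add_right le_rfl
    _ = c • tr h σ + (c • σ + c • σ) + (R₀ + R₁ + R₂ + tr h (R₀ + R₁ + R₂)) := by
        rw [tr_add, tr_add]
        abel

/-- For a Lebesgue null compact `K` and a finite measure `σ`, almost every translate of `K` is
`σ`-null. -/
theorem ae_shift_null {K : Set E} (hK : IsCompact K) (hK0 : volume K = 0) (σ : Measure E)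
    [IsFiniteMeasure σ] : ∀ᵐ h : E, σ {x | x + h ∈ K} = 0 := by
  have hm : MeasurableSet {p : E × E | p.2 + p.1 ∈ K} :=
    hK.measurableSet.preimage (by fun_prop)
  have h1 : (volume.prod σ) {p : E × E | p.2 + p.1 ∈ K} = 0 := by
    rw [Measure.prod_apply_symm hm]
    have : ∀ x : E, volume ((fun h : E => (h, x)) ⁻¹' {p : E × E | p.2 + p.1 ∈ K}) = 0 := by
      intro x
      have e : (fun h : E => (h, x)) ⁻¹' {p : E × E | p.2 + p.1 ∈ K} = (fun h => x + h) ⁻¹' K := rfl
      rw [e, measure_preimage_add, hK0]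
    rw [lintegral_congr this]
    simp
  have h2 := (Measure.measure_prod_null hm).1 h1
  filter_upwards [h2] with h hh
  exact hh

/-- **The translation argument.** -/
theorem core_shift {G : Set E} (hG : IsOpen G) {K : Set E} (hK : IsCompact K) (hKG : K ⊆ G)
    (hK0 : volume K = 0) (u : Fin 3 → E → ℝ) (hui : ∀ i, Integrable (u i))
    (hu0 : ∀ i x, 0 ≤ u i x) (hdisj : ∀ i j, i ≠ j → ∀ x, u i x = 0 ∨ u j x = 0)
    (P N R : Fin 3 → Measure E) [∀ i, IsFiniteMeasure (P i)] [∀ i, IsFiniteMeasure (N i)]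
    [∀ i, IsFiniteMeasure (R i)] (hlap : ∀ i, HasLap G (u i) (P i) (N i))
    (σ : Measure E) [IsFiniteMeasure σ] (hσK : σ Kᶜ = 0) (hσ0 : 0 < σ.real univ)
    (h1 : ∀ i, σ ≤ P i) (c : NNReal) (hc : (c : ℝ) ≤ 9 / 8) (h2 : ∀ i, P i ≤ c • σ + R i)
    (hR : ∀ i, (R i).real univ ≤ σ.real univ / 64) (hN : ∀ i, (N i).real univ ≤ σ.real univ / 64) :
    False := by
  -- cutoff
  obtain ⟨φ, hφ, hφ01, hφ1⟩ := exists_cutoff hK hG hKG
  obtain ⟨U, hU, hKU, hUφ⟩ : ∃ U, IsOpen U ∧ K ⊆ U ∧ ∀ x ∈ U, φ x = 1 := by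
    obtain ⟨U, hU, hKU, h⟩ := eventually_nhdsSet_iff_exists.1 hφ1
    exact ⟨U, hU, hKU, h⟩
  obtain ⟨r, hr, hrU⟩ := hK.exists_thickening_subset_open hU hKU
  obtain ⟨r', hr', hrG⟩ := hφ.comp.isCompact.exists_thickening_subset_open hG hφ.sub
  obtain ⟨C, hC⟩ := (continuous_lap hφ.smooth2).bounded_above_of_compact_support
    (hasCompactSupport_lap hφ.comp)
  have hC0 : 0 ≤ C := (norm_nonneg _).trans (hC 0)
  set s := σ.real univ with hs
  -- choice of the translation
  have ht : ∀ᶠ h in 𝓝 (0 : E), ∀ i : Fin 3, ∫ x, |u i (x + h) - u i x| < s / (6 * (C + 1)) :=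
    eventually_all.2 fun i => (tendsto_translate (u i) (hui i)).eventually (gt_mem_nhds (by positivity))
  obtain ⟨r'', hr'', ht''⟩ := Metric.eventually_nhds_iff.1 ht
  have hball : volume (Metric.ball (0 : E) (min (min r r') r'')) ≠ 0 :=
    (Metric.measure_ball_pos volume 0 (by positivity)).ne'
  obtain ⟨h, hhball, hgood⟩ : ∃ h ∈ Metric.ball (0 : E) (min (min r r') r''),
      σ {x | x + h ∈ K} = 0 := by
    have := ae_shift_null hK hK0 σ
    by_contra hcon
    push Not at hcon
    apply hball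
    have h3 : Metric.ball (0 : E) (min (min r r') r'') ⊆ {h : E | ¬ σ {x | x + h ∈ K} = 0} := hcon
    exact measure_mono_null h3 this
  rw [Metric.mem_ball, dist_zero_right] at hhball
  have hhr : ‖h‖ < r := hhball.trans_le ((min_le_left _ _).trans (min_le_left _ _))
  have hhr' : ‖h‖ < r' := hhball.trans_le ((min_le_left _ _).trans (min_le_right _ _))
  have hhr'' : dist h 0 < r'' := by
    rw [dist_zero_right]
    exact hhball.trans_le (min_le_right _ _)
  have hsmall := ht'' hhr''
  -- the translated functions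
  obtain ⟨v, hv⟩ : ∃ v : Fin 3 → E → ℝ, v = fun i x => u i (x + h) := ⟨_, rfl⟩
  have hvi : ∀ i, Integrable (v i) := fun i => by rw [hv]; exact (hui i).comp_add_right h
  have hv0 : ∀ i x, 0 ≤ v i x := fun i x => by rw [hv]; exact hu0 i _
  have hvlap : ∀ i, HasLap (shiftSet G h) (v i) (tr h (P i)) (tr h (N i)) := fun i => by
    rw [hv]; exact (hlap i).shift h
  have hulap : ∀ i, HasLap (shiftSet G h) (u i) (P i) (N i) := fun i =>
    (hlap i).mono fun x hx => hx.1
  have hG' := shiftSet_open hG h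
  have hφ' : Test (shiftSet G h) φ := by
    refine ⟨hφ.smooth, hφ.comp, fun x hx => ⟨hφ.sub hx, ?_⟩⟩
    apply hrG
    rw [Metric.mem_thickening_iff]
    exact ⟨x, hx, by rw [dist_eq_norm, add_sub_cancel_left]; exact hhr'⟩
  -- the function M
  obtain ⟨M, hM⟩ : ∃ M : E → ℝ, M = fun x => min (u 0 x) (v 0 x) + min (u 1 x) (v 1 x) +
    min (u 2 x) (v 2 x) := ⟨_, rfl⟩
  have hMi : Integrable M := by
    rw [hM]
    exact (((hui 0).inf (hvi 0)).add ((hui 1).inf (hvi 1))).add ((hui 2).inf (hvi 2))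
  set RR := R 0 + R 1 + R 2 + tr h (R 0 + R 1 + R 2) with hRR
  have hfin1 : IsFiniteMeasure (bd c σ (tr h σ) RR) := by
    unfold bd; infer_instance
  have hfin2 : IsFiniteMeasure (bd c (tr h σ) σ RR) := by
    unfold bd; infer_instance
  have hvd : ∀ i j, i ≠ j → ∀ x, v i x = 0 ∨ v j x = 0 := fun i j hij x => by
    rw [hv]; exact hdisj i j hij _
  have hM1 : M = fun x => min (u 0 x + (v 1 x + v 2 x)) (min (u 1 x + (v 0 x + v 2 x))
      (u 2 x + (v 0 x + v 1 x))) := by
    rw [hM]
    funext x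
    exact (tripod (hu0 0 x) (hu0 1 x) (hu0 2 x) (hv0 0 x) (hv0 1 x) (hv0 2 x)
      (hdisj 0 1 (by decide) x) (hdisj 0 2 (by decide) x) (hdisj 1 2 (by decide) x)
      (hvd 0 1 (by decide) x) (hvd 0 2 (by decide) x) (hvd 1 2 (by decide) x)).symm
  have hM2 : M = fun x => min (v 0 x + (u 1 x + u 2 x)) (min (v 1 x + (u 0 x + u 2 x))
      (v 2 x + (u 0 x + u 1 x))) := by
    rw [hM]
    funext x
    have := (tripod (hv0 0 x) (hv0 1 x) (hv0 2 x) (hu0 0 x) (hu0 1 x) (hu0 2 x)
      (hvd 0 1 (by decide) x) (hvd 0 2 (by decide) x) (hvd 1 2 (by decide) x)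
      (hdisj 0 1 (by decide) x) (hdisj 0 2 (by decide) x) (hdisj 1 2 (by decide) x)).symm
    rw [← this, min_comm (v 0 x), min_comm (v 1 x), min_comm (v 2 x)]
  have hL1 : LapLE (shiftSet G h) M (bd c σ (tr h σ) RR) := by
    rw [hM1]
    have f0 : LapLE (shiftSet G h) (fun x => u 0 x + (v 1 x + v 2 x)) (bd c σ (tr h σ) RR) :=
      ((hulap 0).add (hui 0) ((hvi 1).add (hvi 2)) ((hvlap 1).add (hvi 1) (hvi 2) (hvlap 2))).le
        (bd_le (h2 0) (h2 1) (h2 2))
    have f1 : LapLE (shiftSet G h) (fun x => u 1 x + (v 0 x + v 2 x)) (bd c σ (tr h σ) RR) := by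
      refine ((hulap 1).add (hui 1) ((hvi 0).add (hvi 2))
        ((hvlap 0).add (hvi 0) (hvi 2) (hvlap 2))).le ?_
      have := bd_le (h := h) (h2 1) (h2 0) (h2 2)
      rwa [add_comm (R 1) (R 0)] at this
    have f2 : LapLE (shiftSet G h) (fun x => u 2 x + (v 0 x + v 1 x)) (bd c σ (tr h σ) RR) := by
      refine ((hulap 2).add (hui 2) ((hvi 0).add (hvi 1))
        ((hvlap 0).add (hvi 0) (hvi 1) (hvlap 1))).le ?_
      have := bd_le (h := h) (h2 2) (h2 0) (h2 1)
      rwa [show R 2 + R 0 + R 1 = R 0 + R 1 + R 2 by abel] at this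
    exact LapLE.min hG' ((hui 0).add ((hvi 1).add (hvi 2)))
      (((hui 1).add ((hvi 0).add (hvi 2))).inf ((hui 2).add ((hvi 0).add (hvi 1)))) f0
      (LapLE.min hG' ((hui 1).add ((hvi 0).add (hvi 2))) ((hui 2).add ((hvi 0).add (hvi 1))) f1 f2)
  have hL2 : LapLE (shiftSet G h) M (bd c (tr h σ) σ RR) := by
    rw [hM2]
    have f0 : LapLE (shiftSet G h) (fun x => v 0 x + (u 1 x + u 2 x)) (bd c (tr h σ) σ RR) :=
      ((hvlap 0).add (hvi 0) ((hui 1).add (hui 2)) ((hulap 1).add (hui 1) (hui 2) (hulap 2))).le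
        (bd_le' (h2 0) (h2 1) (h2 2))
    have f1 : LapLE (shiftSet G h) (fun x => v 1 x + (u 0 x + u 2 x)) (bd c (tr h σ) σ RR) := by
      refine ((hvlap 1).add (hvi 1) ((hui 0).add (hui 2))
        ((hulap 0).add (hui 0) (hui 2) (hulap 2))).le ?_
      have := bd_le' (h := h) (h2 1) (h2 0) (h2 2)
      rwa [add_comm (R 1) (R 0)] at this
    have f2 : LapLE (shiftSet G h) (fun x => v 2 x + (u 0 x + u 1 x)) (bd c (tr h σ) σ RR) := by
      refine ((hvlap 2).add (hvi 2) ((hui 0).add (hui 1))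
        ((hulap 0).add (hui 0) (hui 1) (hulap 1))).le ?_
      have := bd_le' (h := h) (h2 2) (h2 0) (h2 1)
      rwa [show R 2 + R 0 + R 1 = R 0 + R 1 + R 2 by abel] at this
    exact LapLE.min hG' ((hvi 0).add ((hui 1).add (hui 2)))
      (((hvi 1).add ((hui 0).add (hui 2))).inf ((hvi 2).add ((hui 0).add (hui 1)))) f0
      (LapLE.min hG' ((hvi 1).add ((hui 0).add (hui 2))) ((hvi 2).add ((hui 0).add (hui 1))) f1 f2)
  -- upper bound for the Laplacian of M
  obtain ⟨A, hA⟩ : ∃ A : Set E, A = {x | x + h ∉ K} := ⟨_, rfl⟩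
  have hAm : MeasurableSet A := by
    rw [hA]
    exact (hK.measurableSet.compl).preimage (by fun_prop : Measurable fun x : E => x + h)
  have hAc : Aᶜ = {x | x + h ∈ K} := by
    rw [hA]
    ext x
    simp
  have hup := hL1.split hMi hL2 hAm hφ' (fun x => (hφ01 x).1)
  have b1 : ∫ x in A, φ x ∂(bd c σ (tr h σ) RR) ≤ (bd c σ (tr h σ) RR).real A := by
    have : ∫ x in A, φ x ∂(bd c σ (tr h σ) RR) ≤ ∫ x in A, 1 ∂(bd c σ (tr h σ) RR) :=
      integral_mono (hφ.integrable_meas _).integrableOn (integrable_const _) fun x => (hφ01 x).2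
    simpa using this
  have b2 : ∫ x in Aᶜ, φ x ∂(bd c (tr h σ) σ RR) ≤ (bd c (tr h σ) σ RR).real Aᶜ := by
    have : ∫ x in Aᶜ, φ x ∂(bd c (tr h σ) σ RR) ≤ ∫ x in Aᶜ, 1 ∂(bd c (tr h σ) σ RR) :=
      integral_mono (hφ.integrable_meas _).integrableOn (integrable_const _) fun x => (hφ01 x).2
    simpa using this
  have hσtrA : (tr h σ).real A = 0 := by
    unfold Measure.real
    rw [tr_apply h σ hAm, hA]
    have : {x | x - h ∈ {x | x + h ∉ K}} = Kᶜ := by
      ext x
      simp
    rw [this, hσK]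
    simp
  have hσAc : σ.real Aᶜ = 0 := by
    unfold Measure.real
    rw [hAc, hgood]
    simp
  have b3 : (bd c σ (tr h σ) RR).real A = c * σ.real A + RR.real A := by
    unfold bd
    rw [measureReal_add_apply, measureReal_add_apply, measureReal_add_apply,
      measureReal_nnreal_smul_apply, measureReal_nnreal_smul_apply, hσtrA]
    ring
  have b4 : (bd c (tr h σ) σ RR).real Aᶜ = c * (tr h σ).real Aᶜ + RR.real Aᶜ := by
    unfold bd
    rw [measureReal_add_apply, measureReal_add_apply, measureReal_add_apply,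
      measureReal_nnreal_smul_apply, measureReal_nnreal_smul_apply, hσAc]
    ring
  have b5 : σ.real A ≤ s := measureReal_mono (subset_univ _)
  have b6 : (tr h σ).real Aᶜ ≤ s := by
    rw [hs, ← tr_real_univ h σ]
    exact measureReal_mono (subset_univ _)
  have b7 : RR.real A + RR.real Aᶜ ≤ 6 * (s / 64) := by
    rw [measureReal_add_measureReal_compl hAm, hRR, tr_add, tr_add]
    rw [measureReal_add_apply, measureReal_add_apply, measureReal_add_apply,
      measureReal_add_apply, measureReal_add_apply, tr_real_univ, tr_real_univ, tr_real_univ]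
    have := hR 0
    have := hR 1
    have := hR 2
    linarith
  have hupper : ∫ x, M x * Laplacian.laplacian φ x ≤ 2 * (9 / 8) * s + 6 * (s / 64) := by
    have c0 : (0 : ℝ) ≤ c := c.2
    have c1 : (c : ℝ) * σ.real A ≤ 9 / 8 * s :=
      mul_le_mul hc b5 measureReal_nonneg (by norm_num)
    have c2 : (c : ℝ) * (tr h σ).real Aᶜ ≤ 9 / 8 * s :=
      mul_le_mul hc b6 measureReal_nonneg (by norm_num)
    rw [b3] at b1
    rw [b4] at b2
    linarith
  -- lower bound for the Laplacians of u and v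
  have hφh : ∀ x ∈ K, φ x = 1 ∧ φ (x - h) = 1 := by
    intro x hx
    refine ⟨hUφ x (hKU hx), hUφ _ (hrU ?_)⟩
    rw [Metric.mem_thickening_iff]
    exact ⟨x, hx, by rw [dist_eq_norm, show x - h - x = -h by abel, norm_neg]; exact hhr⟩
  have hσae : ∀ᵐ x ∂σ, x ∈ K := by
    rw [ae_iff]
    exact hσK
  have hlow_u : ∀ i, s - s / 64 ≤ ∫ x, u i x * Laplacian.laplacian φ x := by
    intro i
    rw [hlap i φ hφ]
    have d1 : ∫ x, φ x ∂σ = s := by
      have : ∫ x, φ x ∂σ = ∫ x, 1 ∂σ := by
        apply integral_congr_ae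
        filter_upwards [hσae] with x hx using (hφh x hx).1
      rw [this]
      simp [hs, Measure.real]
    have d2 : ∫ x, φ x ∂σ ≤ ∫ x, φ x ∂(P i) :=
      integral_mono_measure (h1 i) (by filter_upwards with x using (hφ01 x).1)
        (hφ.integrable_meas _)
    have d3 : ∫ x, φ x ∂(N i) ≤ (N i).real univ := by
      have : ∫ x, φ x ∂(N i) ≤ ∫ x, 1 ∂(N i) :=
        integral_mono (hφ.integrable_meas _) (integrable_const _) fun x => (hφ01 x).2
      simpa using this
    have := hN i
    linarith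
  have hlow_v : ∀ i, s - s / 64 ≤ ∫ x, v i x * Laplacian.laplacian φ x := by
    intro i
    rw [hvlap i φ hφ', integral_tr _ _ _ hφ.smooth.continuous,
      integral_tr _ _ _ hφ.smooth.continuous]
    have hφs := hφ'.shift
    have d1 : ∫ x, φ (x - h) ∂σ = s := by
      have : ∫ x, φ (x - h) ∂σ = ∫ x, 1 ∂σ := by
        apply integral_congr_ae
        filter_upwards [hσae] with x hx using (hφh x hx).2
      rw [this]
      simp [hs, Measure.real]
    have d2 : ∫ x, φ (x - h) ∂σ ≤ ∫ x, φ (x - h) ∂(P i) :=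
      integral_mono_measure (h1 i) (by filter_upwards with x using (hφ01 _).1)
        (hφs.integrable_meas _)
    have d3 : ∫ x, φ (x - h) ∂(N i) ≤ (N i).real univ := by
      have : ∫ x, φ (x - h) ∂(N i) ≤ ∫ x, 1 ∂(N i) :=
        integral_mono (hφs.integrable_meas _) (integrable_const _) fun x => (hφ01 _).2
      simpa using this
    have := hN i
    linarith
  -- the distance function
  have hD : ∀ i, ∫ x, |v i x - u i x| * |Laplacian.laplacian φ x| ≤ s / 6 := by
    intro i
    have e0 : Integrable (fun x => |v i x - u i x|) := ((hvi i).sub (hui i)).abs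
    have e1 : ∫ x, |v i x - u i x| * |Laplacian.laplacian φ x| ≤ ∫ x, |v i x - u i x| * C := by
      refine integral_mono ?_ (e0.mul_const C) fun x => ?_
      · refine e0.mul_bdd (c := C) (continuous_lap hφ.smooth2).abs.aestronglyMeasurable ?_
        filter_upwards with x
        simpa using hC x
      · exact mul_le_mul_of_nonneg_left (by simpa using hC x) (abs_nonneg _)
    rw [integral_mul_const] at e1
    have e2 : ∫ x, |v i x - u i x| < s / (6 * (C + 1)) := by
      have := hsmall i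
      rw [hv]
      exact this
    have e3 : s / (6 * (C + 1)) * C ≤ s / 6 := by
      rw [div_mul_eq_mul_div, div_le_div_iff₀ (by positivity) (by positivity)]
      nlinarith
    have e4 : (∫ x, |v i x - u i x|) * C ≤ s / (6 * (C + 1)) * C :=
      mul_le_mul_of_nonneg_right e2.le hC0
    linarith
  have hI : ∀ i, Integrable (fun x => |v i x - u i x| * |Laplacian.laplacian φ x|) := by
    intro i
    have e0 : Integrable (fun x => |v i x - u i x|) := ((hvi i).sub (hui i)).abs
    refine e0.mul_bdd (c := C) (continuous_lap hφ.smooth2).abs.aestronglyMeasurable ?_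
    filter_upwards with x
    simpa using hC x
  have hfinal : (∫ x, u 0 x * Laplacian.laplacian φ x) + (∫ x, u 1 x * Laplacian.laplacian φ x) +
      (∫ x, u 2 x * Laplacian.laplacian φ x) + (∫ x, v 0 x * Laplacian.laplacian φ x) +
      (∫ x, v 1 x * Laplacian.laplacian φ x) + (∫ x, v 2 x * Laplacian.laplacian φ x) -
      2 * (∫ x, M x * Laplacian.laplacian φ x) ≤
      (∫ x, |v 0 x - u 0 x| * |Laplacian.laplacian φ x|) +
      (∫ x, |v 1 x - u 1 x| * |Laplacian.laplacian φ x|) +
      (∫ x, |v 2 x - u 2 x| * |Laplacian.laplacian φ x|) := by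
    have iu := fun i => hφ.integrable_lap (hui i)
    have iv := fun i => hφ.integrable_lap (hvi i)
    have iM := hφ.integrable_lap hMi
    have g6 := iM.const_mul 2
    have gu : Integrable (fun x => u 0 x * Laplacian.laplacian φ x +
        u 1 x * Laplacian.laplacian φ x + u 2 x * Laplacian.laplacian φ x) :=
      ((iu 0).add (iu 1)).add (iu 2)
    have gv : Integrable (fun x => v 0 x * Laplacian.laplacian φ x +
        v 1 x * Laplacian.laplacian φ x + v 2 x * Laplacian.laplacian φ x) :=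
      ((iv 0).add (iv 1)).add (iv 2)
    have guv : Integrable (fun x => (u 0 x * Laplacian.laplacian φ x +
        u 1 x * Laplacian.laplacian φ x + u 2 x * Laplacian.laplacian φ x) +
        (v 0 x * Laplacian.laplacian φ x +
        v 1 x * Laplacian.laplacian φ x + v 2 x * Laplacian.laplacian φ x)) := gu.add gv
    have k2 : Integrable (fun x => |v 0 x - u 0 x| * |Laplacian.laplacian φ x| +
        |v 1 x - u 1 x| * |Laplacian.laplacian φ x| +
        |v 2 x - u 2 x| * |Laplacian.laplacian φ x|) := ((hI 0).add (hI 1)).add (hI 2)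
    have lhs : (∫ x, u 0 x * Laplacian.laplacian φ x) + (∫ x, u 1 x * Laplacian.laplacian φ x) +
      (∫ x, u 2 x * Laplacian.laplacian φ x) + (∫ x, v 0 x * Laplacian.laplacian φ x) +
      (∫ x, v 1 x * Laplacian.laplacian φ x) + (∫ x, v 2 x * Laplacian.laplacian φ x) -
      2 * (∫ x, M x * Laplacian.laplacian φ x) =
      ∫ x, ((u 0 x * Laplacian.laplacian φ x +
        u 1 x * Laplacian.laplacian φ x + u 2 x * Laplacian.laplacian φ x) +
        (v 0 x * Laplacian.laplacian φ x +
        v 1 x * Laplacian.laplacian φ x + v 2 x * Laplacian.laplacian φ x) -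
        2 * (M x * Laplacian.laplacian φ x)) := by
      rw [integral_sub guv g6, integral_add gu gv, int3 (iu 0) (iu 1) (iu 2),
        int3 (iv 0) (iv 1) (iv 2), integral_const_mul]
      ring
    rw [lhs, ← int3 (hI 0) (hI 1) (hI 2)]
    refine integral_mono (guv.sub g6) k2 fun x => ?_
    simp only
    have hm : ∀ a b : ℝ, a + b - 2 * min a b = |b - a| := by
      intro a b
      rcases le_total a b with hab | hab
      · rw [min_eq_left hab, abs_of_nonneg (by linarith)]
        ring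
      · rw [min_eq_right hab, abs_of_nonpos (by linarith)]
        ring
    have e1 : u 0 x * Laplacian.laplacian φ x + u 1 x * Laplacian.laplacian φ x +
        u 2 x * Laplacian.laplacian φ x + (v 0 x * Laplacian.laplacian φ x +
        v 1 x * Laplacian.laplacian φ x + v 2 x * Laplacian.laplacian φ x) -
        2 * (M x * Laplacian.laplacian φ x) =
        (|v 0 x - u 0 x| + |v 1 x - u 1 x| + |v 2 x - u 2 x|) * Laplacian.laplacian φ x := by
      rw [← hm (u 0 x) (v 0 x), ← hm (u 1 x) (v 1 x), ← hm (u 2 x) (v 2 x), hM]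
      ring
    rw [e1]
    have e2 : (|v 0 x - u 0 x| + |v 1 x - u 1 x| + |v 2 x - u 2 x|) * Laplacian.laplacian φ x ≤
        (|v 0 x - u 0 x| + |v 1 x - u 1 x| + |v 2 x - u 2 x|) * |Laplacian.laplacian φ x| :=
      mul_le_mul_of_nonneg_left (le_abs_self _) (by positivity)
    linarith
  have := hlow_u 0
  have := hlow_u 1
  have := hlow_u 2
  have := hlow_v 0
  have := hlow_v 1
  have := hlow_v 2
  have := hD 0
  have := hD 1
  have := hD 2
  linarith

end Pool.Agent.helper26.Env
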