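import Pool.Agent.helper26.Env.Core2

/-!
# Three functions, global version
-/

set_option autoImplicit false
set_option linter.unusedSectionVars false

namespace Pool.Agent.helper26.Env

open MeasureTheory Filter Topology Set InnerProductSpace
open scoped ENNReal NNReal

variable {E : Type*} [NormedAddCommGroup E] [InnerProductSpace ℝ E] [FiniteDimensional ℝ E]
  [MeasurableSpace E] [BorelSpace E]

theorem HasLap.neg {G : Set E} {u : E → ℝ} {P N : Measure E} (h : HasLap G u P N) :
    HasLap G (fun x => - u x) N P := by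
  intro ψ hψ
  have h1 : ∫ x, -u x * Laplacian.laplacian ψ x = - ∫ x, u x * Laplacian.laplacian ψ x := by
    rw [← integral_neg]
    congr 1
    funext x
    ring
  rw [h1, h ψ hψ]
  ring

/-- Three functions, with all data global. -/
theorem three {G : Set E} (hG : IsOpen G) (w : Fin 3 → E → ℝ) (hwm : ∀ i, Measurable (w i))
    (hwi : ∀ i, Integrable (w i)) (P N : Fin 3 → Measure E) [∀ i, IsFiniteMeasure (P i)]
    [∀ i, IsFiniteMeasure (N i)]
    (hlap : ∀ i, HasLap G (fun x => min (w (i + 1) x) (w (i + 2) x)) (P i) (N i))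
    (Pm Nm : Measure E) [IsFiniteMeasure Pm] [IsFiniteMeasure Nm]
    (hlapm : HasLap G (fun x => min (w 0 x) (min (w 1 x) (w 2 x))) Pm Nm)
    (a b : Measure E) [IsFiniteMeasure a] [IsFiniteMeasure b]
    (hab : ∀ i, ∀ B, MeasurableSet B → B ⊆ G → a B + N i B ≤ P i B + b B) :
    ∀ B, MeasurableSet B → B ⊆ G → a B + Nm B ≤ Pm B + b B := by
  obtain ⟨α, hα⟩ : ∃ α : Measure E, α = a + Nm := ⟨_, rfl⟩
  obtain ⟨β, hβ⟩ : ∃ β : Measure E, β = Pm + b := ⟨_, rfl⟩
  have hαf : IsFiniteMeasure α := by rw [hα]; infer_instance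
  have hβf : IsFiniteMeasure β := by rw [hβ]; infer_instance
  obtain ⟨s, hs, hs1, hs2⟩ := exists_isHahnDecomposition β α
  obtain ⟨A, hA⟩ : ∃ A : Set E, A = s ∩ G := ⟨_, rfl⟩
  have hAm : MeasurableSet A := by rw [hA]; exact hs.inter hG.measurableSet
  have hAG : A ⊆ G := by rw [hA]; exact inter_subset_right
  have hAs : A ⊆ s := by rw [hA]; exact inter_subset_left
  have hle : β.restrict A ≤ α.restrict A := by
    rw [Measure.le_iff]
    intro D hD
    rw [Measure.restrict_apply hD, Measure.restrict_apply hD]
    have h1 := hs1 (D ∩ A)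
    rwa [Measure.restrict_apply (hD.inter hAm), Measure.restrict_apply (hD.inter hAm),
      inter_eq_left.2 (inter_subset_right.trans hAs)] at h1
  obtain ⟨ν, hν⟩ : ∃ ν : Measure E, ν = α.restrict A - β.restrict A := ⟨_, rfl⟩
  have hνf : IsFiniteMeasure ν := by rw [hν]; infer_instance
  have hνadd : ν + β.restrict A = α.restrict A := by
    rw [hν]
    exact Measure.sub_add_cancel_of_le hle
  have hνB : ∀ B, MeasurableSet B → B ⊆ A → ν B + β B = α B := by
    intro B hB hBA
    have h1 : (ν + β.restrict A) B = (α.restrict A) B := by rw [hνadd]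
    rwa [Measure.add_apply, Measure.restrict_apply hB, Measure.restrict_apply hB,
      inter_eq_left.2 hBA] at h1
  -- the core
  have hν0 : ν A = 0 := by
    have hwI : ∀ i, Integrable (fun x => min (w (i + 1) x) (w (i + 2) x)) := fun i =>
      (hwi _).inf (hwi _)
    have hWI : Integrable (fun x => min (w 0 x) (min (w 1 x) (w 2 x))) :=
      (hwi 0).inf ((hwi 1).inf (hwi 2))
    refine core hG hAm hAG
      (fun i x => min (w (i + 1) x) (w (i + 2) x) + -(min (w 0 x) (min (w 1 x) (w 2 x))))
      (fun i => ?_) (fun i => (hwI i).add hWI.neg) (fun i x => ?_) (fun i j hij x => ?_)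
      (fun i => P i + Nm) (fun i => N i + Pm)
      (fun i => (hlap i).add (hwI i) hWI.neg hlapm.neg) ν (fun i B hB hBA => ?_)
    · exact ((hwm _).min (hwm _)).add ((hwm 0).min ((hwm 1).min (hwm 2))).neg
    · have : min (w 0 x) (min (w 1 x) (w 2 x)) ≤ min (w (i + 1) x) (w (i + 2) x) := by
        refine le_min ?_ ?_ <;> fin_cases i <;> simp
      linarith
    · have key : ∀ i : Fin 3, min (w (i + 1) x) (w (i + 2) x) +
          -(min (w 0 x) (min (w 1 x) (w 2 x))) ≠ 0 → ∀ k, k ≠ i → w i x < w k x := by
        intro i hi k hk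
        have h0 : min (w 0 x) (min (w 1 x) (w 2 x)) = min (w i x) (min (w (i + 1) x) (w (i + 2) x)) := by
          fin_cases i
          · rfl
          · change min (w 0 x) (min (w 1 x) (w 2 x)) = min (w 1 x) (min (w 2 x) (w 0 x))
            rw [min_comm (w 0 x), min_assoc]
          · change min (w 0 x) (min (w 1 x) (w 2 x)) = min (w 2 x) (min (w 0 x) (w 1 x))
            rw [← min_assoc, min_comm]
        rw [h0] at hi
        have h1 : w i x < min (w (i + 1) x) (w (i + 2) x) := by
          by_contra hcon
          push Not at hcon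
          apply hi
          rw [min_eq_right hcon]
          ring
        have h2 : k = i + 1 ∨ k = i + 2 :=
          (by decide : ∀ i k : Fin 3, k ≠ i → k = i + 1 ∨ k = i + 2) i k hk
        rcases h2 with rfl | rfl
        · exact h1.trans_le (min_le_left _ _)
        · exact h1.trans_le (min_le_right _ _)
      by_contra hcon
      push Not at hcon
      have h1 := key i hcon.1 j hij.symm
      have h2 := key j hcon.2 i hij
      exact absurd h1 (not_lt.2 h2.le)
    · have h1 := hνB B hB hBA
      have h2 := hab i B hB (hBA.trans hAG)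
      rw [hα, hβ, Measure.add_apply, Measure.add_apply] at h1
      rw [Measure.add_apply, Measure.add_apply]
      have h3 : (ν B + (N i B + Pm B)) + b B ≤ (P i B + Nm B) + b B := by
        calc (ν B + (N i B + Pm B)) + b B = (ν B + (Pm B + b B)) + N i B := by ring
          _ = (a B + N i B) + Nm B := by rw [h1]; ring
          _ ≤ (P i B + b B) + Nm B := by gcongr
          _ = (P i B + Nm B) + b B := by ring
      exact (ENNReal.add_le_add_iff_right (measure_ne_top _ _)).1 h3
  intro B hB hBG
  have h1 : α B ≤ β B := by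
    have e1 : α (B ∩ s) = β (B ∩ s) := by
      have hBs : B ∩ s ⊆ A := by
        rw [hA]
        exact fun x hx => ⟨hx.2, hBG hx.1⟩
      rw [← hνB (B ∩ s) (hB.inter hs) hBs, measure_mono_null hBs hν0, zero_add]
    have e2 : α (B \ s) ≤ β (B \ s) := by
      have h3 := hs2 (B \ s)
      rwa [Measure.restrict_apply (hB.diff hs), Measure.restrict_apply (hB.diff hs),
        inter_eq_left.2 (fun x hx => hx.2)] at h3
    rw [← measure_inter_add_sdiff B hs, ← measure_inter_add_sdiff (μ := β) B hs, e1]
    gcongr
  rwa [hα, hβ, Measure.add_apply, Measure.add_apply] at h1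

end Pool.Agent.helper26.Env
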