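import Pool.Agent.helper26.Env.Basic

/-!
# Weak Kato inequality

If `Δ a ≤ L` and `Δ b ≤ L` in the sense of distributions on an open set `G`, where `L` is a finite
positive measure, then `Δ (min a b) ≤ L` there.
-/

set_option autoImplicit false
set_option linter.unusedSectionVars false

namespace Pool.Agent.helper26.Env

open MeasureTheory Filter Topology Set InnerProductSpace
open scoped ContDiff

variable {E : Type*} [NormedAddCommGroup E] [InnerProductSpace ℝ E] [FiniteDimensional ℝ E]
  [MeasurableSpace E] [BorelSpace E]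

/-- Test functions on `G`. -/
structure Test (G : Set E) (φ : E → ℝ) : Prop where
  smooth : ContDiff ℝ ∞ φ
  comp : HasCompactSupport φ
  sub : tsupport φ ⊆ G

theorem Test.smooth2 {G : Set E} {φ : E → ℝ} (h : Test G φ) : ContDiff ℝ 2 φ :=
  contDiff_infty.1 h.smooth 2

/-- The Laplacian of a `C²` function is continuous. -/
theorem continuous_lap {φ : E → ℝ} (h : ContDiff ℝ 2 φ) :
    Continuous (Laplacian.laplacian φ : E → ℝ) := by
  have h1 : (Laplacian.laplacian φ : E → ℝ) = fun x =>
    ∑ i, fderiv ℝ (fderiv ℝ φ) x (stdOrthonormalBasis ℝ E i) (stdOrthonormalBasis ℝ E i) := by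
    funext x
    exact lap_eq φ x
  rw [h1]
  have h2 : Continuous (fderiv ℝ (fderiv ℝ φ)) :=
    ((h.fderiv_right (m := 1) (by norm_num)).continuous_fderiv (by norm_num))
  exact continuous_finsetSum _ fun i _ => (h2.clm_apply continuous_const).clm_apply continuous_const

theorem lap_zero_of_notMem {φ : E → ℝ} {x : E} (hx : x ∉ tsupport φ) :
    Laplacian.laplacian φ x = 0 := by
  rw [lap_eq]
  apply Finset.sum_eq_zero
  intro i _
  have h1 : x ∉ tsupport (fderiv ℝ (fderiv ℝ φ)) :=
    fun h => hx (tsupport_fderiv_subset ℝ (tsupport_fderiv_subset ℝ h))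
  rw [image_eq_zero_of_notMem_tsupport h1]
  simp

theorem hasCompactSupport_lap {φ : E → ℝ} (hc : HasCompactSupport φ) :
    HasCompactSupport (Laplacian.laplacian φ : E → ℝ) :=
  hc.mono' fun x hx => by
    by_contra h
    exact hx (lap_zero_of_notMem h)

/-- Reflecting and translating a function. -/
theorem lap_comp_sub {φ : E → ℝ} (h : ContDiff ℝ 2 φ) (x y : E) :
    Laplacian.laplacian (fun y => φ (x - y)) y = Laplacian.laplacian φ (x - y) := by
  have hd1 : Differentiable ℝ φ := h.differentiable (by norm_num)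
  have hd2 : Differentiable ℝ (fderiv ℝ φ) :=
    (h.fderiv_right (m := 1) (by norm_num)).differentiable (by norm_num)
  have hs : ∀ y : E, HasFDerivAt (fun y : E => x - y) (-ContinuousLinearMap.id ℝ E) y :=
    fun y => (hasFDerivAt_id y).const_sub x
  have h1 : fderiv ℝ (fun y => φ (x - y)) = fun y => -(fderiv ℝ φ (x - y)) := by
    funext y
    have h2 := (hd1 (x - y)).hasFDerivAt.comp y (hs y)
    rw [show (fun y => φ (x - y)) = φ ∘ (fun y => x - y) from rfl, h2.fderiv]
    ext v
    simp
  have h3 : ∀ y, fderiv ℝ (fun y => -(fderiv ℝ φ (x - y))) y = fderiv ℝ (fderiv ℝ φ) (x - y) := by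
    intro y
    have h2 := ((hd2 (x - y)).hasFDerivAt.comp y (hs y)).neg
    have h4 : (fun y => -(fderiv ℝ φ (x - y))) = -(fderiv ℝ φ ∘ (fun y => x - y)) := rfl
    rw [h4, h2.fderiv]
    ext v w
    simp
  rw [lap_eq, lap_eq, h1, h3]

/-- Translating a function. -/
theorem lap_comp_add {φ : E → ℝ} (x h : E) :
    Laplacian.laplacian (fun y => φ (y + h)) x = Laplacian.laplacian φ (x + h) := by
  rw [lap_eq, lap_eq]
  have h1 : fderiv ℝ (fun y => φ (y + h)) = fun y => fderiv ℝ φ (y + h) := by
    funext y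
    exact fderiv_comp_add_right h
  rw [h1]
  have h2 : fderiv ℝ (fun y => fderiv ℝ φ (y + h)) x = fderiv ℝ (fderiv ℝ φ) (x + h) :=
    fderiv_comp_add_right h
  rw [h2]

/-- Summation by parts for the discrete Laplacian. -/
theorem integral_mul_dlap {M ψ : E → ℝ} (hM : Integrable M) (hψ : Continuous ψ)
    (hc : HasCompactSupport ψ) (t : ℝ) :
    ∫ x, M x * dlap t ψ x = ∫ x, dlap t M x * ψ x := by
  obtain ⟨C, hC⟩ := hψ.bounded_above_of_compact_support hc
  have hi : ∀ v w : E, Integrable (fun x => M (x + v) * ψ (x + w)) := by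
    intro v w
    have h1 : Integrable (fun x => M (x + v)) := hM.comp_add_right v
    refine h1.mul_bdd (c := C) (by fun_prop) ?_
    filter_upwards with x using hC _
  have hi0 : ∀ w : E, Integrable (fun x => M x * ψ (x + w)) := by
    intro w
    simpa using hi 0 w
  have hi1 : ∀ v : E, Integrable (fun x => M (x + v) * ψ x) := by
    intro v
    simpa using hi v 0
  have key : ∀ v : E, ∫ x, M x * ψ (x + v) = ∫ x, M (x - v) * ψ x := by
    intro v
    rw [← integral_add_right_eq_self (fun x => M (x - v) * ψ x) v]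
    simp
  have hsd : ∀ v : E, ∫ x, M x * sd ψ v x = ∫ x, sd M v x * ψ x := by
    intro v
    have e1 : ∫ x, M x * sd ψ v x = (∫ x, M x * ψ (x + v)) + (∫ x, M x * ψ (x - v)) -
        2 * ∫ x, M x * ψ x := by
      rw [← integral_add (hi0 v) (by simpa [sub_eq_add_neg] using hi0 (-v)),
        ← integral_const_mul, ← integral_sub]
      · apply integral_congr_ae
        filter_upwards with x
        simp only [sd]
        ring
      · exact (hi0 v).add (by simpa [sub_eq_add_neg] using hi0 (-v))
      · exact (by simpa using hi0 0 : Integrable (fun x => M x * ψ x)).const_mul 2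
    have e2 : ∫ x, sd M v x * ψ x = (∫ x, M (x + v) * ψ x) + (∫ x, M (x - v) * ψ x) -
        2 * ∫ x, M x * ψ x := by
      rw [← integral_add (hi1 v) (by simpa [sub_eq_add_neg] using hi1 (-v)),
        ← integral_const_mul, ← integral_sub]
      · apply integral_congr_ae
        filter_upwards with x
        simp only [sd]
        ring
      · exact (hi1 v).add (by simpa [sub_eq_add_neg] using hi1 (-v))
      · exact (by simpa using hi0 0 : Integrable (fun x => M x * ψ x)).const_mul 2
    have e3 := key v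
    have e4 := key (-v)
    simp only [← sub_eq_add_neg, sub_neg_eq_add] at e4
    rw [e1, e2, e3, e4]
    ring
  have hint1 : ∀ v : E, Integrable (fun x => M x * sd ψ v x) := by
    intro v
    have h1 : (fun x => M x * sd ψ v x) = fun x => (M x * ψ (x + v) + M x * ψ (x + (-v))) -
        2 * (M x * ψ (x + 0)) := by
      funext x
      simp only [sd, add_zero, sub_eq_add_neg]
      ring
    rw [h1]
    exact ((hi0 v).add (hi0 (-v))).sub ((hi0 0).const_mul 2)
  have hint2 : ∀ v : E, Integrable (fun x => sd M v x * ψ x) := by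
    intro v
    have h1 : (fun x => sd M v x * ψ x) = fun x => (M (x + v) * ψ x + M (x + (-v)) * ψ x) -
        2 * (M (x + 0) * ψ x) := by
      funext x
      simp only [sd, add_zero, sub_eq_add_neg]
      ring
    rw [h1]
    exact ((hi1 v).add (hi1 (-v))).sub ((hi1 0).const_mul 2)
  simp only [dlap, Finset.mul_sum, Finset.sum_mul]
  rw [integral_finsetSum _ fun i _ => hint1 _, integral_finsetSum _ fun i _ => hint2 _]
  exact Finset.sum_congr rfl fun i _ => hsd _

theorem integrable_dlap_mul {M ψ : E → ℝ} (hM : Integrable M) (hψ : Continuous ψ)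
    (hc : HasCompactSupport ψ) (t : ℝ) : Integrable (fun x => dlap t M x * ψ x) := by
  obtain ⟨C, hC⟩ := hψ.bounded_above_of_compact_support hc
  have h1 : Integrable (dlap t M) := by
    unfold dlap
    refine integrable_finsetSum _ fun i _ => ?_
    unfold sd
    have e1 := hM.comp_add_right (t • stdOrthonormalBasis ℝ E i)
    have e2 : Integrable (fun x => M (x - t • stdOrthonormalBasis ℝ E i)) :=
      hM.comp_sub_right _
    exact (e1.add e2).sub (hM.const_mul 2)
  refine h1.mul_bdd (c := C) (by fun_prop) ?_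
  filter_upwards with x using hC _

/-- Bounds for the discrete Laplacian of a continuous compactly supported function. -/
theorem integrable_mul_dlap {M ψ : E → ℝ} (hM : Integrable M) (hψ : Continuous ψ)
    (hc : HasCompactSupport ψ) (t : ℝ) : Integrable (fun x => M x * dlap t ψ x) := by
  have h3 : Continuous (dlap t ψ) := by
    unfold dlap sd
    fun_prop
  have h4 : ∃ C, ∀ x, ‖dlap t ψ x‖ ≤ C := by
    obtain ⟨C, hC⟩ := hψ.bounded_above_of_compact_support hc
    refine ⟨∑ i : Fin (Module.finrank ℝ E), (C + C + 2 * C), fun x => ?_⟩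
    unfold dlap sd
    refine norm_sum_le_of_le _ fun i _ => ?_
    rw [Real.norm_eq_abs]
    have b1 := hC (x + t • stdOrthonormalBasis ℝ E i)
    have b2 := hC (x - t • stdOrthonormalBasis ℝ E i)
    have b3 := hC x
    rw [Real.norm_eq_abs] at b1 b2 b3
    rw [abs_le] at b1 b2 b3 ⊢
    constructor <;> linarith [b1.1, b1.2, b2.1, b2.2, b3.1, b3.2]
  obtain ⟨C, hC⟩ := h4
  refine hM.mul_bdd (c := C) h3.aestronglyMeasurable ?_
  filter_upwards with x using hC _

/-- Discrete version of `Δ (min A B) ≤ max (Δ A) (Δ B)`. -/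
theorem dlap_min_le (A B : E → ℝ) (t c : ℝ) (x : E) (hA : dlap t A x ≤ c) (hB : dlap t B x ≤ c) :
    dlap t (fun x => min (A x) (B x)) x ≤ c := by
  rcases le_total (A x) (B x) with h | h
  · refine le_trans ?_ hA
    unfold dlap sd
    apply Finset.sum_le_sum
    intro i _
    beta_reduce
    rw [min_eq_left h]
    have h1 := min_le_left (A (x + t • stdOrthonormalBasis ℝ E i))
      (B (x + t • stdOrthonormalBasis ℝ E i))
    have h2 := min_le_left (A (x - t • stdOrthonormalBasis ℝ E i))
      (B (x - t • stdOrthonormalBasis ℝ E i))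
    linarith
  · refine le_trans ?_ hB
    unfold dlap sd
    apply Finset.sum_le_sum
    intro i _
    beta_reduce
    rw [min_eq_right h]
    have h1 := min_le_right (A (x + t • stdOrthonormalBasis ℝ E i))
      (B (x + t • stdOrthonormalBasis ℝ E i))
    have h2 := min_le_right (A (x - t • stdOrthonormalBasis ℝ E i))
      (B (x - t • stdOrthonormalBasis ℝ E i))
    linarith

/-- Weak Kato inequality when the discrete Laplacians are bounded pointwise. -/
theorem wk_pointwise {A B ψ ℓ : E → ℝ} (hA : Integrable A) (hB : Integrable B)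
    (hψ : ContDiff ℝ 2 ψ) (hc : HasCompactSupport ψ) (h0 : ∀ x, 0 ≤ ψ x)
    (hℓ : Integrable (fun x => ℓ x * ψ x))
    (h : ∀ κ : ℝ, 0 < κ → ∀ᶠ t in 𝓝[>] (0 : ℝ), ∀ x ∈ tsupport ψ,
      dlap t A x ≤ t ^ 2 * (ℓ x + κ) ∧ dlap t B x ≤ t ^ 2 * (ℓ x + κ)) :
    ∫ x, min (A x) (B x) * Laplacian.laplacian ψ x ≤ ∫ x, ℓ x * ψ x := by
  set M : E → ℝ := fun x => min (A x) (B x) with hM
  have hMi : Integrable M := hA.inf hB
  have hψi : Integrable ψ := hψ.continuous.integrable_of_hasCompactSupport hc
  have hlapc := continuous_lap hψ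
  have hlapi : Integrable (fun x => M x * Laplacian.laplacian ψ x) := by
    obtain ⟨C, hC⟩ := hlapc.bounded_above_of_compact_support (hasCompactSupport_lap hc)
    refine hMi.mul_bdd (c := C) hlapc.aestronglyMeasurable ?_
    filter_upwards with x using hC _
  have main : ∀ κ : ℝ, 0 < κ → ∫ x, M x * Laplacian.laplacian ψ x ≤
      (∫ x, ℓ x * ψ x) + κ * (∫ x, ψ x) + κ * ∫ x, |M x| := by
    intro κ hκ
    obtain ⟨t, ⟨ht1, ht2⟩, ht0⟩ :=
      (((h κ hκ).and (dlap_estimate hψ hc hκ)).and self_mem_nhdsWithin).exists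
    have ht0' : (0 : ℝ) < t := ht0
    have e1 : ∫ x, M x * dlap t ψ x ≤ ∫ x, t ^ 2 * (ℓ x * ψ x + κ * ψ x) := by
      rw [integral_mul_dlap hMi hψ.continuous hc]
      refine integral_mono (integrable_dlap_mul hMi hψ.continuous hc t)
        ((hℓ.add (hψi.const_mul κ)).const_mul _) fun x => ?_
      simp only
      by_cases hx : x ∈ tsupport ψ
      · have h1 := dlap_min_le A B t _ x (ht1 x hx).1 (ht1 x hx).2
        have h2 := mul_le_mul_of_nonneg_right h1 (h0 x)
        refine h2.trans (le_of_eq ?_)
        ring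
      · have hx0 : ψ x = 0 := image_eq_zero_of_notMem_tsupport hx
        rw [hx0]
        simp
    have e2 : ∫ x, M x * (t ^ 2 * Laplacian.laplacian ψ x) ≤
        ∫ x, (M x * dlap t ψ x + κ * t ^ 2 * |M x|) := by
      refine integral_mono ?_ ?_ fun x => ?_
      · have : (fun x => M x * (t ^ 2 * Laplacian.laplacian ψ x)) =
          fun x => t ^ 2 * (M x * Laplacian.laplacian ψ x) := by
          funext x; ring
        rw [this]
        exact hlapi.const_mul _
      · exact (integrable_mul_dlap hMi hψ.continuous hc t).add (hMi.abs.const_mul _)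
      · simp only
        have h5 := ht2 x
        rw [abs_le] at h5
        have h6 : M x * (t ^ 2 * Laplacian.laplacian ψ x - dlap t ψ x) ≤
            |M x| * (κ * t ^ 2) := by
          refine (le_abs_self _).trans ?_
          rw [abs_mul]
          refine mul_le_mul_of_nonneg_left ?_ (abs_nonneg _)
          rw [abs_le]
          constructor <;> linarith [h5.1, h5.2]
        linarith
    have e3 : ∫ x, (M x * dlap t ψ x + κ * t ^ 2 * |M x|) =
        (∫ x, M x * dlap t ψ x) + κ * t ^ 2 * ∫ x, |M x| := by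
      rw [integral_add, integral_const_mul]
      · exact integrable_mul_dlap hMi hψ.continuous hc t
      · exact hMi.abs.const_mul _
    have e4 : ∫ x, t ^ 2 * (ℓ x * ψ x + κ * ψ x) =
        t ^ 2 * ((∫ x, ℓ x * ψ x) + κ * ∫ x, ψ x) := by
      rw [integral_const_mul, integral_add hℓ (hψi.const_mul κ), integral_const_mul]
    have e5 : ∫ x, M x * (t ^ 2 * Laplacian.laplacian ψ x) =
        t ^ 2 * ∫ x, M x * Laplacian.laplacian ψ x := by
      rw [← integral_const_mul]
      congr 1
      funext x
      ring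
    rw [e3] at e2
    rw [e4] at e1
    rw [e5] at e2
    have ht2' : (0 : ℝ) < t ^ 2 := by positivity
    have e6 : t ^ 2 * ∫ x, M x * Laplacian.laplacian ψ x ≤
        t ^ 2 * ((∫ x, ℓ x * ψ x) + κ * (∫ x, ψ x) + κ * ∫ x, |M x|) := by
      linarith
    exact le_of_mul_le_mul_left e6 ht2'
  -- let κ tend to zero
  have hlim : Tendsto (fun κ : ℝ => (∫ x, ℓ x * ψ x) + κ * (∫ x, ψ x) + κ * ∫ x, |M x|)
      (𝓝[>] 0) (𝓝 (∫ x, ℓ x * ψ x)) := by
    have h7 : Tendsto (fun κ : ℝ => (∫ x, ℓ x * ψ x) + κ * (∫ x, ψ x) + κ * ∫ x, |M x|)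
        (𝓝 0) (𝓝 ((∫ x, ℓ x * ψ x) + 0 * (∫ x, ψ x) + 0 * ∫ x, |M x|)) := by
      apply Continuous.tendsto
      fun_prop
    simp only [zero_mul, add_zero] at h7
    exact h7.mono_left nhdsWithin_le_nhds
  refine ge_of_tendsto hlim ?_
  filter_upwards [self_mem_nhdsWithin] with κ hκ
  exact main κ hκ

end Pool.Agent.helper26.Env
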