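import Pool.Agent.helper26.Env.WK

/-!
# Weak Kato inequality, general form
-/

set_option autoImplicit false
set_option linter.unusedSectionVars false

namespace Pool.Agent.helper26.Env

open MeasureTheory Filter Topology Set InnerProductSpace
open scoped ContDiff

variable {E : Type*} [NormedAddCommGroup E] [InnerProductSpace ℝ E] [FiniteDimensional ℝ E]
  [MeasurableSpace E] [BorelSpace E]

/-- A mollifier at scale `ε`. -/
structure Moll (ε : ℝ) (η : E → ℝ) : Prop where
  smooth : ContDiff ℝ ∞ η
  nonneg : ∀ x, 0 ≤ η x
  supp : ∀ x, ε ≤ ‖x‖ → η x = 0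
  int : ∫ x, η x = 1
  comp : HasCompactSupport η

theorem exists_moll {ε : ℝ} (hε : 0 < ε) : ∃ η : E → ℝ, Moll ε η := by
  let f : ContDiffBump (0 : E) := ⟨ε / 2, ε, by positivity, by linarith⟩
  refine ⟨f.normed volume, ?_, fun x => f.nonneg_normed x, ?_, f.integral_normed,
    f.hasCompactSupport_normed⟩
  · exact f.contDiff_normed
  · intro x hx
    have h1 : x ∉ Function.support (f.normed volume) := by
      rw [f.support_normed_eq]
      simp only [Metric.mem_ball, dist_zero_right, not_lt]
      exact hx
    simpa using h1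

theorem Moll.integrable {ε : ℝ} {η : E → ℝ} (h : Moll ε η) : Integrable η :=
  h.smooth.continuous.integrable_of_hasCompactSupport h.comp

/-- Mollification. -/
noncomputable def mol (η a : E → ℝ) (x : E) : ℝ := ∫ y, a y * η (x - y)

theorem integrable_mol {ε : ℝ} {η a : E → ℝ} (h : Moll ε η) (ha : Integrable a) :
    Integrable (mol η a) :=
  ha.integrable_convolution (ContinuousLinearMap.mul ℝ ℝ) h.integrable

theorem integrable_mul_shift {ε : ℝ} {η a : E → ℝ} (h : Moll ε η) (ha : Integrable a) (x : E) :
    Integrable (fun y => a y * η (x - y)) := by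
  obtain ⟨C, hC⟩ := h.smooth.continuous.bounded_above_of_compact_support h.comp
  have hc := h.smooth.continuous
  refine ha.mul_bdd (c := C) (by fun_prop) ?_
  filter_upwards with y using hC _

theorem dlap_mol {ε : ℝ} {η a : E → ℝ} (h : Moll ε η) (ha : Integrable a) (t : ℝ) (x : E) :
    dlap t (mol η a) x = ∫ y, a y * dlap t η (x - y) := by
  unfold dlap
  simp only [Finset.mul_sum]
  rw [integral_finsetSum]
  · refine Finset.sum_congr rfl fun i _ => ?_
    unfold sd mol
    set v := t • stdOrthonormalBasis ℝ E i with hv
    have e1 := integrable_mul_shift h ha (x + v)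
    have e2 := integrable_mul_shift h ha (x - v)
    have e3 := integrable_mul_shift h ha x
    have e12 : Integrable (fun y => a y * η (x + v - y) + a y * η (x - v - y)) := e1.add e2
    rw [← integral_add e1 e2, ← integral_const_mul, ← integral_sub e12 (e3.const_mul 2)]
    apply integral_congr_ae
    filter_upwards with y
    rw [show x - y + v = x + v - y by abel, show x - y - v = x - v - y by abel]
    ring
  · intro i _
    unfold sd
    set v := t • stdOrthonormalBasis ℝ E i with hv
    have e1 := integrable_mul_shift h ha (x + v)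
    have e2 := integrable_mul_shift h ha (x - v)
    have e3 := integrable_mul_shift h ha x
    have : (fun y => a y * (η (x - y + v) + η (x - y - v) - 2 * η (x - y))) =
        fun y => (a y * η (x + v - y) + a y * η (x - v - y)) - 2 * (a y * η (x - y)) := by
      funext y
      rw [show x - y + v = x + v - y by abel, show x - y - v = x - v - y by abel]
      ring
    rw [this]
    exact (e1.add e2).sub (e3.const_mul 2)

/-- `L¹` continuity modulus controls the mollification error. -/
theorem integral_mol_sub {ε δ : ℝ} {η a : E → ℝ} (h : Moll ε η) (ha : Integrable a)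
    (hδ : ∀ z : E, ‖z‖ < ε → ∫ x, |a (x + z) - a x| ≤ δ) :
    ∫ x, |mol η a x - a x| ≤ δ := by
  have hηi := h.integrable
  -- pointwise bound
  have hint : Integrable (fun p : E × E => η p.2 * (a (p.1 - p.2) - a p.1))
      (volume.prod volume) := by
    have h1 : Integrable (fun p : E × E => (ContinuousLinearMap.mul ℝ ℝ) (a (p.1 - p.2)) (η p.2))
        (volume.prod volume) := by
      have := (hηi.convolution_integrand (ContinuousLinearMap.mul ℝ ℝ).flip ha)
      refine this.congr ?_
      filter_upwards with p
      simp [mul_comm]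
    have h2 : Integrable (fun p : E × E => a p.1 * η p.2) (volume.prod volume) :=
      ha.mul_prod hηi
    have h3 := h1.sub h2
    refine h3.congr ?_
    filter_upwards with p
    simp only [Pi.sub_apply, ContinuousLinearMap.mul_apply']
    ring
  have hpt : ∀ᵐ x, |mol η a x - a x| ≤ ∫ z, |η z * (a (x - z) - a x)| := by
    have h4 := hint.prod_right_ae
    filter_upwards [h4] with x hx
    have e1 : mol η a x = ∫ z, a (x - z) * η z := by
      unfold mol
      rw [← integral_sub_left_eq_self (fun y => a y * η (x - y)) volume x]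
      simp
    have e2 : a x = ∫ z, a x * η z := by
      rw [integral_const_mul, h.int, mul_one]
    have e3 : mol η a x - a x = ∫ z, η z * (a (x - z) - a x) := by
      have e4 : mol η a x - a x = (∫ z, a (x - z) * η z) - ∫ z, a x * η z := by
        rw [← e1, ← e2]
      rw [e4, ← integral_sub]
      · congr 1
        funext z
        ring
      · have : (fun z => a (x - z) * η z) = fun z => η z * (a (x - z) - a x) + a x * η z := by
          funext z
          ring
        rw [this]
        exact hx.add (hηi.const_mul _)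
      · exact hηi.const_mul _
    rw [e3]
    exact abs_integral_le_integral_abs
  have hint' := hint.abs
  have e5 : ∫ x, |mol η a x - a x| ≤ ∫ x, ∫ z, |η z * (a (x - z) - a x)| := by
    refine integral_mono_ae ?_ ?_ hpt
    · exact ((integrable_mol h ha).sub ha).abs
    · exact hint'.integral_prod_left
  refine e5.trans ?_
  rw [integral_integral_swap hint']
  have e6 : ∀ z, ∫ x, |η z * (a (x - z) - a x)| ≤ δ * η z := by
    intro z
    have e7 : ∫ x, |η z * (a (x - z) - a x)| = η z * ∫ x, |a (x - z) - a x| := by
      rw [← integral_const_mul]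
      congr 1
      funext x
      rw [abs_mul, abs_of_nonneg (h.nonneg z)]
    rw [e7]
    by_cases hz : ε ≤ ‖z‖
    · rw [h.supp z hz]
      simp
    · have e8 := hδ (-z) (by rw [norm_neg]; exact not_le.1 hz)
      simp only [← sub_eq_add_neg] at e8
      have := mul_le_mul_of_nonneg_left e8 (h.nonneg z)
      linarith
  calc ∫ z, ∫ x, |η z * (a (x - z) - a x)| ≤ ∫ z, δ * η z := by
        refine integral_mono hint'.integral_prod_right (hηi.const_mul _) e6
    _ = δ := by rw [integral_const_mul, h.int, mul_one]

/-- The mollified measure. -/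
noncomputable def molm (η : E → ℝ) (L : Measure E) (x : E) : ℝ := ∫ y, η (x - y) ∂L

theorem integrable_prod_molm {ε : ℝ} {η ψ : E → ℝ} (h : Moll ε η) (L : Measure E)
    [IsFiniteMeasure L] (hψ : Continuous ψ) (hc : HasCompactSupport ψ) :
    Integrable (fun p : E × E => η (p.1 - p.2) * ψ p.1) (volume.prod L) := by
  obtain ⟨C, hC⟩ := h.smooth.continuous.bounded_above_of_compact_support h.comp
  have hcont := h.smooth.continuous
  have hψi : Integrable ψ := hψ.integrable_of_hasCompactSupport hc
  have h1 : Integrable (fun p : E × E => ψ p.1) (volume.prod L) := by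
    simpa using hψi.mul_prod (integrable_const (1 : ℝ) (μ := L))
  refine (h1.bdd_mul (c := C) (by fun_prop) ?_)
  filter_upwards with p using hC _

theorem integrable_molm_mul {ε : ℝ} {η ψ : E → ℝ} (h : Moll ε η) (L : Measure E)
    [IsFiniteMeasure L] (hψ : Continuous ψ) (hc : HasCompactSupport ψ) :
    Integrable (fun x => molm η L x * ψ x) := by
  have h1 := (integrable_prod_molm h L hψ hc).integral_prod_left
  refine h1.congr ?_
  filter_upwards with x
  unfold molm
  rw [integral_mul_const]

theorem integral_molm_mul {ε δ : ℝ} {η ψ : E → ℝ} (h : Moll ε η) (L : Measure E)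
    [IsFiniteMeasure L] (hψ : Continuous ψ) (hc : HasCompactSupport ψ)
    (hδ : ∀ x y : E, ‖x - y‖ < ε → |ψ x - ψ y| ≤ δ) :
    ∫ x, molm η L x * ψ x ≤ (∫ y, ψ y ∂L) + δ * (L univ).toReal := by
  have hprod := integrable_prod_molm h L hψ hc
  have e1 : ∫ x, molm η L x * ψ x = ∫ x, ∫ y, η (x - y) * ψ x ∂L := by
    congr 1
    funext x
    unfold molm
    rw [integral_mul_const]
  rw [e1, integral_integral_swap hprod]
  have hδ0 : 0 ≤ δ ∨ ε ≤ 0 := by
    by_cases hε : 0 < ε
    · left
      have := hδ 0 0 (by simpa using hε)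
      simpa using this
    · right
      exact not_lt.1 hε
  have hψL : Integrable ψ L := by
    obtain ⟨C, hC⟩ := hψ.bounded_above_of_compact_support hc
    exact Integrable.of_bound hψ.aestronglyMeasurable C (by filter_upwards with x using hC x)
  have e2 : ∀ y, ∫ x, η (x - y) * ψ x ≤ ψ y + δ := by
    intro y
    have hi : Integrable (fun x => η (x - y)) := h.integrable.comp_sub_right y
    have h1 : ∫ x, η (x - y) = 1 := by
      rw [integral_sub_right_eq_self η y, h.int]
    have h2 : ψ y + δ = ∫ x, η (x - y) * (ψ y + δ) := by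
      rw [integral_mul_const, h1, one_mul]
    rw [h2]
    obtain ⟨C, hC⟩ := hψ.bounded_above_of_compact_support hc
    refine integral_mono (hi.mul_bdd (c := C) hψ.aestronglyMeasurable
      (by filter_upwards with x using hC x)) (hi.mul_const _) fun x => ?_
    simp only
    by_cases hx : ε ≤ ‖x - y‖
    · rw [h.supp _ hx]
      simp
    · have h3 := hδ x y (not_le.1 hx)
      rw [abs_le] at h3
      exact mul_le_mul_of_nonneg_left (by linarith [h3.2]) (h.nonneg _)
  calc ∫ y, (∫ x, η (x - y) * ψ x) ∂L ≤ ∫ y, (ψ y + δ) ∂L := by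
        refine integral_mono hprod.integral_prod_right (hψL.add (integrable_const _)) e2
    _ = (∫ y, ψ y ∂L) + δ * (L univ).toReal := by
        rw [integral_add hψL (integrable_const _), integral_const]
        simp [Measure.real, mul_comm]

/-- **Weak Kato inequality**: if `Δ a ≤ L` and `Δ b ≤ L` on `G` then `Δ (min a b) ≤ L` on `G`. -/
theorem wk {G : Set E} (hG : IsOpen G) {a b : E → ℝ} (ha : Integrable a) (hb : Integrable b)
    (L : Measure E) [IsFiniteMeasure L]
    (h1 : ∀ ψ, Test G ψ → (∀ x, 0 ≤ ψ x) → ∫ x, a x * Laplacian.laplacian ψ x ≤ ∫ x, ψ x ∂L)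
    (h2 : ∀ ψ, Test G ψ → (∀ x, 0 ≤ ψ x) → ∫ x, b x * Laplacian.laplacian ψ x ≤ ∫ x, ψ x ∂L)
    {ψ : E → ℝ} (hψ : Test G ψ) (h0 : ∀ x, 0 ≤ ψ x) :
    ∫ x, min (a x) (b x) * Laplacian.laplacian ψ x ≤ ∫ x, ψ x ∂L := by
  obtain ⟨ε₀, hε₀, hsub⟩ := hψ.comp.exists_cthickening_subset_open hG hψ.sub
  have hψc := hψ.smooth.continuous
  have hlapc := continuous_lap hψ.smooth2
  obtain ⟨C, hC⟩ := hlapc.bounded_above_of_compact_support (hasCompactSupport_lap hψ.comp)
  have hC0 : 0 ≤ C := (norm_nonneg _).trans (hC 0)
  have huc := uc_of_compact hψc hψ.comp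
  -- the inequality up to an error
  have main : ∀ δ : ℝ, 0 < δ → ∫ x, min (a x) (b x) * Laplacian.laplacian ψ x ≤
      (∫ x, ψ x ∂L) + δ * (L univ).toReal + C * (δ + δ) := by
    intro δ hδ
    have hta := (tendsto_translate a ha).eventually (gt_mem_nhds hδ)
    have htb := (tendsto_translate b hb).eventually (gt_mem_nhds hδ)
    obtain ⟨r, hr, hr2⟩ := Metric.eventually_nhds_iff.1 (hta.and htb)
    obtain ⟨r', hr', hr2'⟩ := Metric.uniformContinuous_iff.1 huc δ hδ
    obtain ⟨ε, hε, hεr, hεr', hε0⟩ : ∃ ε : ℝ, 0 < ε ∧ ε ≤ r ∧ ε ≤ r' ∧ ε ≤ ε₀ :=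
      ⟨min r (min r' ε₀), by positivity, min_le_left _ _,
        (min_le_right _ _).trans (min_le_left _ _), (min_le_right _ _).trans (min_le_right _ _)⟩
    obtain ⟨η, hη⟩ := exists_moll (E := E) hε
    have hη2 : ContDiff ℝ 2 η := contDiff_infty.1 hη.smooth 2
    have hηlapc := continuous_lap hη2
    obtain ⟨Cη, hCη⟩ := hηlapc.bounded_above_of_compact_support (hasCompactSupport_lap hη.comp)
    -- test functions `η (x - ·)`
    have htest : ∀ x ∈ tsupport ψ, Test G (fun y => η (x - y)) := by
      intro x hx
      have hsupp : tsupport (fun y => η (x - y)) ⊆ Metric.closedBall x ε := by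
        apply closure_minimal _ Metric.isClosed_closedBall
        intro y hy
        rw [Metric.mem_closedBall, dist_comm, dist_eq_norm]
        by_contra hne
        exact hy (hη.supp _ (not_le.1 hne).le)
      refine ⟨hη.smooth.comp (contDiff_const.sub contDiff_id), ?_, ?_⟩
      · exact HasCompactSupport.of_support_subset_isCompact (isCompact_closedBall x ε)
          (subset_closure.trans hsupp)
      · refine hsupp.trans (Subset.trans ?_ hsub)
        intro y hy
        exact Metric.mem_cthickening_of_dist_le y x _ _ hx ((Metric.mem_closedBall.1 hy).trans hε0)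
    have hpt : ∀ f : E → ℝ, Integrable f →
        (∀ ψ, Test G ψ → (∀ x, 0 ≤ ψ x) → ∫ x, f x * Laplacian.laplacian ψ x ≤ ∫ x, ψ x ∂L) →
        ∀ κ : ℝ, 0 < κ → ∀ᶠ t in 𝓝[>] (0 : ℝ), ∀ x ∈ tsupport ψ,
          dlap t (mol η f) x ≤ t ^ 2 * (molm η L x + κ) := by
      intro f hf hfL κ hκ
      have hN : 0 ≤ ∫ x, |f x| := integral_nonneg fun x => abs_nonneg _
      obtain ⟨κ', hκ', hκ2⟩ : ∃ κ' : ℝ, 0 < κ' ∧ κ' * (∫ x, |f x|) ≤ κ := by
        refine ⟨κ / ((∫ x, |f x|) + 1), by positivity, ?_⟩
        rw [div_mul_eq_mul_div, div_le_iff₀ (by positivity)]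
        nlinarith
      filter_upwards [dlap_estimate hη2 hη.comp hκ'] with t ht x hx
      rw [dlap_mol hη hf]
      have e1 : ∫ y, f y * Laplacian.laplacian η (x - y) ≤ molm η L x := by
        have := hfL _ (htest x hx) (fun y => hη.nonneg _)
        simp only [lap_comp_sub hη2] at this
        exact this
      have i1 : Integrable (fun y => f y * Laplacian.laplacian η (x - y)) := by
        refine hf.mul_bdd (c := Cη) (by fun_prop) ?_
        filter_upwards with y using hCη _
      have i2 : Integrable (fun y => f y * dlap t η (x - y)) := by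
        have hcη := hη.smooth.continuous
        have h3 : Continuous (dlap t η) := by
          unfold dlap sd
          fun_prop
        refine hf.mul_bdd (c := κ' * t ^ 2 + t ^ 2 * Cη) (by fun_prop) ?_
        filter_upwards with y
        have b1 := ht (x - y)
        have b2 := hCη (x - y)
        rw [Real.norm_eq_abs] at b2 ⊢
        rw [abs_le] at b1 b2 ⊢
        have ht2 : 0 ≤ t ^ 2 := by positivity
        constructor <;> nlinarith [b1.1, b1.2, b2.1, b2.2]
      calc ∫ y, f y * dlap t η (x - y)
          ≤ ∫ y, (t ^ 2 * (f y * Laplacian.laplacian η (x - y)) + κ' * t ^ 2 * |f y|) := by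
            refine integral_mono i2 ((i1.const_mul _).add (hf.abs.const_mul _)) fun y => ?_
            simp only
            have b1 := ht (x - y)
            have b2 : f y * (dlap t η (x - y) - t ^ 2 * Laplacian.laplacian η (x - y)) ≤
                |f y| * (κ' * t ^ 2) := by
              refine (le_abs_self _).trans ?_
              rw [abs_mul]
              exact mul_le_mul_of_nonneg_left b1 (abs_nonneg _)
            linarith
        _ = t ^ 2 * (∫ y, f y * Laplacian.laplacian η (x - y)) + κ' * t ^ 2 * ∫ y, |f y| := by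
            rw [integral_add (i1.const_mul _) (hf.abs.const_mul _), integral_const_mul,
              integral_const_mul]
        _ ≤ t ^ 2 * (molm η L x + κ) := by
            have ht2 : 0 ≤ t ^ 2 := by positivity
            nlinarith
    have key := wk_pointwise (integrable_mol hη ha) (integrable_mol hη hb) hψ.smooth2 hψ.comp h0
      (integrable_molm_mul hη L hψc hψ.comp) (fun κ hκ => by
        filter_upwards [hpt a ha h1 κ hκ, hpt b hb h2 κ hκ] with t ht1 ht2 x hx
        exact ⟨ht1 x hx, ht2 x hx⟩)
    have key2 := integral_molm_mul (δ := δ) hη L hψc hψ.comp (fun x y hxy => by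
      have := (hr2' (a := x) (b := y) (by rw [dist_eq_norm]; exact hxy.trans_le hεr')).le
      rwa [Real.dist_eq] at this)
    have ea := integral_mol_sub (δ := δ) hη ha (fun z hz =>
      (hr2 (y := z) (by rw [dist_zero_right]; exact hz.trans_le hεr)).1.le)
    have eb := integral_mol_sub (δ := δ) hη hb (fun z hz =>
      (hr2 (y := z) (by rw [dist_zero_right]; exact hz.trans_le hεr)).2.le)
    have ima := integrable_mol hη ha
    have imb := integrable_mol hη hb
    have i3 : Integrable (fun x => min (mol η a x) (mol η b x) * Laplacian.laplacian ψ x) := by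
      refine (ima.inf imb).mul_bdd (c := C) hlapc.aestronglyMeasurable ?_
      filter_upwards with x using hC _
    have i6 : Integrable (fun x => |mol η a x - a x|) := (ima.sub ha).abs
    have i7 : Integrable (fun x => |mol η b x - b x|) := (imb.sub hb).abs
    have i4 : Integrable (fun x => C * (|mol η a x - a x| + |mol η b x - b x|)) :=
      (i6.add i7).const_mul C
    have i5 : Integrable (fun x => min (a x) (b x) * Laplacian.laplacian ψ x) := by
      refine (ha.inf hb).mul_bdd (c := C) hlapc.aestronglyMeasurable ?_
      filter_upwards with x using hC _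
    have e9 : ∫ x, min (a x) (b x) * Laplacian.laplacian ψ x ≤
        ∫ x, (min (mol η a x) (mol η b x) * Laplacian.laplacian ψ x +
          C * (|mol η a x - a x| + |mol η b x - b x|)) := by
      refine integral_mono i5 (i3.add i4) fun x => ?_
      simp only
      have b1 : |min (a x) (b x) - min (mol η a x) (mol η b x)| ≤
          |mol η a x - a x| + |mol η b x - b x| := by
        refine (abs_min_sub_min_le_max _ _ _ _).trans ?_
        rw [abs_sub_comm (a x), abs_sub_comm (b x)]
        exact max_le_add_of_nonneg (abs_nonneg _) (abs_nonneg _)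
      have b2 : (min (a x) (b x) - min (mol η a x) (mol η b x)) * Laplacian.laplacian ψ x ≤
          (|mol η a x - a x| + |mol η b x - b x|) * C := by
        refine (le_abs_self _).trans ?_
        rw [abs_mul]
        exact mul_le_mul b1 (by simpa using hC x) (abs_nonneg _)
          (add_nonneg (abs_nonneg _) (abs_nonneg _))
      linarith
    rw [integral_add i3 i4, integral_const_mul, integral_add i6 i7] at e9
    have e10 : C * ((∫ x, |mol η a x - a x|) + ∫ x, |mol η b x - b x|) ≤ C * (δ + δ) :=
      mul_le_mul_of_nonneg_left (add_le_add ea eb) hC0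
    linarith
  have hlim : Tendsto (fun δ : ℝ => (∫ x, ψ x ∂L) + δ * (L univ).toReal + C * (δ + δ))
      (𝓝[>] 0) (𝓝 (∫ x, ψ x ∂L)) := by
    have h7 : Tendsto (fun δ : ℝ => (∫ x, ψ x ∂L) + δ * (L univ).toReal + C * (δ + δ))
        (𝓝 0) (𝓝 ((∫ x, ψ x ∂L) + 0 * (L univ).toReal + C * (0 + 0))) := by
      apply Continuous.tendsto
      fun_prop
    simp only [zero_mul, add_zero, mul_zero] at h7
    exact h7.mono_left nhdsWithin_le_nhds
  refine ge_of_tendsto hlim ?_
  filter_upwards [self_mem_nhdsWithin] with δ hδ
  exact main δ hδ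

end Pool.Agent.helper26.Env
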